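import Pool.Agent.Lib.MMT.Defs

/-! Fourier analysis on the circle: Parseval, translations, decay, weighted `ℓ²`. -/

namespace Pool.Agent.Lib.MMT

open Filter Topology MeasureTheory AddCircle Complex
open scoped Real ComplexConjugate

noncomputable section

abbrev Ci := AddCircle (2 * Real.pi)
abbrev X := C(Ci, ℂ)
abbrev L2 := lp (fun _ : ℤ => ℂ) 2
abbrev mu : Measure Ci := haarAddCircle

lemma integ {E : Type*} [NormedAddCommGroup E] {f : Ci → E} (hf : Continuous f) :
    Integrable f mu :=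
  hf.integrable_of_hasCompactSupport (HasCompactSupport.of_compactSpace f)

lemma parseval (f : X) :
    HasSum (fun k => ‖fourierCoeff f k‖ ^ 2) (∫ x, ‖f x‖ ^ 2 ∂mu) := by
  have h := hasSum_sq_fourierCoeff (ContinuousMap.toLp (E := ℂ) 2 haarAddCircle ℂ f)
  simp_rw [fourierCoeff_toLp] at h
  convert h using 1
  apply integral_congr_ae
  filter_upwards [ContinuousMap.coeFn_toLp (E := ℂ) (p := 2) (μ := haarAddCircle) (𝕜 := ℂ) f]
    with x hx
  rw [hx]

lemma norm_fourier (k : ℤ) (x : Ci) : ‖fourier k x‖ = 1 := by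
  rw [fourier_apply, Circle.norm_coe]

lemma fourier_add_right (k : ℤ) (x y : Ci) : fourier k (x + y) = fourier k x * fourier k y := by
  simp only [fourier_apply, smul_add, toCircle_add, Circle.coe_mul]

lemma fourier_coe (k : ℤ) (x : ℝ) : fourier k (x : Ci) = Complex.exp (I * (k * x)) := by
  rw [fourier_coe_apply]
  congr 1
  have : (π : ℂ) ≠ 0 := by exact_mod_cast Real.pi_ne_zero
  push_cast
  field_simp

lemma norm_coeff_le {f : Ci → ℂ} {C : ℝ} (h : ∀ x, ‖f x‖ ≤ C) (k : ℤ) :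
    ‖fourierCoeff f k‖ ≤ C := by
  unfold fourierCoeff
  refine (norm_integral_le_of_norm_le_const (C := C) (ae_of_all _ fun x => ?_)).trans (by simp)
  rw [norm_smul, norm_fourier, one_mul]; exact h x

/-- The `k`-th Fourier coefficient as a continuous linear functional. -/
def cf (k : ℤ) : X →L[ℂ] ℂ :=
  LinearMap.mkContinuous
    { toFun := fun f => fourierCoeff f k
      map_add' := fun f g => by
        have := fourierCoeff.add (integ f.continuous) (integ g.continuous)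
        exact congrFun this k
      map_smul' := fun c f => fourierCoeff.const_smul f c k }
    1 fun f => by
      rw [one_mul]; exact norm_coeff_le (fun x => f.norm_coe_le_norm x) k

lemma cf_apply (k : ℤ) (f : X) : cf k f = fourierCoeff f k := rfl

lemma cf_fourier (k j : ℤ) : cf k (fourier j) = if k = j then 1 else 0 := by
  rw [cf_apply, fourierCoeff_fourier, Pi.single_apply]

lemma ext_cf {f g : X} (h : ∀ k, cf k f = cf k g) : f = g := by
  have h0 : fourierCoeff (f - g : X) = 0 := by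
    ext k; rw [← cf_apply, map_sub, h, sub_self]; rfl
  have h1 := hasSum_fourier_series_of_summable (f := f - g) (by rw [h0]; exact summable_zero)
  rw [h0] at h1
  simp only [Pi.zero_apply, zero_smul] at h1
  exact sub_eq_zero.1 (h1.unique hasSum_zero)

/-- Translation. -/
def tr (h : Ci) : X →L[ℂ] X :=
  LinearMap.mkContinuous
    { toFun := fun f => f.comp ⟨fun x => x + h, by fun_prop⟩
      map_add' := fun f g => by ext x; simp
      map_smul' := fun c f => by ext x; simp }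
    1 fun f => by
      rw [one_mul]
      exact (ContinuousMap.norm_le _ (norm_nonneg f)).2 fun x => f.norm_coe_le_norm _

@[simp] lemma tr_apply (h : Ci) (f : X) (x : Ci) : tr h f x = f (x + h) := rfl

lemma coeff_shift (f : Ci → ℂ) (h : Ci) (k : ℤ) :
    fourierCoeff (fun x => f (x + h)) k = fourier k h * fourierCoeff f k := by
  unfold fourierCoeff
  rw [← integral_add_right_eq_self (fun t => fourier (-k) t • f t) h, ← integral_const_mul]
  congr 1; ext x
  rw [fourier_add_right, smul_eq_mul, smul_eq_mul]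
  have : fourier k h * fourier (-k) h = 1 := by
    rw [← fourier_add, add_neg_cancel, fourier_zero]
  linear_combination (-(fourier (-k) x * f (x + h))) * this

lemma cf_tr (k : ℤ) (h : Ci) (f : X) : cf k (tr h f) = fourier k h * cf k f :=
  coeff_shift f h k

/-- A function invariant under the shift by `2π/P` has no frequencies `0 < |k| < P`. -/
lemma coeff_eq_zero_of_inv {b : Ci → ℂ} {P : ℕ} (hP : 0 < P)
    (hb : ∀ y, b (y + ((2 * π / P : ℝ) : Ci)) = b y) {k : ℤ} (hk : k ≠ 0) (hkP : |k| < P) :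
    fourierCoeff b k = 0 := by
  have h1 := coeff_shift b ((2 * π / P : ℝ) : Ci) k
  simp_rw [hb] at h1
  have h2 : fourier k ((2 * π / P : ℝ) : Ci) ≠ 1 := by
    rw [fourier_coe]
    intro h
    obtain ⟨n, hn⟩ := Complex.exp_eq_one_iff.1 h
    have hP' : (P : ℂ) ≠ 0 := by exact_mod_cast hP.ne'
    have hpi : (π : ℂ) ≠ 0 := by exact_mod_cast Real.pi_ne_zero
    push_cast at hn
    field_simp at hn
    have hk' : k = P * n := by exact_mod_cast hn
    rw [hk', abs_mul, Nat.abs_cast] at hkP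
    have hn0 : n ≠ 0 := by rintro rfl; simp at hk'; exact hk hk'
    have : (1 : ℤ) ≤ |n| := Int.one_le_abs hn0
    have hP2 : (0 : ℤ) < P := by exact_mod_cast hP
    nlinarith
  have : (fourier k ((2 * π / P : ℝ) : Ci) - 1) * fourierCoeff b k = 0 := by
    linear_combination -h1
  exact (mul_eq_zero.1 this).resolve_left (sub_ne_zero.2 h2)

lemma nsmul_shift {P : ℕ} (hP : 0 < P) (y : Ci) :
    P • (y + ((2 * π / P : ℝ) : Ci)) = P • y := by
  rw [smul_add, ← QuotientAddGroup.mk_nsmul, nsmul_eq_mul, mul_div_cancel₀ _ (by positivity)]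
  simp

/-- Integration by parts for Fourier coefficients on `[0, 2π]`. -/
lemma co_deriv {g g' : ℝ → ℂ} (hg : ∀ x, HasDerivAt g (g' x) x) (hc : Continuous g')
    (hp : g (2 * π) = g 0) (k : ℤ) :
    ∫ x in (0 : ℝ)..(2 * π), fourier (-k) (x : Ci) * g' x =
      I * k * ∫ x in (0 : ℝ)..(2 * π), fourier (-k) (x : Ci) * g x := by
  have hf : ∀ x : ℝ, HasDerivAt (fun y : ℝ => fourier (-k) (y : Ci))
      (-(I * k) * fourier (-k) (x : Ci)) x := by
    intro x
    convert hasDerivAt_fourier_neg (2 * π) k x using 1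
    have : (π : ℂ) ≠ 0 := by exact_mod_cast Real.pi_ne_zero
    push_cast; field_simp
  have hcf : Continuous fun y : ℝ => fourier (-k) (y : Ci) :=
    (map_continuous (fourier (-k))).comp (AddCircle.continuous_mk' _)
  rw [intervalIntegral.integral_mul_deriv_eq_deriv_mul (fun x _ => hf x) (fun x _ => hg x)
    ((continuous_const.mul hcf).intervalIntegrable _ _) (hc.intervalIntegrable _ _)]
  have h0 : ((2 * π : ℝ) : Ci) = ((0 : ℝ) : Ci) := by simp
  rw [h0, hp, sub_self, zero_sub, ← intervalIntegral.integral_neg,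
    ← intervalIntegral.integral_const_mul]
  congr 1; ext x; ring

/-- Decay of the Fourier coefficients of a `C²` function. -/
lemma coeff_decay {f : Ci → ℂ} (hf : ContDiff ℝ 2 fun x : ℝ => f (x : Ci)) :
    ∃ C, ∀ k : ℤ, (k : ℝ) ^ 2 * ‖fourierCoeff f k‖ ≤ C := by
  set g : ℝ → ℂ := fun x => f (x : Ci)
  have hper : Function.Periodic g (2 * π) := fun x => by simp [g]
  have hd1 : ∀ x, HasDerivAt g (deriv g x) x := fun x =>
    (hf.differentiable (by norm_num) x).hasDerivAt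
  have hf1 : ContDiff ℝ 1 (deriv g) := hf.deriv'
  have hd2 : ∀ x, HasDerivAt (deriv g) (deriv (deriv g) x) x := fun x =>
    (hf1.differentiable (by norm_num) x).hasDerivAt
  have hc2 : Continuous (deriv (deriv g)) := hf1.continuous_deriv le_rfl
  have hp1 : deriv g (2 * π) = deriv g 0 := by
    have : (fun x => g (x + 2 * π)) = g := funext hper
    have h := deriv_comp_add_const g (2 * π) 0
    rw [this, zero_add] at h; exact h.symm
  obtain ⟨C, hC⟩ := (isCompact_uIcc (a := (0 : ℝ)) (b := 2 * π)).exists_bound_of_continuousOn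
    hc2.continuousOn
  refine ⟨C, fun k => ?_⟩
  have e1 := co_deriv hd1 hf1.continuous (by simpa using hper 0) k
  have e2 := co_deriv hd2 hc2 hp1 k
  rw [e1] at e2
  have hb : ‖∫ x in (0 : ℝ)..(2 * π), fourier (-k) (x : Ci) * deriv (deriv g) x‖ ≤
      C * |2 * π - 0| := by
    apply intervalIntegral.norm_integral_le_of_norm_le_const
    intro x hx
    rw [norm_mul, norm_fourier, one_mul]
    exact hC x (Set.uIoc_subset_uIcc hx)
  rw [e2, sub_zero, abs_of_pos Real.two_pi_pos] at hb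
  rw [fourierCoeff_eq_intervalIntegral f k 0, zero_add, norm_smul]
  simp only [norm_mul, norm_I, one_mul, Complex.norm_intCast] at hb
  simp only [smul_eq_mul, Real.norm_eq_abs]
  rw [abs_of_pos (by positivity : (0 : ℝ) < 1 / (2 * π))]
  have hpi := Real.two_pi_pos
  rw [← sq_abs (k : ℝ)]
  calc _ = (|(k : ℝ)| * (|(k : ℝ)| * ‖∫ x in (0 : ℝ)..(2 * π), fourier (-k) (x : Ci) * g x‖)) /
        (2 * π) := by ring
    _ ≤ C * (2 * π) / (2 * π) := by gcongr
    _ = C := by field_simp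

/-- The symbol of `|D|^α`. -/
def sym (α : ℝ) (k : ℤ) : ℝ := if k = 0 then 0 else |(k : ℝ)| ^ α

lemma sym_nonneg (α : ℝ) (k : ℤ) : 0 ≤ sym α k := by
  unfold sym; split_ifs <;> positivity

lemma summable_sym {α : ℝ} (hα : α ≤ 1 / 2) {f : Ci → ℂ}
    (hf : ContDiff ℝ 2 fun x : ℝ => f (x : Ci)) :
    Summable fun k => sym α k * ‖fourierCoeff f k‖ := by
  obtain ⟨C, hC⟩ := coeff_decay hf
  have hs : Summable fun k : ℤ => C * |(k : ℝ)| ^ (-(3 / 2 : ℝ)) :=
    (Real.summable_abs_int_rpow (by norm_num)).mul_left C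
  refine Summable.of_nonneg_of_le (fun k => mul_nonneg (sym_nonneg _ _) (norm_nonneg _))
    (fun k => ?_) hs
  have hC0 : 0 ≤ C := le_trans (by positivity) (hC 0)
  unfold sym
  split_ifs with hk
  · rw [zero_mul]; positivity
  · have h1 : (1 : ℝ) ≤ |(k : ℝ)| := by exact_mod_cast Int.one_le_abs hk
    have h0 : (0 : ℝ) < |(k : ℝ)| := by linarith
    have h2 : |(k : ℝ)| ^ α ≤ |(k : ℝ)| ^ (-(3 / 2 : ℝ)) * (k : ℝ) ^ 2 := by
      rw [← sq_abs (k : ℝ), ← Real.rpow_natCast, ← Real.rpow_add h0]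
      exact Real.rpow_le_rpow_of_exponent_le h1 (by norm_num; linarith)
    calc _ ≤ |(k : ℝ)| ^ (-(3 / 2 : ℝ)) * (k : ℝ) ^ 2 * ‖fourierCoeff f k‖ := by gcongr
      _ = |(k : ℝ)| ^ (-(3 / 2 : ℝ)) * ((k : ℝ) ^ 2 * ‖fourierCoeff f k‖) := by ring
      _ ≤ |(k : ℝ)| ^ (-(3 / 2 : ℝ)) * C := by gcongr; exact hC k
      _ = _ := by ring

lemma fracD_eq (α : ℝ) (f : Ci → ℂ) (x : Ci) :
    fracD α f x = ∑' k : ℤ, (sym α k : ℂ) * fourierCoeff f k * fourier k x := rfl

/-! ### The weighted `ℓ²` picture -/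

/-- weight `(1+|k|)^{α/2}` -/
def wt (α : ℝ) (k : ℤ) : ℝ := (1 + |(k : ℝ)|) ^ (α / 2)

lemma wt_pos (α : ℝ) (k : ℤ) : 0 < wt α k := by unfold wt; positivity

lemma wt_sq (α : ℝ) (k : ℤ) : wt α k ^ 2 = (1 + |(k : ℝ)|) ^ α := by
  unfold wt
  rw [← Real.rpow_natCast, ← Real.rpow_mul (by positivity)]; norm_num

lemma wt_le_one {α : ℝ} (hα : α ≤ 0) (k : ℤ) : wt α k ≤ 1 :=
  Real.rpow_le_one_of_one_le_of_nonpos (by linarith [abs_nonneg (k : ℝ)]) (by linarith)

lemma one_le_wt {α : ℝ} (hα : 0 ≤ α) (k : ℤ) : 1 ≤ wt α k :=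
  Real.one_le_rpow (by linarith [abs_nonneg (k : ℝ)]) (by linarith)

/-- coefficients of the element of `H^{α/2}` encoded by `a ∈ ℓ²` -/
def ofL2 (α : ℝ) (a : L2) : ℤ → ℂ := fun k => a k / wt α k

lemma ofL2_sub (α : ℝ) (a b : L2) : ofL2 α (a - b) = ofL2 α a - ofL2 α b := by
  ext k; simp [ofL2, sub_div]

lemma ofL2_add (α : ℝ) (a b : L2) : ofL2 α (a + b) = ofL2 α a + ofL2 α b := by
  ext k; simp [ofL2, add_div]

lemma l2_hasSum (a : L2) : HasSum (fun k => ‖a k‖ ^ 2) (‖a‖ ^ 2) := by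
  have := lp.hasSum_norm (p := 2) (by norm_num) a
  simpa using this

lemma hs_of_hasSum {α : ℝ} {c : ℤ → ℂ} {S : ℝ}
    (h : HasSum (fun k : ℤ => (1 + |(k : ℝ)|) ^ α * ‖c k‖ ^ 2) S) :
    hsNormSq α c = ENNReal.ofReal S := by
  unfold hsNormSq
  rw [← h.tsum_eq, ENNReal.ofReal_tsum_of_nonneg (fun k => by positivity) h.summable]

lemma hs_ofL2 (α : ℝ) (a : L2) : hsNormSq α (ofL2 α a) = ENNReal.ofReal (‖a‖ ^ 2) := by
  apply hs_of_hasSum
  convert l2_hasSum a using 2 with k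
  have := wt_pos α k
  rw [ofL2, norm_div, Complex.norm_real, Real.norm_eq_abs, abs_of_pos this, div_pow, ← wt_sq]
  field_simp

lemma summable_of_hs {α : ℝ} {c : ℤ → ℂ} (h : hsNormSq α c < ⊤) :
    Summable fun k : ℤ => (1 + |(k : ℝ)|) ^ α * ‖c k‖ ^ 2 := by
  have := ENNReal.summable_toReal h.ne
  refine this.congr fun k => ?_
  rw [ENNReal.toReal_ofReal (by positivity)]

lemma tsum_le_of_hs {α : ℝ} {c : ℤ → ℂ} {M : ℝ} (hM : 0 ≤ M)
    (h : hsNormSq α c ≤ ENNReal.ofReal M) :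
    ∑' k : ℤ, (1 + |(k : ℝ)|) ^ α * ‖c k‖ ^ 2 ≤ M := by
  have hs := summable_of_hs (h.trans_lt ENNReal.ofReal_lt_top)
  rw [hs_of_hasSum hs.hasSum] at h
  exact (ENNReal.ofReal_le_ofReal_iff hM).1 h

lemma memL2_of_summable {c : ℤ → ℂ} (h : Summable fun k => ‖c k‖ ^ 2) : Memℓp c 2 := by
  apply memℓp_gen
  simpa using h

lemma exists_ofL2 {α : ℝ} {c : ℤ → ℂ} (h : hsNormSq α c < ⊤) : ∃ a : L2, ofL2 α a = c := by
  refine ⟨⟨fun k => wt α k * c k, memL2_of_summable ?_⟩, ?_⟩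
  · refine (summable_of_hs h).congr fun k => ?_
    rw [norm_mul, mul_pow, Complex.norm_real, Real.norm_eq_abs, sq_abs, wt_sq]
  · ext k
    have : (wt α k : ℂ) ≠ 0 := by exact_mod_cast (wt_pos α k).ne'
    simp only [ofL2]; field_simp

lemma hs_add_le (α : ℝ) (a b : ℤ → ℂ) :
    hsNormSq α (a + b) ≤ 2 * hsNormSq α a + 2 * hsNormSq α b := by
  unfold hsNormSq
  rw [← ENNReal.tsum_mul_left, ← ENNReal.tsum_mul_left, ← ENNReal.tsum_add]
  refine ENNReal.tsum_le_tsum fun k => ?_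
  have h2 : (2 : ENNReal) = ENNReal.ofReal 2 := by simp
  rw [h2, ← ENNReal.ofReal_mul (by norm_num), ← ENNReal.ofReal_mul (by norm_num),
    ← ENNReal.ofReal_add (by positivity) (by positivity)]
  apply ENNReal.ofReal_le_ofReal
  have h1 : ‖(a + b) k‖ ≤ ‖a k‖ + ‖b k‖ := norm_add_le _ _
  have h3 : ‖(a + b) k‖ ^ 2 ≤ 2 * ‖a k‖ ^ 2 + 2 * ‖b k‖ ^ 2 := by
    have := norm_nonneg ((a + b) k)
    nlinarith [sq_nonneg (‖a k‖ - ‖b k‖)]
  have h4 : (0 : ℝ) ≤ (1 + |(k : ℝ)|) ^ α := by positivity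
  nlinarith

end

end Pool.Agent.Lib.MMT
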