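import Pool.Agent.Lib.MMT.Drift

/-! Concentrated bubbles: no bounded family of smooth solutions can start near them. -/

namespace Pool.Agent.Lib.MMT

open Filter Topology MeasureTheory AddCircle Complex Set
open scoped Real ComplexConjugate

noncomputable section

/-- tent of height one and half-width `r` -/
def tent (r : ℝ) (x : Ci) : ℝ := max 0 (1 - ‖x‖ / r)

lemma continuous_tent (r : ℝ) : Continuous (tent r) := by unfold tent; fun_prop

lemma tent_nonneg (r : ℝ) (x : Ci) : 0 ≤ tent r x := le_max_left _ _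

lemma tent_le_one {r : ℝ} (hr : 0 < r) (x : Ci) : tent r x ≤ 1 :=
  max_le zero_le_one (by have : 0 ≤ ‖x‖ / r := by positivity
                         linarith)

lemma tent_eq_zero {r : ℝ} (hr : 0 < r) {x : Ci} (h : r ≤ ‖x‖) : tent r x = 0 :=
  max_eq_left (by rw [sub_nonpos, le_div_iff₀ hr]; linarith)

lemma norm_coe_le (h : ℝ) : ‖(h : Ci)‖ ≤ |h| := QuotientAddGroup.norm_mk_le_norm

lemma tent_lip {r : ℝ} (hr : 0 < r) (x : Ci) {h : ℝ} (hh : 0 ≤ h) :
    |tent r (x + (h : Ci)) - tent r x| ≤ r⁻¹ * h := by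
  unfold tent
  rw [max_comm 0, max_comm 0]
  refine (abs_max_sub_max_le_abs _ _ _).trans ?_
  have e : 1 - ‖x + (h : Ci)‖ / r - (1 - ‖x‖ / r) = r⁻¹ * (‖x‖ - ‖x + (h : Ci)‖) := by
    field_simp; ring
  rw [e, abs_mul, abs_of_pos (inv_pos.2 hr)]
  gcongr
  refine (abs_norm_sub_norm_le _ _).trans ?_
  rw [sub_add_cancel_left, norm_neg]
  exact (norm_coe_le h).trans (abs_of_nonneg hh).le

lemma tent_diff {r : ℝ} (hr : 0 < r) (x y : Ci) : |tent r x - tent r y| ≤ 1 := by
  rw [abs_le]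
  constructor <;> linarith [tent_nonneg r x, tent_nonneg r y, tent_le_one hr x, tent_le_one hr y]

lemma sq_sqrt_sub {a b : ℝ} (ha : 0 ≤ a) (hb : 0 ≤ b) : (√a - √b) ^ 2 ≤ |a - b| := by
  have h1 := Real.sq_sqrt ha
  have h2 := Real.sq_sqrt hb
  have h3 := Real.sqrt_nonneg a
  have h4 := Real.sqrt_nonneg b
  rcases le_total √a √b with h | h
  · have : b - a ≤ |a - b| := by rw [abs_sub_comm]; exact le_abs_self _
    nlinarith
  · have : a - b ≤ |a - b| := le_abs_self _
    nlinarith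

/-- the bubble `A √tent` -/
def bub (A l : ℝ) : X :=
  ⟨fun x => ((A * √(tent l x) : ℝ) : ℂ), by have := continuous_tent l; fun_prop⟩

lemma bub_apply (A l : ℝ) (x : Ci) : bub A l x = ((A * √(tent l x) : ℝ) : ℂ) := rfl

lemma DD_bub {A l : ℝ} (hl : 0 < l) {h : ℝ} (hh : 0 < h) :
    DD h (bub A l) ≤ A ^ 2 * l * min 1 (l⁻¹ * h) := by
  have := int_le_two_balls (F := fun x => ‖bub A l (x + (h : Ci)) - bub A l x‖ ^ 2) (by fun_prop)
    (Γ := A ^ 2 * min 1 (l⁻¹ * h)) (by positivity) hl.le 0 (-(h : Ci)) (fun x => by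
      rw [bub_apply, bub_apply, ← ofReal_sub, Complex.norm_real, Real.norm_eq_abs, sq_abs,
        ← mul_sub, mul_pow]
      gcongr
      exact (sq_sqrt_sub (tent_nonneg _ _) (tent_nonneg _ _)).trans
        (le_min (tent_diff hl _ _) (tent_lip hl x hh.le))) (fun x h1 h2 => by
      rw [sub_zero] at h1
      rw [sub_neg_eq_add] at h2
      simp [bub_apply, tent_eq_zero hl h1.le, tent_eq_zero hl h2.le])
  unfold DD
  linarith

lemma hs_bub {α C : ℝ} (hα : 0 ≤ α) (hα1 : α ≤ 1)
    (hC : ∀ y : ℝ, 1 ≤ y → ∀ N : ℕ,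
      ∑ j ∈ Finset.range N, ((2 : ℝ) ^ α) ^ j * min 1 (y * (1 / 2 ^ j)) ≤ C * y ^ α)
    {A l c : ℝ} (hl : 0 < l) (hl1 : l ≤ 1) (hA : A ^ 2 * l = c ^ 2 * l ^ α) :
    hsNormSq α (fourierCoeff (bub A l)) ≤ ENNReal.ofReal ((1 + 6 * C) * c ^ 2) := by
  have h1 := SB_of_QB hα1 hα (QB_of_min hC (g := bub A l) (Γ := A ^ 2 * l) (y := l⁻¹)
    (by positivity) (one_le_inv₀ hl |>.2 hl1) fun h hh => DD_bub hl hh)
  refine (hs_le_of_SB hα hα1 h1).trans (ENNReal.ofReal_le_ofReal ?_)
  have h2 : ‖fourierCoeff (bub A l) 0‖ ^ 2 ≤ A ^ 2 * l := by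
    refine (le_hasSum (parseval (bub A l)) 0 fun k _ => by positivity).trans ?_
    refine int_le_two_balls (by fun_prop) (by positivity) hl.le 0 0 (fun x => ?_) fun x h1 _ => ?_
    · rw [bub_apply, Complex.norm_real, Real.norm_eq_abs, sq_abs, mul_pow,
        Real.sq_sqrt (tent_nonneg _ _)]
      exact mul_le_of_le_one_right (sq_nonneg A) (tent_le_one hl x)
    · rw [sub_zero] at h1
      simp [bub_apply, tent_eq_zero hl h1.le]
  have h3 : l ^ α ≤ 1 := Real.rpow_le_one hl.le hl1 hα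
  have h4 : l ^ α * l⁻¹ ^ α = 1 := by
    rw [← Real.mul_rpow hl.le (by positivity), mul_inv_cancel₀ hl.ne', Real.one_rpow]
  rw [hA] at h2 ⊢
  have e : 2 * (3 * (c ^ 2 * l ^ α * (C * l⁻¹ ^ α))) = 6 * C * c ^ 2 * (l ^ α * l⁻¹ ^ α) := by ring
  rw [e, h4]
  nlinarith [sq_nonneg c]

/-- the cut-off -/
def eta (l : ℝ) (x : Ci) : ℝ := tent (l / 4) (x - ((l / 2 : ℝ) : Ci))

lemma continuous_eta (l : ℝ) : Continuous (eta l) :=
  (continuous_tent _).comp (by fun_prop)

lemma eta_nonneg (l : ℝ) (x : Ci) : 0 ≤ eta l x := tent_nonneg _ _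

lemma eta_le_one {l : ℝ} (hl : 0 < l) (x : Ci) : eta l x ≤ 1 := tent_le_one (by positivity) _

lemma eta_lip {l : ℝ} (hl : 0 < l) (x : Ci) {h : ℝ} (hh : 0 ≤ h) :
    |eta l (x + (h : Ci)) - eta l x| ≤ 4 * (l⁻¹ * h) := by
  unfold eta
  rw [add_sub_right_comm]
  refine (tent_lip (by positivity) _ hh).trans (le_of_eq ?_)
  field_simp

lemma eta_eq_zero {l : ℝ} (hl : 0 < l) {x : Ci} (h : l < ‖x - ((l / 2 : ℝ) : Ci)‖) :
    eta l x = 0 := tent_eq_zero (by positivity) (by linarith)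

lemma int_eta_le {l : ℝ} (hl : 0 < l) {F : Ci → ℝ} (hF : Continuous F) {Γ : ℝ} (hΓ : 0 ≤ Γ)
    (h : Ci) (h1 : ∀ x, F x ≤ Γ) (h2 : ∀ x, eta l x = 0 → eta l (x + h) = 0 → F x ≤ 0) :
    ∫ x, F x ∂mu ≤ Γ * l :=
  int_le_two_balls hF hΓ hl.le ((l / 2 : ℝ) : Ci) (((l / 2 : ℝ) : Ci) - h) h1 fun x a b =>
    h2 x (eta_eq_zero hl a) (eta_eq_zero hl (by
      rwa [show x + h - ((l / 2 : ℝ) : Ci) = x - (((l / 2 : ℝ) : Ci) - h) by abel]))

/-- the oscillating test function -/
def psi (l : ℝ) (κ : ℤ) : X :=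
  ⟨fun x => fourier (-κ) x * (eta l x : ℂ), by have := continuous_eta l; fun_prop⟩

lemma psi_apply (l : ℝ) (κ : ℤ) (x : Ci) : psi l κ x = fourier (-κ) x * (eta l x : ℂ) := rfl

lemma norm_psi (l : ℝ) (κ : ℤ) (x : Ci) : ‖psi l κ x‖ = eta l x := by
  rw [psi_apply, norm_mul, norm_fourier, one_mul, Complex.norm_real, Real.norm_eq_abs,
    abs_of_nonneg (eta_nonneg l x)]

lemma DD_psi {l Λ : ℝ} (hl : 0 < l) {κ : ℤ} (hκ : |(κ : ℝ)| ≤ Λ * l⁻¹) {h : ℝ} (hh : 0 < h) :
    DD h (psi l κ) ≤ (4 + (Λ + 4) ^ 2) * l * min 1 (l⁻¹ * h) := by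
  have := int_eta_le hl (F := fun x => ‖psi l κ (x + (h : Ci)) - psi l κ x‖ ^ 2) (by fun_prop)
    (Γ := (4 + (Λ + 4) ^ 2) * min 1 (l⁻¹ * h)) (by positivity) (h : Ci) (fun x => by
      have h1 : ‖psi l κ (x + (h : Ci)) - psi l κ x‖ ≤ 2 := by
        refine (norm_sub_le _ _).trans ?_
        rw [norm_psi, norm_psi]
        linarith [eta_le_one hl x, eta_le_one hl (x + h)]
      have h2 : ‖psi l κ (x + (h : Ci)) - psi l κ x‖ ≤ (Λ + 4) * (l⁻¹ * h) := by
        have e : psi l κ (x + (h : Ci)) - psi l κ x = fourier (-κ) x *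
            ((fourier (-κ) (h : Ci) - 1) * (eta l (x + h) : ℂ) +
              ((eta l (x + h) - eta l x : ℝ) : ℂ)) := by
          rw [psi_apply, psi_apply, fourier_add_right]; push_cast; ring
        rw [e, norm_mul, norm_fourier, one_mul]
        refine (norm_add_le _ _).trans ?_
        rw [norm_mul, Complex.norm_real, Complex.norm_real, Real.norm_eq_abs, Real.norm_eq_abs,
          abs_of_nonneg (eta_nonneg _ _)]
        have h3 : ‖fourier (-κ) (h : Ci) - 1‖ ≤ Λ * l⁻¹ * h := by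
          rw [fourier_coe]
          have : ((-κ : ℤ) : ℂ) * (h : ℂ) = ((-κ * h : ℝ) : ℂ) := by push_cast; ring
          rw [this]
          refine Real.norm_exp_I_mul_ofReal_sub_one_le.trans ?_
          rw [Real.norm_eq_abs, abs_mul, abs_of_nonneg hh.le, abs_neg]
          gcongr
        have h4 := mul_le_of_le_one_right (norm_nonneg (fourier (-κ) (h : Ci) - 1))
          (eta_le_one hl (x + h))
        have h5 := eta_lip hl x hh.le
        linarith
      have h0 := norm_nonneg (psi l κ (x + (h : Ci)) - psi l κ x)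
      have hz : 0 ≤ l⁻¹ * h := by positivity
      rcases le_total 1 (l⁻¹ * h) with h3 | h3
      · rw [min_eq_left h3]; nlinarith [sq_nonneg (Λ + 4)]
      · rw [min_eq_right h3]
        calc _ ≤ ((Λ + 4) * (l⁻¹ * h)) ^ 2 := by gcongr
          _ = (Λ + 4) ^ 2 * ((l⁻¹ * h) * (l⁻¹ * h)) := by ring
          _ ≤ (Λ + 4) ^ 2 * (l⁻¹ * h) :=
              mul_le_mul_of_nonneg_left (by nlinarith) (sq_nonneg _)
          _ ≤ _ := by gcongr; linarith) (fun x h1 h2 => by simp [psi_apply, h1, h2])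
  unfold DD
  linarith

lemma exists_coe_norm (e : Ci) : ∃ y : ℝ, (y : Ci) = e ∧ ‖e‖ = |y| := by
  obtain ⟨y, -, rfl⟩ := exists_coe e
  refine ⟨y - round ((2 * π)⁻¹ * y) * (2 * π), ?_, AddCircle.norm_eq _⟩
  rw [QuotientAddGroup.mk_sub, sub_eq_self, AddCircle.coe_eq_zero_iff]
  exact ⟨round ((2 * π)⁻¹ * y), by simp⟩

/-- On the exact bubble the phases cancel. -/
lemma J0_lower {l : ℝ} (hl : 0 < l) (hl1 : l ≤ 1) (n : ℕ) {κ : ℤ} (hκ : κ * l = 2 * π * n) :
    l / 384 ≤ ‖∫ x, GH (2 * π * n) (√(tent l x) : ℝ) * psi l κ x ∂mu‖ := by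
  have hpt : ∀ x, GH (2 * π * n) (√(tent l x) : ℝ) * psi l κ x =
      ((√(tent l x) * Real.exp (-tent l x) * eta l x : ℝ) : ℂ) ∧
      eta l x / 6 ≤ √(tent l x) * Real.exp (-tent l x) * eta l x := by
    intro x
    by_cases h0 : eta l x = 0
    · simp [psi_apply, h0]
    have h1 : ‖x - ((l / 2 : ℝ) : Ci)‖ < l / 4 := by
      by_contra h; exact h0 (tent_eq_zero (by positivity) (not_lt.1 h))
    obtain ⟨y, hy, hy'⟩ := exists_coe_norm (x - ((l / 2 : ℝ) : Ci))
    rw [hy', abs_lt] at h1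
    have hx : x = ((l / 2 + y : ℝ) : Ci) := by
      rw [QuotientAddGroup.mk_add, hy]; abel
    have hn : ‖x‖ = l / 2 + y := by
      rw [hx, (AddCircle.norm_coe_eq_abs_iff _ Real.two_pi_pos.ne').2, abs_of_pos (by linarith)]
      rw [abs_of_pos (by linarith), abs_of_pos Real.two_pi_pos]
      linarith [Real.pi_gt_three]
    have hq : (l / 2 + y) / l ≤ 3 / 4 := by rw [div_le_iff₀ hl]; linarith
    have ht : tent l x = 1 - (l / 2 + y) / l := by
      rw [tent, hn, max_eq_right (by linarith)]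
    constructor
    · rw [GH, GE_eq, psi_apply, Complex.norm_real, Real.norm_eq_abs, sq_abs,
        Real.sq_sqrt (tent_nonneg _ _)]
      have e : Complex.exp (I * ((-(2 * π * n * tent l x) : ℝ) : ℂ)) * fourier (-κ) x = 1 := by
        rw [ht, hx, fourier_coe, ← Complex.exp_add, Complex.exp_eq_one_iff]
        refine ⟨-n, ?_⟩
        have hl' : (l : ℂ) ≠ 0 := by exact_mod_cast hl.ne'
        have hκ' : (κ : ℂ) = 2 * π * n / l := by
          rw [eq_div_iff hl']; exact_mod_cast hκ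
        push_cast
        rw [hκ']; field_simp; ring
      push_cast at e ⊢
      linear_combination (√(tent l x) * Complex.exp (-(tent l x : ℂ)) * (eta l x : ℂ) : ℂ) * e
    · have h2 : 1 / 2 ≤ √(tent l x) := by
        apply Real.le_sqrt_of_sq_le; rw [ht]; linarith
      have h3 : 1 / 3 ≤ Real.exp (-tent l x) := by
        have h4 : Real.exp (-1) ≤ Real.exp (-tent l x) :=
          Real.exp_le_exp.2 (by linarith [tent_le_one hl x])
        linarith [Real.exp_neg_one_gt_d9]
      have h5 := eta_nonneg l x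
      calc eta l x / 6 = 1 / 2 * (1 / 3) * eta l x := by ring
        _ ≤ _ := by gcongr
  simp only [fun x => (hpt x).1]
  rw [integral_complex_ofReal, Complex.norm_real]
  refine le_trans ?_ (le_abs_self _)
  have c1 := continuous_tent l
  have c2 := continuous_eta l
  calc l / 384 = (l / 8 / 4) * (1 / 12) := by ring
    _ ≤ mu.real (Metric.closedBall ((l / 2 : ℝ) : Ci) (l / 8)) * (1 / 12) := by
        gcongr; exact mu_ball_ge _ (by positivity) (by linarith)
    _ = ∫ x, (Metric.closedBall ((l / 2 : ℝ) : Ci) (l / 8)).indicator (fun _ => (1 / 12 : ℝ)) x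
          ∂mu := by rw [integral_indicator_const _ measurableSet_closedBall, smul_eq_mul]
    _ ≤ _ := by
        refine integral_mono ((integrable_const _).indicator measurableSet_closedBall)
          (integ (by fun_prop)) fun x => le_trans ?_ (hpt x).2
        by_cases hx : x ∈ Metric.closedBall ((l / 2 : ℝ) : Ci) (l / 8)
        · rw [indicator_of_mem hx]
          rw [mem_closedBall_iff_norm] at hx
          have : ‖x - ((l / 2 : ℝ) : Ci)‖ / (l / 4) ≤ 1 / 2 := by
            rw [div_le_iff₀ (by positivity)]; linarith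
          have h2 : 1 - ‖x - ((l / 2 : ℝ) : Ci)‖ / (l / 4) ≤ eta l x := le_max_right _ _
          linarith
        · rw [indicator_of_notMem hx]
          have := eta_nonneg l x
          positivity

lemma J0_pert {A l τ : ℝ} (hA : 0 < A) (hl : 0 < l) (hτ : 0 ≤ τ) (κ : ℤ) (p w : X)
    (hw : ∫ x, ‖w x - (p x + bub A l x)‖ ^ 2 ∂mu ≤ l ^ 2) :
    ‖∫ x, GH τ (w x / A) * psi l κ x ∂mu - ∫ x, GH τ (√(tent l x) : ℝ) * psi l κ x ∂mu‖ ≤
      (4 + 2 * τ) / A * (‖p‖ + 1) * l := by
  have c1 := continuous_tent l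
  have c2 := continuous_eta l
  have c3 : Continuous (GH τ) := continuous_GH.comp (continuous_const.prodMk continuous_id)
  have hA' : (A : ℂ) ≠ 0 := by exact_mod_cast hA.ne'
  rw [← integral_sub (integ (by fun_prop)) (integ (by fun_prop))]
  refine (norm_integral_le_integral_norm _).trans ?_
  have h1 : ∫ x, ‖p‖ * eta l x ∂mu ≤ ‖p‖ * l :=
    int_eta_le hl (by fun_prop) (norm_nonneg p) 0
      (fun x => mul_le_of_le_one_right (norm_nonneg p) (eta_le_one hl x))
      fun x h _ => by simp [h]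
  calc _ ≤ ∫ x, (4 + 2 * τ) / A * (‖p‖ * eta l x +
        (l / 2 + (2 * l)⁻¹ * ‖w x - (p x + bub A l x)‖ ^ 2)) ∂mu := by
        refine integral_mono (integ (by fun_prop)) (integ (by fun_prop)) fun x => ?_
        simp only
        rw [← sub_mul, norm_mul, norm_psi]
        have h2 := lip_GH (τ := τ) (τ0 := τ) (abs_of_nonneg hτ).le (w x / A) (√(tent l x) : ℝ)
        have e : w x / A - (√(tent l x) : ℝ) = (p x + (w x - (p x + bub A l x))) / A := by
          rw [bub_apply]; push_cast; field_simp; ring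
        rw [e, norm_div, Complex.norm_real, Real.norm_eq_abs, abs_of_pos hA] at h2
        set d := ‖w x - (p x + bub A l x)‖
        have h3 : ‖p x + (w x - (p x + bub A l x))‖ ≤ ‖p‖ + d :=
          (norm_add_le _ _).trans (by gcongr; exact p.norm_coe_le_norm x)
        have h4 : d ≤ l / 2 + (2 * l)⁻¹ * d ^ 2 := by
          have : l / 2 + (2 * l)⁻¹ * d ^ 2 - d = (2 * l)⁻¹ * (d - l) ^ 2 := by field_simp; ring
          have : 0 ≤ (2 * l)⁻¹ * (d - l) ^ 2 := by positivity
          linarith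
        have h5 := eta_nonneg l x
        have h6 := eta_le_one hl x
        have h7 : 0 ≤ d := norm_nonneg _
        calc _ ≤ (4 + 2 * τ) * ((‖p‖ + d) / A) * eta l x := by
              gcongr; exact h2.trans (by gcongr)
          _ = (4 + 2 * τ) / A * (‖p‖ * eta l x + d * eta l x) := by ring
          _ ≤ _ := by gcongr; nlinarith
    _ = (4 + 2 * τ) / A * (∫ x, ‖p‖ * eta l x ∂mu +
        (l / 2 + (2 * l)⁻¹ * ∫ x, ‖w x - (p x + bub A l x)‖ ^ 2 ∂mu)) := by
        rw [integral_const_mul, integral_add (integ (by fun_prop)) (integ (by fun_prop)),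
          integral_add (integ (by fun_prop)) (integ (by fun_prop)), integral_const_mul,
          integral_const_mul]
        simp
    _ ≤ (4 + 2 * τ) / A * (‖p‖ * l + (l / 2 + (2 * l)⁻¹ * l ^ 2)) := by gcongr
    _ = _ := by field_simp; ring

lemma J1_upper {A l ε δ : ℝ} (hA : 0 < A) (hl : 0 < l) (hε : 0 < ε) (hδ : 0 < δ) {κ : ℤ}
    (hκ : κ * δ = π) (u : X) :
    ‖∫ x, GH 0 (u x / A) * psi l κ x ∂mu‖ ≤ DD δ u / (ε * A ^ 2) + ε * l + 2 * δ := by
  have c2 := continuous_eta l
  have c3 : Continuous (GH 0) := continuous_GH.comp (continuous_const.prodMk continuous_id)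
  set g : Ci → ℂ := fun x => GH 0 (u x / A) with hg
  have cg : Continuous g := by fun_prop
  have hf : fourier (-κ) (δ : Ci) = -1 := by
    rw [fourier_coe]
    have : (κ : ℂ) * δ = π := by exact_mod_cast hκ
    rw [show I * (((-κ : ℤ) : ℂ) * δ) = -(π * I) by push_cast; linear_combination (-I) * this,
      Complex.exp_neg, Complex.exp_pi_mul_I]; norm_num
  have e1 : ∫ x, g x * psi l κ x ∂mu = ∫ x, g (x + δ) * psi l κ (x + δ) ∂mu :=
    (integral_add_right_eq_self (fun x => g x * psi l κ x) (δ : Ci)).symm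
  have e2 : 2 * ∫ x, g x * psi l κ x ∂mu =
      ∫ x, (g x * psi l κ x + g (x + δ) * psi l κ (x + δ)) ∂mu := by
    rw [integral_add (integ (by fun_prop)) (integ (by fun_prop)), ← e1]; ring
  have h1 : ∫ x, eta l x ^ 2 ∂mu ≤ 1 * l :=
    int_eta_le hl (by fun_prop) zero_le_one 0
      (fun x => pow_le_one₀ (eta_nonneg _ _) (eta_le_one hl x)) fun x h _ => by simp [h]
  have h2 : ∫ x, |eta l (x + δ) - eta l x| ∂mu ≤ 4 * (l⁻¹ * δ) * l :=
    int_eta_le hl (by fun_prop) (by positivity) δ (fun x => eta_lip hl x hδ.le)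
      fun x h h' => by simp [h, h']
  have h3 : ‖2 * ∫ x, g x * psi l κ x ∂mu‖ ≤
      2 / (ε * A ^ 2) * DD δ u + 2 * ε * (1 * l) + 4 * (l⁻¹ * δ) * l := by
    rw [e2]
    refine (norm_integral_le_integral_norm _).trans ?_
    calc _ ≤ ∫ x, (2 / (ε * A ^ 2) * ‖u (x + δ) - u x‖ ^ 2 + 2 * ε * eta l x ^ 2 +
          |eta l (x + δ) - eta l x|) ∂mu := by
          refine integral_mono (integ (by fun_prop)) (integ (by fun_prop)) fun x => ?_
          simp only
          have e : g x * psi l κ x + g (x + δ) * psi l κ (x + δ) = fourier (-κ) x *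
              (-((g (x + δ) - g x) * (eta l x : ℂ)) -
                g (x + δ) * ((eta l (x + δ) - eta l x : ℝ) : ℂ)) := by
            rw [psi_apply, psi_apply, fourier_add_right, hf]; push_cast; ring
          rw [e, norm_mul, norm_fourier, one_mul]
          refine (norm_sub_le _ _).trans (add_le_add ?_ ?_)
          · rw [norm_neg, norm_mul, Complex.norm_real, Real.norm_eq_abs,
              abs_of_nonneg (eta_nonneg _ _)]
            have h4 := lip_GH (τ := 0) (τ0 := 0) (by simp) (u (x + δ) / A) (u x / A)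
            rw [← sub_div, norm_div, Complex.norm_real, Real.norm_eq_abs, abs_of_pos hA] at h4
            set d := ‖u (x + δ) - u x‖
            have h5 := eta_nonneg l x
            have h6 : 2 / (ε * A ^ 2) * d ^ 2 + 2 * ε * eta l x ^ 2 - 4 * (d / A) * eta l x =
                2 / ε * (d / A - ε * eta l x) ^ 2 := by field_simp; ring
            have h7 : 0 ≤ 2 / ε * (d / A - ε * eta l x) ^ 2 := by positivity
            calc _ ≤ 4 * (d / A) * eta l x := by gcongr; simpa using h4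
              _ ≤ _ := by linarith
          · rw [norm_mul, Complex.norm_real, Real.norm_eq_abs]
            exact mul_le_of_le_one_left (abs_nonneg _) (norm_GH_le _ _)
      _ ≤ _ := by
          rw [integral_add (integ (by fun_prop)) (integ (by fun_prop)),
            integral_add (integ (by fun_prop)) (integ (by fun_prop)), integral_const_mul,
            integral_const_mul]
          gcongr
          exact le_rfl
  rw [norm_mul, Complex.norm_ofNat] at h3
  have e3 : 4 * (l⁻¹ * δ) * l = 4 * δ := by field_simp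
  have e4 : 2 / (ε * A ^ 2) * DD δ u = 2 * (DD δ u / (ε * A ^ 2)) := by ring
  rw [e3, e4] at h3
  linarith

end

end Pool.Agent.Lib.MMT
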