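import Mathlib

/-! Definitions for the periodic MMT equation `i u_t = |D|^α u + |u|^2 u`. -/

namespace Pool.Agent.Lib.MMT

open Filter Topology

instance twoPiPos : Fact (0 < 2 * Real.pi) := ⟨Real.two_pi_pos⟩

/-- Squared `H^{α/2}` norm of the (distribution with) Fourier coefficients `c`. -/
noncomputable def hsNormSq (α : ℝ) (c : ℤ → ℂ) : ENNReal :=
  ∑' k : ℤ, ENNReal.ofReal ((1 + |(k : ℝ)|) ^ α * ‖c k‖ ^ 2)

/-- The Fourier multiplier `|D|^α`, with symbol `0` at `k = 0`. -/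
noncomputable def fracD (α : ℝ) (f : AddCircle (2 * Real.pi) → ℂ) (x : AddCircle (2 * Real.pi)) :
    ℂ :=
  ∑' k : ℤ, ((if k = 0 then 0 else |(k : ℝ)| ^ α : ℝ) : ℂ) * fourierCoeff f k * fourier k x

/-- `v` is a smooth solution on `[-T, T]`. -/
def IsSmoothSol (α T : ℝ) (v : ℝ → AddCircle (2 * Real.pi) → ℂ) : Prop :=
  ContDiffOn ℝ (⊤ : ℕ∞) (fun p : ℝ × ℝ => v p.1 (p.2 : AddCircle (2 * Real.pi)))
      (Set.Icc (-T) T ×ˢ Set.univ) ∧
    ∀ t ∈ Set.Icc (-T) T, ∀ x,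
      Complex.I * derivWithin (fun s => v s x) (Set.Icc (-T) T) t =
        fracD α (v t) x + (‖v t x‖ : ℂ) ^ 2 * v t x

/-- The datum with Fourier coefficients `c` has a global solution in `C(ℝ; H^{α/2})` that is, on
every `[-T, T]`, a uniform `H^{α/2}` limit of smooth solutions. -/
def HasGlobalSol (α : ℝ) (c : ℤ → ℂ) : Prop :=
  ∃ u : ℝ → ℤ → ℂ, u 0 = c ∧ (∀ t, hsNormSq α (u t) < ⊤) ∧
    (∀ t, Tendsto (fun s => hsNormSq α (u s - u t)) (𝓝 t) (𝓝 0)) ∧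
    ∀ T > 0, ∃ v : ℕ → ℝ → AddCircle (2 * Real.pi) → ℂ,
      (∀ᶠ n in atTop, IsSmoothSol α T (v n)) ∧
      Tendsto (fun n => ⨆ t ∈ Set.Icc (-T) T, hsNormSq α (fourierCoeff (v n t) - u t))
        atTop (𝓝 0)

end Pool.Agent.Lib.MMT
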