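import Mathlib

/-! The renormalising functions `z exp(-(1 + iτ)|z|²)` and their derivatives. -/

namespace Pool.Agent.Lib.MMT

open Complex
open scoped ComplexConjugate

noncomputable section

def cc (τ : ℝ) : ℂ := 1 + I * τ
def GE (τ : ℝ) (z : ℂ) : ℂ := Complex.exp (-(cc τ * (z * conj z)))
def GH (τ : ℝ) (z : ℂ) : ℂ := z * GE τ z
def G1 (τ : ℝ) (z : ℂ) : ℂ := (1 - cc τ * (z * conj z)) * GE τ z
def G2 (τ : ℝ) (z : ℂ) : ℂ := -(cc τ * (z * z)) * GE τ z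

lemma norm_cc {τ τ0 : ℝ} (h : |τ| ≤ τ0) : ‖cc τ‖ ≤ 1 + τ0 := by
  refine (norm_add_le _ _).trans ?_
  simpa using h

lemma GE_eq (τ : ℝ) (z : ℂ) :
    GE τ z = (Real.exp (-‖z‖ ^ 2) : ℂ) * Complex.exp (I * ((-(τ * ‖z‖ ^ 2) : ℝ) : ℂ)) := by
  unfold GE cc
  rw [Complex.mul_conj', Complex.ofReal_exp, ← Complex.exp_add]
  congr 1; push_cast; ring

lemma norm_GE (τ : ℝ) (z : ℂ) : ‖GE τ z‖ = Real.exp (-‖z‖ ^ 2) := by
  rw [GE_eq, norm_mul, Complex.norm_exp_I_mul_ofReal, mul_one, Complex.norm_real,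
    Real.norm_eq_abs, abs_of_pos (Real.exp_pos _)]

lemma continuous_GE : Continuous fun p : ℝ × ℂ => GE p.1 p.2 := by
  unfold GE cc; fun_prop

lemma continuous_GH : Continuous fun p : ℝ × ℂ => GH p.1 p.2 := by
  unfold GH GE cc; fun_prop

lemma continuous_G1 : Continuous fun p : ℝ × ℂ => G1 p.1 p.2 := by
  unfold G1 GE cc; fun_prop

lemma continuous_G2 : Continuous fun p : ℝ × ℂ => G2 p.1 p.2 := by
  unfold G2 GE cc; fun_prop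

lemma pow_gauss (x : ℝ) (_hx : 0 ≤ x) :
    Real.exp (-x ^ 2) ≤ 1 ∧ x * Real.exp (-x ^ 2) ≤ 1 ∧ x ^ 2 * Real.exp (-x ^ 2) ≤ 1 ∧
      x ^ 3 * Real.exp (-x ^ 2) ≤ 1 := by
  have h1 := Real.quadratic_le_exp_of_nonneg (sq_nonneg x)
  have h2 : Real.exp (-x ^ 2) * Real.exp (x ^ 2) = 1 := by rw [← Real.exp_add]; simp
  have h3 := Real.exp_pos (-x ^ 2)
  have key : ∀ y, y ≤ Real.exp (x ^ 2) → y * Real.exp (-x ^ 2) ≤ 1 := fun y hy => by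
    nlinarith
  refine ⟨by simpa using key 1 (by nlinarith), key _ (by nlinarith [sq_nonneg (x - 1)]),
    key _ (by nlinarith), key _ (by nlinarith [sq_nonneg (x - x ^ 2 / 2), sq_nonneg (x ^ 2)])⟩

lemma hasDerivAt_conj {γ : ℝ → ℂ} {γ' : ℂ} {t : ℝ} (h : HasDerivAt γ γ' t) :
    HasDerivAt (fun s => conj (γ s)) (conj γ') t := h.star

lemma hasDerivAt_GE {γ : ℝ → ℂ} {γ' : ℂ} {τ : ℝ → ℝ} {τ' t : ℝ} (h : HasDerivAt γ γ' t)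
    (hτ : HasDerivAt τ τ' t) :
    HasDerivAt (fun s => GE (τ s) (γ s))
      (GE (τ t) (γ t) * -(I * τ' * (γ t * conj (γ t)) +
        cc (τ t) * (γ' * conj (γ t) + γ t * conj γ'))) t := by
  have h1 : HasDerivAt (fun s => cc (τ s)) (I * τ') t := by
    unfold cc
    simpa using (hτ.ofReal_comp.const_mul I).const_add 1
  exact ((h1.mul (h.mul (hasDerivAt_conj h))).neg).cexp

lemma hasDerivAt_GH {γ : ℝ → ℂ} {γ' : ℂ} {τ : ℝ → ℝ} {τ' t : ℝ} (h : HasDerivAt γ γ' t)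
    (hτ : HasDerivAt τ τ' t) :
    HasDerivAt (fun s => GH (τ s) (γ s))
      (G1 (τ t) (γ t) * γ' + G2 (τ t) (γ t) * conj γ' -
        I * τ' * (γ t * conj (γ t)) * GH (τ t) (γ t)) t := by
  refine (h.mul (hasDerivAt_GE h hτ)).congr_deriv ?_
  unfold G1 G2 GH; ring

lemma lip_of_curve {F : ℂ → ℂ} {L : ℝ}
    (h : ∀ (γ : ℝ → ℂ) (w : ℂ) (t : ℝ), HasDerivAt γ w t →
      ∃ d, HasDerivAt (fun s => F (γ s)) d t ∧ ‖d‖ ≤ L * ‖w‖) (z w : ℂ) :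
    ‖F z - F w‖ ≤ L * ‖z - w‖ := by
  have hγ : ∀ t : ℝ, HasDerivAt (fun s : ℝ => w + (s : ℂ) * (z - w)) (z - w) t := fun t => by
    simpa using ((hasDerivAt_id t).ofReal_comp.mul_const (z - w)).const_add w
  choose d hd using fun t => h _ _ t (hγ t)
  have := norm_image_sub_le_of_norm_deriv_le_segment_01'
    (f := fun s : ℝ => F (w + (s : ℂ) * (z - w))) (f' := d)
    (fun t _ => (hd t).1.hasDerivWithinAt) (fun t _ => (hd t).2)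
  simpa using this

lemma norm_GH_le (τ : ℝ) (z : ℂ) : ‖GH τ z‖ ≤ 1 := by
  rw [GH, norm_mul, norm_GE]; exact (pow_gauss _ (norm_nonneg z)).2.1

lemma norm_G1_le {τ τ0 : ℝ} (h : |τ| ≤ τ0) (z : ℂ) : ‖G1 τ z‖ ≤ 2 + τ0 := by
  obtain ⟨p0, -, p2, -⟩ := pow_gauss _ (norm_nonneg z)
  have hc := norm_cc h
  have h0 : 0 ≤ τ0 := (abs_nonneg _).trans h
  rw [G1, norm_mul, norm_GE]
  have : ‖1 - cc τ * (z * conj z)‖ ≤ 1 + (1 + τ0) * ‖z‖ ^ 2 := by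
    refine (norm_sub_le _ _).trans ?_
    rw [norm_one, norm_mul, norm_mul, Complex.norm_conj, ← sq]; gcongr
  have he := Real.exp_pos (-‖z‖ ^ 2)
  calc _ ≤ (1 + (1 + τ0) * ‖z‖ ^ 2) * Real.exp (-‖z‖ ^ 2) := by gcongr
    _ = Real.exp (-‖z‖ ^ 2) + (1 + τ0) * (‖z‖ ^ 2 * Real.exp (-‖z‖ ^ 2)) := by ring
    _ ≤ 1 + (1 + τ0) * 1 := by gcongr
    _ = _ := by ring

lemma norm_G2_le {τ τ0 : ℝ} (h : |τ| ≤ τ0) (z : ℂ) : ‖G2 τ z‖ ≤ 2 + τ0 := by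
  obtain ⟨-, -, p2, -⟩ := pow_gauss _ (norm_nonneg z)
  have hc := norm_cc h
  have h0 : 0 ≤ τ0 := (abs_nonneg _).trans h
  rw [G2, norm_mul, norm_GE, norm_neg, norm_mul, norm_mul, ← sq, mul_assoc]
  calc _ ≤ (1 + τ0) * 1 := by gcongr
    _ ≤ _ := by linarith

lemma lip_GH {τ τ0 : ℝ} (h : |τ| ≤ τ0) (z w : ℂ) :
    ‖GH τ z - GH τ w‖ ≤ (4 + 2 * τ0) * ‖z - w‖ := by
  refine lip_of_curve (fun γ v t hγ => ⟨_, hasDerivAt_GH hγ (hasDerivAt_const t τ), ?_⟩) z w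
  simp only [ofReal_zero, mul_zero, zero_mul, sub_zero]
  refine (norm_add_le _ _).trans ?_
  rw [norm_mul, norm_mul, Complex.norm_conj]
  have := norm_G1_le h (γ t)
  have := norm_G2_le h (γ t)
  nlinarith [norm_nonneg v]

lemma norm_le_four {a b c d : ℂ} : ‖a + b + c + d‖ ≤ ‖a‖ + ‖b‖ + ‖c‖ + ‖d‖ :=
  (norm_add_le _ _).trans (by gcongr; exact norm_add₃_le)

lemma lip_G1 {τ τ0 : ℝ} (h : |τ| ≤ τ0) (z w : ℂ) :
    ‖G1 τ z - G1 τ w‖ ≤ 6 * (1 + τ0) ^ 2 * ‖z - w‖ := by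
  have hc := norm_cc h
  have h0 : 0 ≤ τ0 := (abs_nonneg _).trans h
  refine lip_of_curve (fun γ v t hγ => ⟨_, (((hγ.mul (hasDerivAt_conj hγ)).const_mul
    (cc τ)).const_sub 1).mul (hasDerivAt_GE hγ (hasDerivAt_const t τ)), ?_⟩) z w
  obtain ⟨-, p1, -, p3⟩ := pow_gauss _ (norm_nonneg (γ t))
  set z := γ t
  have e : -(cc τ * (v * conj z + z * conj v)) * GE τ z + (1 - cc τ * (z * conj z)) *
      (GE τ z * -(I * ((0 : ℝ) : ℂ) * (z * conj z) + cc τ * (v * conj z + z * conj v))) =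
      (-2) * cc τ * v * (conj z * GE τ z) + (-2) * cc τ * conj v * (z * GE τ z) +
      cc τ ^ 2 * v * (z * conj z ^ 2 * GE τ z) + cc τ ^ 2 * conj v * (z ^ 2 * conj z * GE τ z) := by
    push_cast; ring
  simp only [Pi.mul_apply]
  rw [e]
  refine norm_le_four.trans ?_
  simp only [norm_mul, norm_pow, Complex.norm_conj, norm_GE, norm_neg, Complex.norm_ofNat]
  have hv := norm_nonneg v
  have e3 : ‖z‖ * ‖z‖ ^ 2 = ‖z‖ ^ 3 := by ring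
  have e4 : ‖z‖ ^ 2 * ‖z‖ = ‖z‖ ^ 3 := by ring
  rw [e3, e4]
  calc _ ≤ 2 * (1 + τ0) * ‖v‖ * 1 + 2 * (1 + τ0) * ‖v‖ * 1 + (1 + τ0) ^ 2 * ‖v‖ * 1 +
        (1 + τ0) ^ 2 * ‖v‖ * 1 := by gcongr
    _ ≤ _ := by nlinarith [mul_nonneg h0 hv, mul_nonneg (mul_nonneg h0 h0) hv]

lemma lip_G2 {τ τ0 : ℝ} (h : |τ| ≤ τ0) (z w : ℂ) :
    ‖G2 τ z - G2 τ w‖ ≤ 6 * (1 + τ0) ^ 2 * ‖z - w‖ := by
  have hc := norm_cc h
  have h0 : 0 ≤ τ0 := (abs_nonneg _).trans h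
  refine lip_of_curve (fun γ v t hγ => ⟨_, (((hγ.mul hγ).const_mul
    (cc τ)).neg).mul (hasDerivAt_GE hγ (hasDerivAt_const t τ)), ?_⟩) z w
  obtain ⟨-, p1, -, p3⟩ := pow_gauss _ (norm_nonneg (γ t))
  set z := γ t
  have e : -(cc τ * (v * z + z * v)) * GE τ z + -(cc τ * (z * z)) *
      (GE τ z * -(I * ((0 : ℝ) : ℂ) * (z * conj z) + cc τ * (v * conj z + z * conj v))) =
      (-1) * cc τ * v * (z * GE τ z) + (-1) * cc τ * v * (z * GE τ z) +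
      cc τ ^ 2 * v * (z ^ 2 * conj z * GE τ z) + cc τ ^ 2 * conj v * (z ^ 3 * GE τ z) := by
    push_cast; ring
  simp only [Pi.mul_apply, Pi.neg_apply]
  rw [e]
  refine norm_le_four.trans ?_
  simp only [norm_mul, norm_pow, Complex.norm_conj, norm_GE, norm_neg, norm_one]
  have hv := norm_nonneg v
  have e4 : ‖z‖ ^ 2 * ‖z‖ = ‖z‖ ^ 3 := by ring
  rw [e4]
  calc _ ≤ 1 * (1 + τ0) * ‖v‖ * 1 + 1 * (1 + τ0) * ‖v‖ * 1 + (1 + τ0) ^ 2 * ‖v‖ * 1 +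
        (1 + τ0) ^ 2 * ‖v‖ * 1 := by gcongr
    _ ≤ _ := by nlinarith [mul_nonneg h0 hv, mul_nonneg (mul_nonneg h0 h0) hv]

end

end Pool.Agent.Lib.MMT
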