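import Pool.Agent.Lib.MMT.Dyadic
import Pool.Agent.Lib.MMT.Gauss

/-! The renormalised functional is almost conserved along smooth solutions. -/

namespace Pool.Agent.Lib.MMT

open Filter Topology MeasureTheory AddCircle Complex Set
open scoped Real ComplexConjugate

noncomputable section

lemma exists_coe (x : Ci) : ∃ y : ℝ, y ∈ Icc 0 (2 * π) ∧ (y : Ci) = x := by
  obtain ⟨y, hy, rfl⟩ := AddCircle.eq_coe_Ico x
  exact ⟨y, Ico_subset_Icc_self hy, rfl⟩

lemma continuous_of_coe {E : Type*} [TopologicalSpace E] {f : Ci → E}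
    (h : Continuous fun y : ℝ => f (y : Ci)) : Continuous f :=
  (QuotientAddGroup.isQuotientMap_mk _).continuous_iff.2 h

variable {α T : ℝ} {v : ℝ → Ci → ℂ}

lemma IsSmoothSol.slice (hv : IsSmoothSol α T v) {t : ℝ} (ht : t ∈ Icc (-T) T) :
    ContDiff ℝ 2 fun y : ℝ => v t (y : Ci) := by
  rw [← contDiffOn_univ]
  have h1 : ContDiffOn ℝ 2 (fun y : ℝ => (t, y)) univ := by fun_prop
  have h2 : (2 : WithTop ℕ∞) ≤ ((⊤ : ℕ∞) : WithTop ℕ∞) := WithTop.coe_le_coe.2 le_top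
  exact (hv.1.of_le h2).comp h1 fun y _ => ⟨ht, mem_univ _⟩

lemma IsSmoothSol.cont (hv : IsSmoothSol α T v) {t : ℝ} (ht : t ∈ Icc (-T) T) :
    Continuous (v t) := continuous_of_coe (hv.slice ht).continuous

lemma continuous_fracD (hα : α ≤ 1 / 2) {f : Ci → ℂ} (hf : ContDiff ℝ 2 fun x : ℝ => f (x : Ci)) :
    Continuous (fracD α f) := by
  refine continuous_tsum (fun k => by fun_prop) (summable_sym hα hf) fun k x => ?_
  simp only [norm_mul, norm_fourier, mul_one, Complex.norm_real, Real.norm_eq_abs]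
  exact le_of_eq (by rw [← abs_of_nonneg (sym_nonneg α k)]; rfl)

lemma IsSmoothSol.at (hv : IsSmoothSol α T v) {t : ℝ} (ht : t ∈ Ioo (-T) T) (y : ℝ) :
    ContDiffAt ℝ 1 (fun p : ℝ × ℝ => v p.1 (p.2 : Ci)) (t, y) :=
  (hv.1.of_le (by exact_mod_cast le_top)).contDiffAt
    (prod_mem_nhds (Icc_mem_nhds ht.1 ht.2) univ_mem)

lemma IsSmoothSol.hasDerivAt' (hv : IsSmoothSol α T v) {t : ℝ} (ht : t ∈ Ioo (-T) T) (y : ℝ) :
    HasDerivAt (fun s => v s (y : Ci))
      (fderiv ℝ (fun p : ℝ × ℝ => v p.1 (p.2 : Ci)) (t, y) (1, 0)) t := by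
  have h1 := ((hv.at ht y).differentiableAt one_ne_zero).hasFDerivAt
  have h2 : HasDerivAt (fun s : ℝ => (s, y)) (1, 0) t :=
    (hasDerivAt_id t).prodMk (hasDerivAt_const t y)
  exact h1.comp_hasDerivAt t h2

lemma IsSmoothSol.eqn (hv : IsSmoothSol α T v) {t : ℝ} (ht : t ∈ Ioo (-T) T) (y : ℝ) :
    I * fderiv ℝ (fun p : ℝ × ℝ => v p.1 (p.2 : Ci)) (t, y) (1, 0) =
      fracD α (v t) y + (‖v t y‖ : ℂ) ^ 2 * v t y := by
  rw [← hv.2 t (Ioo_subset_Icc_self ht) y, derivWithin_of_mem_nhds (Icc_mem_nhds ht.1 ht.2),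
    (hv.hasDerivAt' ht y).deriv]

lemma IsSmoothSol.hasDerivAt (hv : IsSmoothSol α T v) {t : ℝ} (ht : t ∈ Ioo (-T) T) (x : Ci) :
    HasDerivAt (fun s => v s x) (-I * (fracD α (v t) x + v t x * conj (v t x) * v t x)) t := by
  obtain ⟨y, -, rfl⟩ := exists_coe x
  refine (hv.hasDerivAt' ht y).congr_deriv ?_
  rw [Complex.mul_conj', ← hv.eqn ht y, ← mul_assoc]
  simp

lemma IsSmoothSol.bound (hv : IsSmoothSol α 1 v) :
    ∃ B, ∀ t ∈ Icc (-(3 / 4) : ℝ) (3 / 4), ∀ x, ‖fracD α (v t) x‖ ≤ B := by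
  set U := fun p : ℝ × ℝ => v p.1 (p.2 : Ci)
  have hK : IsCompact (Icc (-(3 / 4) : ℝ) (3 / 4) ×ˢ Icc (0 : ℝ) (2 * π)) :=
    isCompact_Icc.prod isCompact_Icc
  have hc : ContinuousOn (fun p => I * fderiv ℝ U p (1, 0) - (‖U p‖ : ℂ) ^ 2 * U p)
      (Icc (-(3 / 4) : ℝ) (3 / 4) ×ˢ Icc (0 : ℝ) (2 * π)) := by
    rintro ⟨t, y⟩ ⟨ht, -⟩
    have h1 := hv.at (t := t) ⟨by linarith [ht.1], by linarith [ht.2]⟩ y
    have h2 : ContinuousAt (fderiv ℝ U) (t, y) :=
      (h1.fderiv_right (m := 0) (by norm_num)).continuousAt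
    have h3 : ContinuousAt U (t, y) := h1.continuousAt
    apply ContinuousAt.continuousWithinAt
    fun_prop
  obtain ⟨B, hB⟩ := hK.exists_bound_of_continuousOn hc
  refine ⟨B, fun t ht x => ?_⟩
  obtain ⟨y, hy, rfl⟩ := exists_coe x
  have := hB (t, y) ⟨ht, hy⟩
  simp only [U] at this
  rwa [hv.eqn ⟨by linarith [ht.1], by linarith [ht.2]⟩ y, add_sub_cancel_right] at this

lemma J_drift (hα : 0 ≤ α) (hα1 : α ≤ 1 / 2) {C : ℝ} (hC0 : 0 < C)
    (hC : ∀ y : ℝ, 1 ≤ y → ∀ N : ℕ,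
      ∑ j ∈ Finset.range N, ((2 : ℝ) ^ α) ^ j * min 1 (y * (1 / 2 ^ j)) ≤ C * y ^ α)
    (hv : IsSmoothSol α 1 v) {M A ts τ0 B : ℝ}
    (hM : ∀ t ∈ Icc (-1 : ℝ) 1, SB α (fourierCoeff (v t)) M) (hA : 0 < A) (hts : 0 ≤ ts)
    (hts1 : ts ≤ 1 / 2) (hτ : ts * A ^ 2 ≤ τ0) (ψ : X) (hψ : ∀ x, ‖ψ x‖ ≤ 1) (hB : QB α ψ B) :
    ‖∫ x, GH 0 (v ts x / A) * ψ x ∂mu - ∫ x, GH (ts * A ^ 2) (v 0 x / A) * ψ x ∂mu‖ ≤
      (M / A ^ 2 + 3 * (2 * (6 * (1 + τ0) ^ 2) ^ 2 * B +
        2 * (6 * (1 + τ0) ^ 2 / A) ^ 2 * (4 * C * M))) * ts := by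
  obtain ⟨B0, hB0⟩ := hv.bound
  have hτ0 : 0 ≤ τ0 := le_trans (by positivity) hτ
  have hA' : (A : ℂ) ≠ 0 := by exact_mod_cast hA.ne'
  set F : ℝ → Ci → ℂ := fun t x => GH ((ts - t) * A ^ 2) (v t x / A) * ψ x with hF
  set F' : ℝ → Ci → ℂ := fun t x =>
    (G1 ((ts - t) * A ^ 2) (v t x / A) * (-I * fracD α (v t) x / A) +
      G2 ((ts - t) * A ^ 2) (v t x / A) * conj (-I * fracD α (v t) x / A)) * ψ x with hF'
  have hcG : ∀ {G : ℝ → ℂ → ℂ}, (Continuous fun p : ℝ × ℂ => G p.1 p.2) → ∀ t ∈ Icc (-1 : ℝ) 1,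
      Continuous fun x => G ((ts - t) * A ^ 2) (v t x / A) := fun hG t ht =>
    hG.comp (continuous_const.prodMk ((hv.cont ht).div_const _))
  have hder : ∀ t ∈ Icc 0 ts, HasDerivAt (fun s => ∫ x, F s x ∂mu) (∫ x, F' t x ∂mu) t := by
    intro t ht
    have hs : Icc (-(3 / 4) : ℝ) (3 / 4) ∈ 𝓝 t :=
      Icc_mem_nhds (by linarith [ht.1]) (by linarith [ht.2])
    have hsub : ∀ s ∈ Icc (-(3 / 4) : ℝ) (3 / 4), s ∈ Icc (-1 : ℝ) 1 := fun s hs =>
      ⟨by linarith [hs.1], by linarith [hs.2]⟩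
    have ht1 := hsub t (mem_of_mem_nhds hs)
    refine (hasDerivAt_integral_of_dominated_loc_of_deriv_le (F := F) (F' := F') hs ?_ ?_ ?_
      (bound := fun _ => 2 * ((2 + 2 * A ^ 2) * (B0 / A))) (ae_of_all _ fun x s hs => ?_)
      (integrable_const _) (ae_of_all _ fun x s hs => ?_)).2
    · filter_upwards [hs] with s hs
      exact ((hcG continuous_GH s (hsub s hs)).mul ψ.continuous).aestronglyMeasurable
    · exact integ ((hcG continuous_GH t ht1).mul ψ.continuous)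
    · have h1 := hcG continuous_G1 t ht1
      have h2 := hcG continuous_G2 t ht1
      have h3 := continuous_fracD hα1 (hv.slice ht1)
      apply Continuous.aestronglyMeasurable
      simp only [hF']
      fun_prop
    · have hτs : |(ts - s) * A ^ 2| ≤ 2 * A ^ 2 := by
        rw [abs_mul, abs_of_nonneg (sq_nonneg A)]
        gcongr
        rw [abs_le]; constructor <;> linarith [hs.1, hs.2]
      have h1 := norm_G1_le hτs (v s x / A)
      have h2 := norm_G2_le hτs (v s x / A)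
      have h3 : ‖-I * fracD α (v s) x / A‖ ≤ B0 / A := by
        rw [norm_div, norm_mul, norm_neg, norm_I, one_mul, Complex.norm_real, Real.norm_eq_abs,
          abs_of_pos hA]
        gcongr; exact hB0 s hs x
      simp only [hF']
      rw [norm_mul]
      refine (mul_le_of_le_one_right (norm_nonneg _) (hψ x)).trans ((norm_add_le _ _).trans ?_)
      rw [norm_mul, norm_mul, Complex.norm_conj, two_mul]
      gcongr
    · have h1 := (hv.hasDerivAt (t := s) ⟨by linarith [hs.1], by linarith [hs.2]⟩ x).div_const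
        (A : ℂ)
      have h2 : HasDerivAt (fun s => (ts - s) * A ^ 2) (-A ^ 2) s := by
        simpa using ((hasDerivAt_id s).const_sub ts).mul_const (A ^ 2)
      refine ((hasDerivAt_GH h1 h2).mul_const (ψ x)).congr_deriv ?_
      simp only [hF']
      congr 1
      simp only [G1, G2, GH, map_div₀, map_mul, map_add, map_neg, conj_I, conj_conj, conj_ofReal]
      push_cast
      field_simp
      ring
  have hbd : ∀ t ∈ Ico 0 ts, ‖∫ x, F' t x ∂mu‖ ≤ M / A ^ 2 + 3 * (2 * (6 * (1 + τ0) ^ 2) ^ 2 * B +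
        2 * (6 * (1 + τ0) ^ 2 / A) ^ 2 * (4 * C * M)) := by
    intro t ht
    have ht1 : t ∈ Icc (-1 : ℝ) 1 := ⟨by linarith [ht.1], by linarith [ht.2]⟩
    have hτs : |(ts - t) * A ^ 2| ≤ τ0 := by
      rw [abs_of_nonneg (mul_nonneg (by linarith [ht.2]) (sq_nonneg A))]
      nlinarith [ht.1, sq_nonneg A]
    set L := 6 * (1 + τ0) ^ 2 with hL
    have hL2 : 2 + τ0 ≤ L := by nlinarith
    set u : X := ⟨v t, hv.cont ht1⟩
    have hu : QB α u (4 * C * M) := QB_of_SB hC0 hC (hM t ht1)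
    have key : ∀ (G : ℂ → ℂ) (g : X), (∀ z, ‖G z‖ ≤ L) → (∀ z w, ‖G z - G w‖ ≤ L * ‖z - w‖) →
        (∀ x y, ‖g x - g y‖ = ‖G (v t x / A) * ψ x - G (v t y / A) * ψ y‖) →
        ‖∫ x, g x * fracD α (v t) x ∂mu‖ ≤
          (A⁻¹ * M + 3 * (2 * L ^ 2 * B + 2 * (L / A) ^ 2 * (4 * C * M)) / A⁻¹) / 2 := by
      intro G g h1 h2 h3
      refine pairing hα1 (hv.slice ht1) g (inv_pos.2 hA) (hM t ht1)
        (SB_of_QB (by linarith) hα (QB_comb hB hu fun x y => ?_))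
      rw [h3]
      have e : G (v t x / A) * ψ x - G (v t y / A) * ψ y =
          G (v t x / A) * (ψ x - ψ y) + (G (v t x / A) - G (v t y / A)) * ψ y := by ring
      rw [e]
      refine (norm_add_le _ _).trans (add_le_add ?_ ?_)
      · rw [norm_mul]; gcongr; exact h1 _
      · rw [norm_mul]
        refine (mul_le_of_le_one_right (norm_nonneg _) (hψ y)).trans ((h2 _ _).trans ?_)
        rw [← sub_div, norm_div, Complex.norm_real, Real.norm_eq_abs, abs_of_pos hA]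
        exact le_of_eq (by simp only [u, ContinuousMap.coe_mk]; ring)
    have c1 := hcG continuous_G1 t ht1
    have c2 := hcG continuous_G2 t ht1
    have c3 := continuous_fracD hα1 (hv.slice ht1)
    have k1 := key (G1 ((ts - t) * A ^ 2))
      ⟨fun x => G1 ((ts - t) * A ^ 2) (v t x / A) * ψ x, by fun_prop⟩
      (fun z => (norm_G1_le hτs z).trans hL2) (lip_G1 hτs) fun x y => rfl
    have k2 := key (G2 ((ts - t) * A ^ 2))
      ⟨fun x => conj (G2 ((ts - t) * A ^ 2) (v t x / A) * ψ x), by fun_prop⟩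
      (fun z => (norm_G2_le hτs z).trans hL2) (lip_G2 hτs) fun x y => by
        simp only [ContinuousMap.coe_mk]
        rw [← map_sub, Complex.norm_conj]
    simp only [ContinuousMap.coe_mk] at k1 k2
    have e : ∫ x, F' t x ∂mu =
        (-I / A) * ∫ x, G1 ((ts - t) * A ^ 2) (v t x / A) * ψ x * fracD α (v t) x ∂mu +
        (I / A) * conj (∫ x, conj (G2 ((ts - t) * A ^ 2) (v t x / A) * ψ x) *
          fracD α (v t) x ∂mu) := by
      rw [← integral_conj, ← integral_const_mul, ← integral_const_mul,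
        ← integral_add (integ (by fun_prop)) (integ (by fun_prop))]
      congr 1; ext x
      simp only [hF', map_div₀, map_mul, map_neg, conj_I, conj_conj, conj_ofReal]
      ring
    rw [e]
    refine (norm_add_le _ _).trans ?_
    simp only [norm_mul, norm_div, norm_neg, norm_I, Complex.norm_real, Real.norm_eq_abs,
      abs_of_pos hA, Complex.norm_conj]
    calc _ ≤ 1 / A * ((A⁻¹ * M + 3 * (2 * L ^ 2 * B + 2 * (L / A) ^ 2 * (4 * C * M)) / A⁻¹) / 2) +
          1 / A * ((A⁻¹ * M + 3 * (2 * L ^ 2 * B + 2 * (L / A) ^ 2 * (4 * C * M)) / A⁻¹) / 2) := by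
          gcongr
      _ = _ := by field_simp; ring
  have := norm_image_sub_le_of_norm_deriv_le_segment' (fun t ht => (hder t ht).hasDerivWithinAt)
    hbd ts ⟨hts, le_rfl⟩
  simpa [hF] using this

end

end Pool.Agent.Lib.MMT
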