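import Pool.Agent.Lib.MMT.Basic

/-! Dyadic difference characterisation of the homogeneous `H^{α/2}` seminorm. -/

namespace Pool.Agent.Lib.MMT

open Filter Topology MeasureTheory AddCircle Complex Finset
open scoped Real ComplexConjugate

noncomputable section

lemma mu_ball (x : Ci) {r : ℝ} (hr : 0 ≤ r) :
    mu.real (Metric.closedBall x r) = min (2 * π) (2 * r) / (2 * π) := by
  have h := AddCircle.volume_closedBall (2 * π) (x := x) r
  rw [volume_eq_smul_haarAddCircle, Measure.smul_apply, smul_eq_mul] at h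
  have h2 := congrArg ENNReal.toReal h
  have hpi := Real.two_pi_pos
  rw [ENNReal.toReal_mul, ENNReal.toReal_ofReal hpi.le,
    ENNReal.toReal_ofReal (le_min hpi.le (by linarith))] at h2
  rw [← h2, Measure.real]; field_simp

lemma mu_ball_le (x : Ci) {r : ℝ} (hr : 0 ≤ r) : mu.real (Metric.closedBall x r) ≤ r / 3 := by
  rw [mu_ball x hr, div_le_div_iff₀ Real.two_pi_pos (by norm_num)]
  have := min_le_right (2 * π) (2 * r)
  nlinarith [Real.pi_gt_three]

lemma mu_ball_ge (x : Ci) {r : ℝ} (hr : 0 ≤ r) (hr3 : r ≤ 3) :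
    r / 4 ≤ mu.real (Metric.closedBall x r) := by
  rw [mu_ball x hr, min_eq_right (by linarith [Real.pi_gt_three]),
    div_le_div_iff₀ (by norm_num) Real.two_pi_pos]
  nlinarith [Real.pi_le_four]

lemma int_le_two_balls {F : Ci → ℝ} (hF : Continuous F) {Γ r : ℝ} (hΓ : 0 ≤ Γ) (hr : 0 ≤ r)
    (a b : Ci) (h1 : ∀ x, F x ≤ Γ) (h2 : ∀ x, r < ‖x - a‖ → r < ‖x - b‖ → F x ≤ 0) :
    ∫ x, F x ∂mu ≤ Γ * r := by
  have ia : ∀ c : Ci, Integrable ((Metric.closedBall c r).indicator fun _ => Γ) mu := fun c =>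
    (integrable_const Γ).indicator measurableSet_closedBall
  calc ∫ x, F x ∂mu ≤ ∫ x, ((Metric.closedBall a r).indicator (fun _ => Γ) x +
        (Metric.closedBall b r).indicator (fun _ => Γ) x) ∂mu := by
        refine integral_mono (integ hF) ((ia a).add (ia b)) fun x => ?_
        have n1 : ∀ c : Ci, 0 ≤ (Metric.closedBall c r).indicator (fun _ => Γ) x := fun c =>
          Set.indicator_nonneg (fun _ _ => hΓ) x
        by_cases ha : x ∈ Metric.closedBall a r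
        · simp only [Set.indicator_of_mem ha]; linarith [h1 x, n1 b]
        by_cases hb : x ∈ Metric.closedBall b r
        · simp only [Set.indicator_of_mem hb]; linarith [h1 x, n1 a]
        rw [mem_closedBall_iff_norm, not_le] at ha hb
        linarith [h2 x ha hb, n1 a, n1 b]
    _ = mu.real (Metric.closedBall a r) * Γ + mu.real (Metric.closedBall b r) * Γ := by
        rw [integral_add (ia a) (ia b), integral_indicator_const _ measurableSet_closedBall,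
          integral_indicator_const _ measurableSet_closedBall, smul_eq_mul, smul_eq_mul]
    _ ≤ r / 3 * Γ + r / 3 * Γ := by gcongr <;> exact mu_ball_le _ hr
    _ ≤ Γ * r := by nlinarith [mul_nonneg hΓ hr]

/-- squared `L²` norm of the difference with a translate -/
def DD (h : ℝ) (g : X) : ℝ := ∫ x, ‖g (x + (h : Ci)) - g x‖ ^ 2 ∂mu

lemma DD_nonneg (h : ℝ) (g : X) : 0 ≤ DD h g := integral_nonneg fun _ => by positivity

lemma hasSum_DD (h : ℝ) (g : X) :
    HasSum (fun k => ‖fourier k (h : Ci) - 1‖ ^ 2 * ‖fourierCoeff g k‖ ^ 2) (DD h g) := by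
  have := parseval (tr (h : Ci) g - g)
  have e : ∀ k, ‖fourierCoeff (tr (h : Ci) g - g : X) k‖ ^ 2 =
      ‖fourier k (h : Ci) - 1‖ ^ 2 * ‖fourierCoeff g k‖ ^ 2 := fun k => by
    rw [← cf_apply k (tr (h : Ci) g - g), map_sub, cf_tr, ← sub_one_mul, norm_mul, mul_pow,
      cf_apply]
  simp only [e] at this
  exact this

/-- all finite partial sums of the homogeneous seminorm are bounded by `G` -/
def SB (α : ℝ) (c : ℤ → ℂ) (G : ℝ) : Prop := ∀ s : Finset ℤ, ∑ k ∈ s, sym α k * ‖c k‖ ^ 2 ≤ G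

/-- all dyadic difference sums are bounded by `B` -/
def QB (α : ℝ) (g : X) (B : ℝ) : Prop :=
  ∀ N : ℕ, ∑ j ∈ range N, ((2 : ℝ) ^ α) ^ j * DD (1 / 2 ^ j) g ≤ B

lemma lower_freq {α : ℝ} (hα1 : α ≤ 1) (hα : 0 ≤ α) (k : ℤ) :
    ∃ j : ℕ, sym α k ≤ 3 * (((2 : ℝ) ^ α) ^ j * ‖fourier k (((1 / 2 ^ j : ℝ)) : Ci) - 1‖ ^ 2) := by
  unfold sym
  split_ifs with hk
  · exact ⟨0, by positivity⟩
  have h1 : (1 : ℝ) ≤ |(k : ℝ)| := by exact_mod_cast Int.one_le_abs hk
  obtain ⟨j, hj1, hj2⟩ := exists_nat_pow_near h1 (by norm_num : (1 : ℝ) < 2)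
  refine ⟨j, ?_⟩
  have hp : (0 : ℝ) < 2 ^ j := by positivity
  set θ : ℝ := k * (1 / 2 ^ j) with hθ
  have ha : |θ| = |(k : ℝ)| / 2 ^ j := by
    rw [hθ, abs_mul, abs_of_pos (by positivity : (0 : ℝ) < 1 / 2 ^ j)]; ring
  have hθ1 : 1 ≤ |θ| := by rw [ha, le_div_iff₀ hp]; linarith
  have hθ2 : |θ| ≤ 2 := by rw [ha, div_le_iff₀ hp]; rw [pow_succ] at hj2; linarith
  have hn : 2 / 3 ≤ ‖fourier k (((1 / 2 ^ j : ℝ)) : Ci) - 1‖ ^ 2 := by
    rw [fourier_coe]
    have : (k : ℂ) * ((1 / 2 ^ j : ℝ) : ℂ) = (θ : ℂ) := by rw [hθ]; push_cast; ring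
    rw [this, Complex.norm_exp_I_mul_ofReal_sub_one, Real.norm_eq_abs, sq_abs, mul_pow,
      Real.sin_sq_eq_half_sub]
    have hc : Real.cos (2 * (θ / 2)) ≤ 5 / 9 := by
      rw [show 2 * (θ / 2) = θ by ring, ← Real.cos_abs]
      exact (Real.cos_le_cos_of_nonneg_of_le_pi (by norm_num) (by linarith [Real.pi_gt_three])
        hθ1).trans Real.cos_one_le
    linarith
  have h2 : |(k : ℝ)| ^ α ≤ 2 * ((2 : ℝ) ^ α) ^ j := by
    calc |(k : ℝ)| ^ α ≤ ((2 : ℝ) ^ (j + 1)) ^ α := by gcongr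
      _ = (2 : ℝ) ^ α * ((2 : ℝ) ^ α) ^ j := by
        rw [← Real.rpow_pow_comm (by norm_num), pow_succ]; ring
      _ ≤ 2 * ((2 : ℝ) ^ α) ^ j := by
        gcongr
        calc (2 : ℝ) ^ α ≤ 2 ^ (1 : ℝ) := Real.rpow_le_rpow_of_exponent_le (by norm_num) hα1
          _ = 2 := by simp
  have h3 : (0 : ℝ) ≤ ((2 : ℝ) ^ α) ^ j := by positivity
  nlinarith

lemma SB_of_QB {α : ℝ} (hα1 : α ≤ 1) (hα : 0 ≤ α) {g : X} {B : ℝ} (h : QB α g B) :
    SB α (fourierCoeff g) (3 * B) := by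
  intro s
  choose j hj using lower_freq hα1 hα
  set N := s.sup j + 1
  calc ∑ k ∈ s, sym α k * ‖fourierCoeff g k‖ ^ 2
      ≤ ∑ k ∈ s, 3 * ∑ i ∈ range N, ((2 : ℝ) ^ α) ^ i *
          (‖fourier k (((1 / 2 ^ i : ℝ)) : Ci) - 1‖ ^ 2 * ‖fourierCoeff g k‖ ^ 2) := by
        refine sum_le_sum fun k hk => ?_
        have h1 : j k ∈ range N := mem_range.2 (Nat.lt_succ_of_le (le_sup (f := j) hk))
        have h2 := single_le_sum (f := fun i => ((2 : ℝ) ^ α) ^ i *
          (‖fourier k (((1 / 2 ^ i : ℝ)) : Ci) - 1‖ ^ 2 * ‖fourierCoeff g k‖ ^ 2))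
          (fun i _ => by positivity) h1
        have h3 := mul_le_mul_of_nonneg_right (hj k) (sq_nonneg ‖fourierCoeff g k‖)
        nlinarith
    _ = 3 * ∑ i ∈ range N, ((2 : ℝ) ^ α) ^ i * ∑ k ∈ s,
          (‖fourier k (((1 / 2 ^ i : ℝ)) : Ci) - 1‖ ^ 2 * ‖fourierCoeff g k‖ ^ 2) := by
        rw [← mul_sum, sum_comm]; simp only [mul_sum]
    _ ≤ 3 * ∑ i ∈ range N, ((2 : ℝ) ^ α) ^ i * DD (1 / 2 ^ i) g := by
        gcongr with i hi
        exact sum_le_hasSum s (fun k _ => by positivity) (hasSum_DD _ g)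
    _ ≤ 3 * B := by gcongr; exact h N

lemma dyadic_sum {α : ℝ} (hα : 0 < α) (hα1 : α ≤ 1 / 2) :
    ∃ C, 0 < C ∧ ∀ y : ℝ, 1 ≤ y → ∀ N : ℕ,
      ∑ j ∈ range N, ((2 : ℝ) ^ α) ^ j * min 1 (y * (1 / 2 ^ j)) ≤ C * y ^ α := by
  set r : ℝ := (2 : ℝ) ^ α with hr
  have hr1 : 1 < r := Real.one_lt_rpow (by norm_num) hα
  have hr2 : r ≤ 3 / 2 := by
    have h1 : r ≤ (2 : ℝ) ^ (1 / 2 : ℝ) := Real.rpow_le_rpow_of_exponent_le (by norm_num) hα1
    have h2 : ((2 : ℝ) ^ (1 / 2 : ℝ)) ^ 2 = 2 := by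
      rw [← Real.rpow_natCast, ← Real.rpow_mul (by norm_num)]; norm_num
    nlinarith
  refine ⟨2 / (r - 1) + 8, by have := sub_pos.2 hr1; positivity, fun y hy N => ?_⟩
  obtain ⟨J, hJ1, hJ2⟩ := exists_nat_pow_near hy (by norm_num : (1 : ℝ) < 2)
  have hrJ : r ^ (J + 1) ≤ 2 * y ^ α := by
    have : r ^ J ≤ y ^ α := by
      rw [hr, Real.rpow_pow_comm (by norm_num)]; gcongr
    rw [pow_succ]; nlinarith [pow_pos (zero_lt_one.trans hr1) J]
  have key : ∀ M : ℕ, ∑ j ∈ range (J + 1 + M), r ^ j * min 1 (y * (1 / 2 ^ j)) ≤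
      r ^ (J + 1) / (r - 1) + 4 * r ^ (J + 1) * (1 - (3 / 4) ^ M) := by
    intro M
    induction M with
    | zero =>
      simp only [add_zero, pow_zero, sub_self, mul_zero]
      calc _ ≤ ∑ j ∈ range (J + 1), r ^ j := by
            refine sum_le_sum fun j _ => ?_
            exact mul_le_of_le_one_right (by positivity) (min_le_left _ _)
        _ = (r ^ (J + 1) - 1) / (r - 1) := geom_sum_eq hr1.ne' _
        _ ≤ _ := by gcongr; linarith
    | succ M ih =>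
      rw [← add_assoc, sum_range_succ]
      have h1 : min 1 (y * (1 / 2 ^ (J + 1 + M))) ≤ (1 / 2) ^ M := by
        refine (min_le_right _ _).trans ?_
        rw [pow_add, one_div_pow]
        calc y * (1 / (2 ^ (J + 1) * 2 ^ M)) ≤ 2 ^ (J + 1) * (1 / (2 ^ (J + 1) * 2 ^ M)) := by
              gcongr
          _ = _ := by field_simp
      have h2 : r ^ (J + 1 + M) * min 1 (y * (1 / 2 ^ (J + 1 + M))) ≤
          r ^ (J + 1) * (3 / 4) ^ M := by
        calc _ ≤ r ^ (J + 1 + M) * (1 / 2) ^ M := by gcongr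
          _ = r ^ (J + 1) * (r * (1 / 2)) ^ M := by rw [pow_add, mul_pow]; ring
          _ ≤ _ := by gcongr; linarith
      rw [pow_succ (3 / 4 : ℝ)]
      linarith
  have hsub : range N ⊆ range (J + 1 + N) := range_subset_range.2 (by omega)
  calc _ ≤ ∑ j ∈ range (J + 1 + N), r ^ j * min 1 (y * (1 / 2 ^ j)) :=
        sum_le_sum_of_subset_of_nonneg hsub fun j _ _ => by positivity
    _ ≤ r ^ (J + 1) / (r - 1) + 4 * r ^ (J + 1) * (1 - (3 / 4) ^ N) := key N
    _ ≤ (2 * y ^ α) / (r - 1) + 4 * (2 * y ^ α) * 1 := by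
        gcongr
        · have : (3 / 4 : ℝ) ^ N ≤ 1 := pow_le_one₀ (by norm_num) (by norm_num)
          linarith
        · have : (0 : ℝ) ≤ (3 / 4) ^ N := by positivity
          linarith
    _ = _ := by ring

lemma norm_fourier_sub_one_sq (k : ℤ) {h : ℝ} (hh : 0 ≤ h) :
    ‖fourier k (h : Ci) - 1‖ ^ 2 ≤ 4 * min 1 (|(k : ℝ)| * h) := by
  have h1 : ‖fourier k (h : Ci) - 1‖ ≤ 2 := by
    refine (norm_sub_le _ _).trans ?_
    rw [norm_fourier, norm_one]; norm_num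
  have h2 : ‖fourier k (h : Ci) - 1‖ ≤ |(k : ℝ)| * h := by
    rw [fourier_coe]
    have : (k : ℂ) * (h : ℂ) = ((k * h : ℝ) : ℂ) := by push_cast; ring
    rw [this]
    refine Real.norm_exp_I_mul_ofReal_sub_one_le.trans ?_
    rw [Real.norm_eq_abs, abs_mul, abs_of_nonneg hh]
  have h0 := norm_nonneg (fourier k (h : Ci) - 1)
  rcases le_total 1 (|(k : ℝ)| * h) with h3 | h3
  · rw [min_eq_left h3]; nlinarith
  · rw [min_eq_right h3]; nlinarith

lemma hasSum_le_of_SB {α : ℝ} {c : ℤ → ℂ} {M : ℝ} (hM : SB α c M) {w : ℤ → ℝ} {S C : ℝ}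
    (hC : 0 ≤ C) (hw : ∀ k, w k ≤ C * sym α k) (hS : HasSum (fun k => w k * ‖c k‖ ^ 2) S) :
    S ≤ C * M := by
  refine le_of_tendsto' hS fun s => ?_
  calc ∑ k ∈ s, w k * ‖c k‖ ^ 2 ≤ ∑ k ∈ s, C * (sym α k * ‖c k‖ ^ 2) := by
        refine sum_le_sum fun k _ => ?_
        rw [← mul_assoc]; gcongr; exact hw k
    _ ≤ C * M := by rw [← mul_sum]; gcongr; exact hM s

lemma DD_le_of_SB {α : ℝ} (hα : 0 ≤ α) (hα1 : α ≤ 1) {g : X} {M : ℝ}
    (hM : SB α (fourierCoeff g) M) {h : ℝ} (hh : 0 < h) : DD h g ≤ 4 * h ^ α * M := by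
  refine hasSum_le_of_SB hM (by positivity) (fun k => ?_) (hasSum_DD h g)
  refine (norm_fourier_sub_one_sq k hh.le).trans ?_
  unfold sym
  split_ifs with hk
  · simp [hk]
  rw [mul_assoc, ← Real.mul_rpow hh.le (abs_nonneg _), mul_comm h]
  gcongr
  rcases le_total 1 (|(k : ℝ)| * h) with h3 | h3
  · rw [min_eq_left h3]; exact Real.one_le_rpow h3 hα
  · rw [min_eq_right h3]
    exact Real.self_le_rpow_of_le_one (by positivity) h3 hα1

lemma QB_of_SB {α C : ℝ} (hC0 : 0 < C) (hC : ∀ y : ℝ, 1 ≤ y → ∀ N : ℕ,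
      ∑ j ∈ range N, ((2 : ℝ) ^ α) ^ j * min 1 (y * (1 / 2 ^ j)) ≤ C * y ^ α)
    {g : X} {M : ℝ} (hM : SB α (fourierCoeff g) M) : QB α g (4 * C * M) := by
  intro N
  have hS := hasSum_sum (s := range N) fun j _ =>
    (hasSum_DD (1 / 2 ^ j) g).mul_left (((2 : ℝ) ^ α) ^ j)
  simp only [← mul_assoc, ← sum_mul] at hS
  refine hasSum_le_of_SB hM (by positivity) (fun k => ?_) hS
  unfold sym
  split_ifs with hk
  · simp [hk]
  have h1 : (1 : ℝ) ≤ |(k : ℝ)| := by exact_mod_cast Int.one_le_abs hk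
  calc _ ≤ ∑ j ∈ range N, 4 * (((2 : ℝ) ^ α) ^ j * min 1 (|(k : ℝ)| * (1 / 2 ^ j))) := by
        refine sum_le_sum fun j _ => ?_
        have := norm_fourier_sub_one_sq k (h := 1 / 2 ^ j) (by positivity)
        have h3 : (0 : ℝ) ≤ ((2 : ℝ) ^ α) ^ j := by positivity
        nlinarith
    _ ≤ 4 * (C * |(k : ℝ)| ^ α) := by rw [← mul_sum]; gcongr; exact hC _ h1 N
    _ = _ := by ring

lemma QB_of_min {α C : ℝ} (hC : ∀ y : ℝ, 1 ≤ y → ∀ N : ℕ,
      ∑ j ∈ range N, ((2 : ℝ) ^ α) ^ j * min 1 (y * (1 / 2 ^ j)) ≤ C * y ^ α)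
    {g : X} {Γ y : ℝ} (hΓ : 0 ≤ Γ) (hy : 1 ≤ y)
    (h : ∀ h : ℝ, 0 < h → DD h g ≤ Γ * min 1 (y * h)) : QB α g (Γ * (C * y ^ α)) := by
  intro N
  calc _ ≤ ∑ j ∈ range N, Γ * (((2 : ℝ) ^ α) ^ j * min 1 (y * (1 / 2 ^ j))) := by
        refine sum_le_sum fun j _ => ?_
        have := h (1 / 2 ^ j) (by positivity)
        have h3 : (0 : ℝ) ≤ ((2 : ℝ) ^ α) ^ j := by positivity
        nlinarith
    _ ≤ _ := by rw [← mul_sum]; gcongr; exact hC y hy N

lemma QB_comb {α : ℝ} {g p u : X} {a b Bp Bu : ℝ}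
    (hp : QB α p Bp) (hu : QB α u Bu)
    (h : ∀ x y, ‖g x - g y‖ ≤ a * ‖p x - p y‖ + b * ‖u x - u y‖) :
    QB α g (2 * a ^ 2 * Bp + 2 * b ^ 2 * Bu) := by
  have hD : ∀ h : ℝ, DD h g ≤ 2 * a ^ 2 * DD h p + 2 * b ^ 2 * DD h u := by
    intro s
    unfold DD
    rw [← integral_const_mul, ← integral_const_mul, ← integral_add (integ (by fun_prop))
      (integ (by fun_prop))]
    refine integral_mono (integ (by fun_prop)) (integ (by fun_prop)) fun x => ?_
    have h1 := h (x + (s : Ci)) x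
    have h0 := norm_nonneg (g (x + (s : Ci)) - g x)
    simp only
    nlinarith [sq_nonneg (a * ‖p (x + (s : Ci)) - p x‖ - b * ‖u (x + (s : Ci)) - u x‖)]
  intro N
  calc _ ≤ ∑ j ∈ range N, (2 * a ^ 2 * (((2 : ℝ) ^ α) ^ j * DD (1 / 2 ^ j) p) +
        2 * b ^ 2 * (((2 : ℝ) ^ α) ^ j * DD (1 / 2 ^ j) u)) := by
        refine sum_le_sum fun j _ => ?_
        have := hD (1 / 2 ^ j)
        have h3 : (0 : ℝ) ≤ ((2 : ℝ) ^ α) ^ j := by positivity
        nlinarith
    _ ≤ _ := by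
        rw [sum_add_distrib, ← mul_sum, ← mul_sum]
        gcongr
        exacts [hp N, hu N]

lemma SB_of_hs {α : ℝ} (hα : 0 ≤ α) {c : ℤ → ℂ} {M : ℝ} (hM : 0 ≤ M)
    (h : hsNormSq α c ≤ ENNReal.ofReal M) : SB α c M := by
  intro s
  have hs := summable_of_hs (h.trans_lt ENNReal.ofReal_lt_top)
  refine le_trans ?_ (tsum_le_of_hs hM h)
  refine le_trans (sum_le_sum fun k _ => ?_) (hs.sum_le_tsum s fun k _ => by positivity)
  gcongr
  unfold sym
  split_ifs
  · positivity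
  · gcongr; linarith

lemma hs_le_of_SB {α : ℝ} (hα : 0 ≤ α) (hα1 : α ≤ 1) {c : ℤ → ℂ} {G : ℝ} (h : SB α c G) :
    hsNormSq α c ≤ ENNReal.ofReal (‖c 0‖ ^ 2 + 2 * G) := by
  have hb : ∀ s : Finset ℤ, ∑ k ∈ s, (1 + |(k : ℝ)|) ^ α * ‖c k‖ ^ 2 ≤ ‖c 0‖ ^ 2 + 2 * G := by
    intro s
    calc _ ≤ ∑ k ∈ s, ((if k = 0 then ‖c 0‖ ^ 2 else 0) + 2 * (sym α k * ‖c k‖ ^ 2)) := by
          refine sum_le_sum fun k _ => ?_
          unfold sym
          split_ifs with hk
          · simp [hk]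
          have h1 : (1 : ℝ) ≤ |(k : ℝ)| := by exact_mod_cast Int.one_le_abs hk
          rw [zero_add, ← mul_assoc]
          gcongr
          calc (1 + |(k : ℝ)|) ^ α ≤ (2 * |(k : ℝ)|) ^ α := by gcongr; linarith
            _ = 2 ^ α * |(k : ℝ)| ^ α := Real.mul_rpow (by norm_num) (abs_nonneg _)
            _ ≤ 2 * |(k : ℝ)| ^ α := by
              gcongr
              calc (2 : ℝ) ^ α ≤ 2 ^ (1 : ℝ) := Real.rpow_le_rpow_of_exponent_le (by norm_num) hα1
                _ = 2 := by simp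
      _ ≤ _ := by
          rw [sum_add_distrib, ← mul_sum, sum_ite_eq']
          have := h s
          split_ifs
          · linarith
          · nlinarith [sq_nonneg ‖c 0‖]
  have hs : Summable fun k : ℤ => (1 + |(k : ℝ)|) ^ α * ‖c k‖ ^ 2 :=
    summable_of_sum_le (fun k => by positivity) hb
  rw [hs_of_hasSum hs.hasSum]
  exact ENNReal.ofReal_le_ofReal (hs.tsum_le_of_sum_le hb)

/-- The `H^{α/2}` pairing of `g` with `|D|^α f`. -/
lemma pairing {α : ℝ} (hα : α ≤ 1 / 2) {f : Ci → ℂ} (hf : ContDiff ℝ 2 fun x : ℝ => f (x : Ci))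
    (g : X) {M G b : ℝ} (hb : 0 < b) (hM : SB α (fourierCoeff f) M)
    (hG : SB α (fourierCoeff g) G) :
    ‖∫ x, g x * fracD α f x ∂mu‖ ≤ (b * M + G / b) / 2 := by
  have hs := summable_sym hα hf
  have h1 := hasSum_integral_of_summable_integral_norm (μ := mu)
    (F := fun (k : ℤ) (x : Ci) => g x * ((sym α k : ℂ) * fourierCoeff f k * fourier k x))
    (fun k => integ (by fun_prop)) (by
      refine Summable.of_nonneg_of_le (fun k => integral_nonneg fun x => norm_nonneg _)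
        (fun k => ?_) (hs.mul_left ‖g‖)
      refine (integral_mono (integ (by fun_prop)) (integrable_const
        (‖g‖ * (sym α k * ‖fourierCoeff f k‖))) fun x => ?_).trans (by simp)
      simp only [norm_mul, norm_fourier, mul_one, Complex.norm_real, Real.norm_eq_abs,
        abs_of_nonneg (sym_nonneg α k)]
      gcongr
      · exact mul_nonneg (sym_nonneg _ _) (norm_nonneg _)
      · exact g.norm_coe_le_norm x)
  simp only [tsum_mul_left, ← fracD_eq] at h1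
  have h2 : ∀ k : ℤ, ∫ x, g x * ((sym α k : ℂ) * fourierCoeff f k * fourier k x) ∂mu =
      (sym α k : ℂ) * fourierCoeff f k * fourierCoeff g (-k) := by
    intro k
    rw [show fourierCoeff g (-k) = ∫ x, fourier k x * g x ∂mu by simp [fourierCoeff],
      ← integral_const_mul]
    congr 1; ext x; ring
  simp only [h2] at h1
  refine le_of_tendsto' h1.norm fun s => ?_
  have h3 := hG (s.map ⟨fun k => -k, neg_injective⟩)
  rw [sum_map] at h3
  simp only [Function.Embedding.coeFn_mk] at h3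
  have hsym : ∀ k, sym α (-k) = sym α k := fun k => by simp [sym]
  simp only [hsym] at h3
  calc _ ≤ ∑ k ∈ s, (b * (sym α k * ‖fourierCoeff f k‖ ^ 2) +
        (sym α k * ‖fourierCoeff g (-k)‖ ^ 2) / b) / 2 := by
        refine (norm_sum_le _ _).trans (sum_le_sum fun k _ => ?_)
        simp only [norm_mul, Complex.norm_real, Real.norm_eq_abs, abs_of_nonneg (sym_nonneg α k)]
        have h0 := sym_nonneg α k
        set p := ‖fourierCoeff f k‖
        set q := ‖fourierCoeff g (-k)‖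
        have : 0 ≤ sym α k * (b * p - q) ^ 2 / b := by positivity
        have e : (b * (sym α k * p ^ 2) + sym α k * q ^ 2 / b) / 2 - sym α k * p * q =
          sym α k * (b * p - q) ^ 2 / b / 2 := by field_simp; ring
        linarith
    _ ≤ _ := by
        rw [← sum_div, sum_add_distrib, ← mul_sum, ← sum_div]
        gcongr
        exact hM s

end

end Pool.Agent.Lib.MMT
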