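import Pool.Agent.Lib.MMT.Basic

/-! Fejér means, the operator `|D|^α` for `α < 0`, and homogenisation bounds. -/

namespace Pool.Agent.Lib.MMT

open Filter Topology MeasureTheory AddCircle Complex Finset
open scoped Real ComplexConjugate

noncomputable section

lemma cntA (N : ℕ) (a : ℤ) :
    ∑ l ∈ range N, (if a = l then (1 : ℤ) else 0) = if 0 ≤ a ∧ a < N then 1 else 0 := by
  induction N with
  | zero => simp
  | succ N ih => rw [sum_range_succ, ih]; push_cast; split_ifs <;> omega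

lemma cntB (M : ℕ) (a b : ℤ) :
    ∑ j ∈ range M, (if a ≤ j ∧ j < b then (1 : ℤ) else 0) = max 0 (min (M : ℤ) b - max 0 a) := by
  induction M with
  | zero => simp
  | succ M ih => rw [sum_range_succ, ih]; push_cast; split_ifs <;> omega

lemma cnt (N : ℕ) (k : ℤ) :
    ∑ j ∈ range N, ∑ l ∈ range N, (if k = (j : ℤ) - l then (1 : ℤ) else 0) =
      max 0 (N - |k|) := by
  have h1 : ∀ j : ℕ, ∑ l ∈ range N, (if k = (j : ℤ) - l then (1 : ℤ) else 0) =
      if k ≤ j ∧ (j : ℤ) < N + k then 1 else 0 := fun j => by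
    have := cntA N (j - k)
    have e : ∀ l : ℕ, (k = (j : ℤ) - l) = ((j : ℤ) - k = l) := fun l => by
      apply propext; omega
    simp only [e, this]
    congr 1; apply propext; omega
  simp only [h1, cntB]
  rcases abs_cases k with h | h <;> omega

/-- Fejér mean -/
def Fej (n : ℕ) : X →L[ℂ] X :=
  ((n : ℂ) + 1)⁻¹ • ∑ j ∈ range (n + 1), ∑ l ∈ range (n + 1),
    (cf ((j : ℤ) - l)).smulRight (fourier ((j : ℤ) - l))

def fw (n : ℕ) (k : ℤ) : ℝ := max 0 (1 - |(k : ℝ)| / (n + 1))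

lemma cf_Fej (n : ℕ) (k : ℤ) (u : X) : cf k (Fej n u) = fw n k * cf k u := by
  simp only [Fej, smul_apply, _root_.sum_apply,
    ContinuousLinearMap.smulRight_apply, map_smul, map_sum, cf_fourier, smul_eq_mul]
  have e : ∀ j l : ℕ, (cf ((j : ℤ) - l) u * if k = (j : ℤ) - l then 1 else 0) =
      cf k u * ((if k = (j : ℤ) - l then (1 : ℤ) else 0 : ℤ) : ℂ) := fun j l => by
    split_ifs with h
    · simp [h]
    · simp
  simp only [e, ← mul_sum, ← Int.cast_sum, cnt]
  have h1 : ((max 0 (((n + 1 : ℕ) : ℤ) - |k|) : ℤ) : ℝ) = (n + 1) * fw n k := by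
    rw [fw, mul_max_of_nonneg _ _ (by positivity), mul_zero, mul_sub, mul_one,
      mul_div_cancel₀ _ (by positivity)]
    push_cast; rfl
  have h2 : ((max 0 (((n + 1 : ℕ) : ℤ) - |k|) : ℤ) : ℂ) = (n + 1) * fw n k := by
    rw [← ofReal_intCast, h1]; push_cast; rfl
  have h3 : (n : ℂ) + 1 ≠ 0 := by exact_mod_cast Nat.succ_ne_zero n
  rw [h2]; field_simp

def Fk (n : ℕ) (z : Ci) : ℝ := ((n : ℝ) + 1)⁻¹ * ‖∑ j ∈ range (n + 1), fourier (j : ℤ) z‖ ^ 2

lemma Fk_conv (n : ℕ) {f : Ci → ℂ} (hf : Integrable f mu) (x : Ci) :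
    ∫ y, (Fk n (x - y) : ℂ) * f y ∂mu = ((n : ℂ) + 1)⁻¹ * ∑ j ∈ range (n + 1),
      ∑ l ∈ range (n + 1), fourierCoeff f ((j : ℤ) - l) * fourier ((j : ℤ) - l) x := by
  have e : ∀ y, (Fk n (x - y) : ℂ) * f y = ((n : ℂ) + 1)⁻¹ * ∑ j ∈ range (n + 1),
      ∑ l ∈ range (n + 1), (fourier (-((j : ℤ) - l)) y • f y) * fourier ((j : ℤ) - l) x := by
    intro y
    rw [Fk]; push_cast
    rw [← Complex.mul_conj', map_sum, sum_mul_sum, mul_assoc, sum_mul]
    congr 1
    refine sum_congr rfl fun j _ => ?_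
    rw [sum_mul]
    refine sum_congr rfl fun l _ => ?_
    rw [← fourier_neg, ← fourier_add, ← sub_eq_add_neg, sub_eq_add_neg x y, fourier_add_right,
      smul_eq_mul]
    have : fourier ((j : ℤ) - l) (-y) = fourier (-((j : ℤ) - l)) y := by
      simp only [fourier_apply, smul_neg, neg_smul]
    rw [this]; ring
  simp only [e]
  rw [integral_const_mul, integral_finsetSum _ fun j _ =>
    integrable_finsetSum _ fun l _ => (hf.fourier_smul _).mul_const _]
  congr 1
  refine sum_congr rfl fun j _ => ?_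
  rw [integral_finsetSum _ fun l _ => (hf.fourier_smul _).mul_const _]
  refine sum_congr rfl fun l _ => ?_
  rw [integral_mul_const]; rfl

lemma Fej_dom {n P : ℕ} (hP : n < P) (h : X) {b : Ci → ℝ} (hb : Integrable b mu)
    (hle : ∀ y, ‖h y‖ ≤ b y) (hinv : ∀ y, b (y + ((2 * π / P : ℝ) : Ci)) = b y) :
    ‖Fej n h‖ ≤ ∫ y, b y ∂mu := by
  have hb0 : ∀ y, 0 ≤ b y := fun y => (norm_nonneg _).trans (hle y)
  refine (ContinuousMap.norm_le _ (integral_nonneg hb0)).2 fun x => ?_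
  have cF : Continuous fun y => Fk n (x - y) := by unfold Fk; fun_prop
  have F0 : ∀ z, 0 ≤ Fk n z := fun z => by unfold Fk; positivity
  have e1 : Fej n h x = ∫ y, (Fk n (x - y) : ℂ) * h y ∂mu := by
    rw [Fk_conv n (integ h.continuous)]
    simp [Fej, cf_apply, -fourier_apply]
  have e2 : ((∫ y, Fk n (x - y) * b y ∂mu : ℝ) : ℂ) = ((∫ y, b y ∂mu : ℝ) : ℂ) := by
    rw [← integral_complex_ofReal]
    push_cast
    rw [Fk_conv n (f := fun y => (b y : ℂ)) hb.ofReal]
    have e : ∀ j ∈ range (n + 1), ∑ l ∈ range (n + 1),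
        fourierCoeff (fun y => (b y : ℂ)) ((j : ℤ) - l) * fourier ((j : ℤ) - l) x =
        ((∫ y, b y ∂mu : ℝ) : ℂ) := fun j hj => by
      rw [sum_eq_single_of_mem j hj]
      · simp [fourierCoeff, integral_complex_ofReal]
      · intro l hl hlj
        rw [mem_range] at hj hl
        rw [coeff_eq_zero_of_inv (P := P) (by omega) (fun y => by rw [hinv]) (by omega)
          (by rw [abs_lt]; omega), zero_mul]
    rw [sum_congr rfl e]
    have h3 : (n : ℂ) + 1 ≠ 0 := by exact_mod_cast Nat.succ_ne_zero n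
    simp only [sum_const, card_range, nsmul_eq_mul]
    push_cast; field_simp
  rw [e1, ← ofReal_inj.1 e2]
  obtain ⟨C, hC⟩ := isCompact_univ.exists_bound_of_continuousOn cF.continuousOn
  refine norm_integral_le_of_norm_le (hb.bdd_mul (c := C) cF.aestronglyMeasurable
    (ae_of_all _ fun y => hC y trivial)) (ae_of_all _ fun y => ?_)
  rw [norm_mul, Complex.norm_real, Real.norm_eq_abs, abs_of_nonneg (F0 _)]
  gcongr
  exacts [F0 _, hle y]

lemma norm_Fej_le (n : ℕ) (h : X) : ‖Fej n h‖ ≤ ‖h‖ := by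
  simpa using Fej_dom (Nat.lt_succ_self n) h (b := fun _ => ‖h‖) (integrable_const _)
    h.norm_coe_le_norm fun _ => rfl

/-- homogenisation bound: on fine periodic majorants the operator only sees the average -/
def Dom {Y : Type*} [NormedAddCommGroup Y] [NormedSpace ℂ Y] (A : X →L[ℂ] Y) (B : ℝ) : Prop :=
  ∀ η > 0, ∃ P0 : ℕ, ∀ P ≥ P0, ∀ (h : X) (b : Ci → ℝ) (S : ℝ), Integrable b mu →
    (∀ y, ‖h y‖ ≤ b y) → (∀ y, b (y + ((2 * π / P : ℝ) : Ci)) = b y) → ‖h‖ ≤ S →
    ‖A h‖ ≤ B * ∫ y, b y ∂mu + η * S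

def aa (α : ℝ) (n : ℕ) : ℝ := if n = 0 then 2 else (n : ℝ) ^ α

def ww (α : ℝ) (n : ℕ) : ℝ := (n + 1) * (aa α n - 2 * aa α (n + 1) + aa α (n + 2))

lemma ww_nonneg {α : ℝ} (hα : α < 0) (n : ℕ) : 0 ≤ ww α n := by
  refine mul_nonneg (by positivity) ?_
  rcases Nat.eq_zero_or_pos n with rfl | hn
  · simp [aa]; positivity
  have hn' : (0 : ℝ) < n := by exact_mod_cast hn
  simp only [aa, hn.ne', Nat.succ_ne_zero, if_false]
  push_cast
  have sq : ∀ x : ℝ, 0 < x → x ^ α = (x ^ (α / 2)) ^ 2 := fun x hx => by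
    rw [← Real.rpow_natCast, ← Real.rpow_mul hx.le]; norm_num
  have h1 : ((n : ℝ) + 1) ^ α ≤ (n : ℝ) ^ (α / 2) * ((n : ℝ) + 2) ^ (α / 2) := by
    rw [← Real.mul_rpow hn'.le (by positivity)]
    calc ((n : ℝ) + 1) ^ α = (((n : ℝ) + 1) ^ 2) ^ (α / 2) := by
          rw [← Real.rpow_natCast, ← Real.rpow_mul (by positivity)]; congr 1; push_cast; ring
      _ ≤ _ := Real.rpow_le_rpow_of_nonpos (by positivity) (by nlinarith) (by linarith)
  rw [sq n hn', sq (n + 2) (by positivity)]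
  nlinarith [sq_nonneg ((n : ℝ) ^ (α / 2) - ((n : ℝ) + 2) ^ (α / 2))]

lemma fw_nonneg (n : ℕ) (k : ℤ) : 0 ≤ fw n k := le_max_left _ _

lemma hasSum_ww {α : ℝ} (hα : α < 0) (k : ℤ) :
    HasSum (fun n => ww α n * fw n k) (aa α k.natAbs) := by
  set m := k.natAbs with hm
  have hk : |(k : ℝ)| = m := by rw [hm, Nat.cast_natAbs]; simp
  rw [hasSum_iff_tendsto_nat_of_nonneg (fun n => mul_nonneg (ww_nonneg hα n) (fw_nonneg n k)),
    ← tendsto_add_atTop_iff_nat m]
  have key : ∀ M : ℕ, ∑ n ∈ range (M + m), ww α n * fw n k =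
      aa α m - aa α (M + m) - M * (aa α (M + m) - aa α (M + m + 1)) := by
    intro M
    induction M with
    | zero =>
      simp only [zero_add, sub_self, Nat.cast_zero, zero_mul]
      refine sum_eq_zero fun n hn => ?_
      have : (n : ℝ) + 1 ≤ m := by exact_mod_cast mem_range.1 hn
      rw [fw, hk, max_eq_left, mul_zero]
      rw [sub_nonpos, le_div_iff₀ (by positivity)]; linarith
    | succ M ih =>
      rw [show M + 1 + m = M + m + 1 by ring, sum_range_succ, ih, fw, hk, ww, max_eq_right]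
      · push_cast; field_simp; ring
      · rw [sub_nonneg, div_le_one (by positivity)]; push_cast
        linarith [(Nat.cast_nonneg M : (0 : ℝ) ≤ M)]
  simp only [key]
  have t0 : Tendsto (fun N : ℕ => (N : ℝ) ^ α) atTop (𝓝 0) := by
    have := (tendsto_rpow_neg_atTop (y := -α) (by linarith)).comp tendsto_natCast_atTop_atTop
    simpa [Function.comp_def] using this
  have t1 : Tendsto (fun N : ℕ => aa α N) atTop (𝓝 0) :=
    t0.congr' (by filter_upwards [eventually_gt_atTop 0] with N hN; simp [aa, hN.ne'])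
  have t2 : Tendsto (fun M : ℕ => (M : ℝ) * (aa α (M + m) - aa α (M + m + 1))) atTop (𝓝 0) := by
    have t3 := ((tendsto_add_atTop_iff_nat m).2 t0).const_mul (-α)
    rw [mul_zero] at t3
    refine squeeze_zero' ?_ ?_ t3
    · filter_upwards [eventually_gt_atTop 0] with M hM
      have : M + m ≠ 0 := by omega
      simp only [aa, this, Nat.succ_ne_zero, if_false]
      refine mul_nonneg (Nat.cast_nonneg _) (sub_nonneg.2 ?_)
      exact Real.rpow_le_rpow_of_nonpos (by positivity) (by push_cast; linarith) hα.le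
    · filter_upwards [eventually_gt_atTop 0] with M hM
      have : M + m ≠ 0 := by omega
      simp only [aa, this, Nat.succ_ne_zero, if_false]
      set N : ℝ := ((M + m : ℕ) : ℝ) with hN
      have hMN : (M : ℝ) ≤ N := by rw [hN]; exact_mod_cast Nat.le_add_right M m
      have hM' : (0 : ℝ) < M := by exact_mod_cast hM
      have hN0 : 0 < N := by linarith
      have e : ((M + m + 1 : ℕ) : ℝ) = N * (1 + N⁻¹) := by
        rw [mul_add, mul_inv_cancel₀ hN0.ne', hN]; push_cast; ring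
      have h1 : 1 + α * N⁻¹ ≤ (1 + N⁻¹) ^ α := by
        rw [Real.rpow_def_of_pos (by positivity)]
        refine le_trans ?_ (Real.add_one_le_exp _)
        have := Real.log_le_sub_one_of_pos (by positivity : 0 < 1 + N⁻¹)
        nlinarith
      rw [e, Real.mul_rpow hN0.le (by positivity)]
      have h2 : 0 < N ^ α := by positivity
      calc M * (N ^ α - N ^ α * (1 + N⁻¹) ^ α) ≤ M * (N ^ α - N ^ α * (1 + α * N⁻¹)) := by gcongr
        _ = -α * N ^ α * (M / N) := by field_simp; ring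
        _ ≤ _ := mul_le_of_le_one_right (by nlinarith) ((div_le_one hN0).2 hMN)
  simpa using (tendsto_const_nhds.sub ((tendsto_add_atTop_iff_nat m).2 t1)).sub t2

lemma hasSum_ww0 {α : ℝ} (hα : α < 0) : HasSum (ww α) 2 := by
  simpa [fw, aa] using hasSum_ww hα 0

lemma summable_Fej {α : ℝ} (hα : α < 0) : Summable fun n => (ww α n : ℂ) • Fej n := by
  refine Summable.of_norm_bounded (hasSum_ww0 hα).summable fun n => ?_
  refine ContinuousLinearMap.opNorm_le_bound _ (ww_nonneg hα n) fun h => ?_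
  rw [smul_apply, norm_smul, Complex.norm_real, Real.norm_eq_abs,
    abs_of_nonneg (ww_nonneg hα n)]
  gcongr
  exacts [ww_nonneg hα n, norm_Fej_le n h]

/-- `|D|^α` on `C(𝕋)` for `α < 0` -/
def KK (α : ℝ) : X →L[ℂ] X := ∑' n, (ww α n : ℂ) • Fej n - (2 : ℂ) • Fej 0

lemma hasSum_KK {α : ℝ} (hα : α < 0) (h : X) :
    HasSum (fun n => (ww α n : ℂ) • Fej n h) (KK α h + (2 : ℂ) • Fej 0 h) := by
  have := (ContinuousLinearMap.apply ℂ X h).hasSum (summable_Fej hα).hasSum
  simpa [KK] using this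

lemma fw_zero (k : ℤ) : fw 0 k = if k = 0 then 1 else 0 := by
  unfold fw
  split_ifs with hk
  · simp [hk]
  · have h1 : (1 : ℝ) ≤ |(k : ℝ)| := by exact_mod_cast Int.one_le_abs hk
    rw [max_eq_left (by simpa using h1)]

lemma cf_KK {α : ℝ} (hα : α < 0) (k : ℤ) (h : X) : cf k (KK α h) = sym α k * cf k h := by
  have h1 := (cf k).hasSum (hasSum_KK hα h)
  simp only [map_smul, map_add, cf_Fej, smul_eq_mul, ← mul_assoc] at h1
  have h2 := (Complex.hasSum_ofReal.2 (hasSum_ww hα k)).mul_right (cf k h)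
  push_cast at h2
  have h3 := h1.unique h2
  rw [fw_zero] at h3
  unfold sym
  unfold aa at h3
  split_ifs at h3 ⊢ with a b b
  · push_cast at h3 ⊢; linear_combination h3
  · exact absurd (by simp [a]) b
  · exact absurd (Int.natAbs_eq_zero.1 b) a
  · rw [Nat.cast_natAbs, Int.cast_abs] at h3
    push_cast at h3 ⊢; linear_combination h3

lemma dom_KK {α : ℝ} (hα : α < 0) : Dom (KK α) 4 := by
  intro η hη
  obtain ⟨P0, hP0⟩ := ((tendsto_sum_nat_add (ww α)).eventually (Iic_mem_nhds hη)).exists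
  refine ⟨P0 + 1, fun P hP h b S hb hle hinv hS => ?_⟩
  have hs := (hasSum_ww0 hα).summable
  have hb0 : 0 ≤ ∫ y, b y ∂mu := integral_nonneg fun y => (norm_nonneg _).trans (hle y)
  have hS0 : 0 ≤ S := (norm_nonneg _).trans hS
  have h1 : HasSum (fun n => ww α n * ∫ y, b y ∂mu + (if n < P0 then 0 else ww α n) * S)
      (2 * ∫ y, b y ∂mu + (∑' n, ww α (n + P0)) * S) := by
    refine ((hasSum_ww0 hα).mul_right _).add (HasSum.mul_right _ ?_)
    rw [← hasSum_nat_add_iff' P0, sum_eq_zero (fun n hn => by simp [mem_range.1 hn]), sub_zero]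
    simpa using ((summable_nat_add_iff P0).2 hs).hasSum
  have h2 := (hasSum_KK hα h).norm_le_of_bounded h1 fun n => by
    rw [norm_smul, Complex.norm_real, Real.norm_eq_abs, abs_of_nonneg (ww_nonneg hα n)]
    have w0 := ww_nonneg hα n
    split_ifs with hn
    · rw [zero_mul, add_zero]; gcongr; exact Fej_dom (by omega) h hb hle hinv
    · have := mul_le_mul_of_nonneg_left ((norm_Fej_le n h).trans hS) w0
      nlinarith [mul_nonneg w0 hb0]
  have h3 : ‖(2 : ℂ) • Fej 0 h‖ ≤ 2 * ∫ y, b y ∂mu := by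
    rw [norm_smul, Complex.norm_ofNat]; gcongr; exact Fej_dom (by omega) h hb hle hinv
  have h4 := norm_sub_le (KK α h + (2 : ℂ) • Fej 0 h) ((2 : ℂ) • Fej 0 h)
  rw [add_sub_cancel_right] at h4
  have h5 : (∑' n, ww α (n + P0)) * S ≤ η * S := by gcongr
  linarith

/-! ### The embedding into weighted `ℓ²` -/

lemma l2_sq_le {a : L2} {h : X} {ε : ℝ} (H : ∀ k, ‖a k‖ ≤ ε * ‖cf k h‖) :
    ‖a‖ ^ 2 ≤ ε ^ 2 * ∫ x, ‖h x‖ ^ 2 ∂mu :=
  hasSum_le (fun k => by rw [← mul_pow]; gcongr; exact H k) (l2_hasSum a)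
    ((parseval h).mul_left (ε ^ 2))

lemma int_sq_le (h : X) : ∫ x, ‖h x‖ ^ 2 ∂mu ≤ ‖h‖ ^ 2 :=
  (integral_mono (integ (by fun_prop)) (integrable_const (‖h‖ ^ 2)) fun x => by
    simp only; gcongr; exact h.norm_coe_le_norm x).trans (by simp)

lemma l2_le {a : L2} {h : X} {ε : ℝ} (hε : 0 ≤ ε) (H : ∀ k, ‖a k‖ ≤ ε * ‖cf k h‖) :
    ‖a‖ ≤ ε * ‖h‖ := by
  refine (pow_le_pow_iff_left₀ (norm_nonneg _) (by positivity) two_ne_zero).1 ?_
  refine (l2_sq_le H).trans ?_
  rw [mul_pow]; gcongr; exact int_sq_le h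

lemma norm_wt_mul (α : ℝ) (k : ℤ) (z : ℂ) : ‖(wt α k : ℂ) * z‖ = wt α k * ‖z‖ := by
  rw [norm_mul, Complex.norm_real, Real.norm_eq_abs, abs_of_pos (wt_pos α k)]

/-- `C(𝕋) → H^{α/2} ≅ ℓ²` -/
def WW {α : ℝ} (hα : α ≤ 0) : X →L[ℂ] L2 :=
  LinearMap.mkContinuous
    { toFun := fun f => ⟨fun k => wt α k * cf k f, memL2_of_summable
        (Summable.of_nonneg_of_le (fun _ => by positivity) (fun k => by
          rw [norm_wt_mul]
          gcongr
          · exact mul_nonneg (wt_pos α k).le (norm_nonneg _)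
          · exact mul_le_of_le_one_left (norm_nonneg _) (wt_le_one hα k)) (parseval f).summable)⟩
      map_add' := fun f g => by ext k; simp [mul_add]
      map_smul' := fun c f => by ext k; simp; ring }
    1 fun f => l2_le zero_le_one fun k => by
      change ‖(wt α k : ℂ) * cf k f‖ ≤ _
      rw [norm_wt_mul]; gcongr; exact wt_le_one hα k

lemma WW_apply {α : ℝ} (hα : α ≤ 0) (f : X) (k : ℤ) : WW hα f k = wt α k * cf k f := rfl

lemma norm_WW_le {α : ℝ} (hα : α ≤ 0) (f : X) : ‖WW hα f‖ ≤ ‖f‖ := by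
  simpa using l2_le (a := WW hα f) (h := f) zero_le_one fun k => by
    rw [WW_apply, norm_wt_mul]; gcongr; exact wt_le_one hα k

lemma ofL2_WW {α : ℝ} (hα : α ≤ 0) (f : X) : ofL2 α (WW hα f) = fourierCoeff f := by
  ext k
  have : (wt α k : ℂ) ≠ 0 := by exact_mod_cast (wt_pos α k).ne'
  rw [ofL2, WW_apply, cf_apply]; field_simp

lemma wt_small {α : ℝ} (hα : α < 0) {η : ℝ} (hη : 0 < η) :
    ∃ R : ℕ, ∀ k : ℤ, (R : ℤ) ≤ |k| → wt α k ≤ η := by
  have := (tendsto_rpow_neg_atTop (y := -(α / 2)) (by linarith)).eventually (Iic_mem_nhds hη)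
  obtain ⟨x, hx⟩ := eventually_atTop.1 this
  obtain ⟨R, hR⟩ := exists_nat_ge x
  refine ⟨R, fun k hk => ?_⟩
  have h1 : (R : ℝ) ≤ |(k : ℝ)| := by exact_mod_cast hk
  simpa [wt] using hx (1 + |(k : ℝ)|) (by linarith)

lemma dom_WW {α : ℝ} (hα : α < 0) : Dom (WW hα.le) 1 := by
  intro η hη
  obtain ⟨R, hR⟩ := wt_small hα hη
  obtain ⟨n, hn⟩ := exists_nat_ge (R / η)
  refine ⟨n + 1, fun P hP h b S hb hle hinv hS => ?_⟩
  have h1 : ‖WW hα.le (Fej n h)‖ ≤ ∫ y, b y ∂mu :=
    (norm_WW_le _ _).trans (Fej_dom (by omega) h hb hle hinv)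
  have h2 : ‖WW hα.le (h - Fej n h)‖ ≤ η * ‖h‖ := by
    refine l2_le hη.le fun k => ?_
    rw [WW_apply, norm_wt_mul, map_sub, cf_Fej, ← one_sub_mul, norm_mul, ← mul_assoc]
    gcongr
    have e : (1 : ℂ) - fw n k = ((1 - fw n k : ℝ) : ℂ) := by push_cast; rfl
    have f0 := fw_nonneg n k
    have f1 : fw n k ≤ 1 := max_le zero_le_one (by
      have : 0 ≤ |(k : ℝ)| / (n + 1) := by positivity
      linarith)
    rw [e, Complex.norm_real, Real.norm_eq_abs, abs_of_nonneg (by linarith)]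
    rcases le_total (R : ℤ) |k| with hk | hk
    · exact (mul_le_of_le_one_right (wt_pos α k).le (by linarith)).trans (hR k hk)
    · refine (mul_le_of_le_one_left (by linarith) (wt_le_one hα.le k)).trans ?_
      have h3 : 1 - |(k : ℝ)| / (n + 1) ≤ fw n k := le_max_right _ _
      have h4 : |(k : ℝ)| ≤ R := by exact_mod_cast hk
      have h5 : |(k : ℝ)| / (n + 1) ≤ η := by
        rw [div_le_iff₀ hη] at hn
        rw [div_le_iff₀ (by positivity)]; nlinarith
      linarith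
  have h3 := norm_add_le (WW hα.le (Fej n h)) (WW hα.le (h - Fej n h))
  rw [← map_add, add_sub_cancel] at h3
  have h4 : η * ‖h‖ ≤ η * S := by gcongr
  linarith

lemma cf_fourier_mul (j k : ℤ) (β : X) : cf j (fourier k * β) = cf (j - k) β := by
  simp only [cf_apply, fourierCoeff, ContinuousMap.mul_apply, smul_eq_mul, ← mul_assoc,
    ← fourier_add]
  congr 1; ext x; congr 3; ring

lemma WW_osc {α : ℝ} (hα : α < 0) (k : ℤ) {η : ℝ} (hη : 0 < η) :
    ∃ P0 : ℕ, ∀ P ≥ P0, ∀ β : X, (∀ y, β (y + ((2 * π / P : ℝ) : Ci)) = β y) → cf 0 β = 0 →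
      ‖WW hα.le (fourier k * β)‖ ≤ η * ‖β‖ := by
  obtain ⟨R, hR⟩ := wt_small hα hη
  refine ⟨R + k.natAbs + 1, fun P hP β hinv h0 => ?_⟩
  refine (l2_le (h := fourier k * β) hη.le fun j => ?_).trans ?_
  · rw [WW_apply, norm_wt_mul]
    by_cases hj : |j - k| < P
    · have : cf j (fourier k * β) = 0 := by
        rw [cf_fourier_mul]
        by_cases h : j - k = 0
        · rw [h, h0]
        · exact coeff_eq_zero_of_inv (by omega) hinv h hj
      simp [this]
    · gcongr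
      apply hR
      rcases abs_cases j with a | a <;> rcases abs_cases (j - k) with b | b <;> omega
  · gcongr
    exact (norm_mul_le _ _).trans (by rw [fourier_norm, one_mul])

end

end Pool.Agent.Lib.MMT
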