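import Pool.Agent.Lib.MMT.Flow
import Pool.Agent.Lib.MMT.Fejer
import Pool.Agent.Lib.MMT.Bubble

/-! Fast particles on a fine periodic microstructure: the frequencies barely drift. -/

namespace Pool.Agent.Lib.MMT

open Filter Topology MeasureTheory AddCircle Complex Set Metric
open scoped Real ComplexConjugate

noncomputable section

lemma mp_nsmul {P : ℕ} (hP : 0 < P) : MeasurePreserving (fun x : Ci => P • x) mu mu := by
  have := Measure.measurePreserving_zsmul (G := Ci) mu (n := (P : ℤ)) (by exact_mod_cast hP.ne')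
  simpa only [natCast_zsmul] using this

lemma int_nsmul {E : Type*} [NormedAddCommGroup E] [NormedSpace ℝ E] {P : ℕ} (hP : 0 < P)
    {β : Ci → E} (hβ : Integrable β mu) : ∫ x, β (P • x) ∂mu = ∫ x, β x ∂mu := by
  have h := mp_nsmul hP
  rw [← integral_map h.aemeasurable (by rw [h.map_eq]; exact hβ.aestronglyMeasurable), h.map_eq]

/-- the homogenisation bound at a fixed scale -/
def DomAt {Y : Type*} [NormedAddCommGroup Y] [NormedSpace ℂ Y] (A : X →L[ℂ] Y) (B ε : ℝ)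
    (P : ℕ) : Prop :=
  ∀ (h : X) (β : Ci → ℝ) (S : ℝ), Integrable β mu → (∀ x, ‖h x‖ ≤ β (P • x)) → ‖h‖ ≤ S →
    ‖A h‖ ≤ B * ∫ y, β y ∂mu + ε * S

lemma Dom.at {Y : Type*} [NormedAddCommGroup Y] [NormedSpace ℂ Y] {A : X →L[ℂ] Y} {B : ℝ}
    (h : Dom A B) {ε : ℝ} (hε : 0 < ε) : ∀ᶠ P in atTop, DomAt A B ε P := by
  obtain ⟨P0, hP0⟩ := h ε hε
  filter_upwards [eventually_ge_atTop P0, eventually_gt_atTop 0] with P h1 h2 g β S hβ hle hS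
  rw [← int_nsmul h2 hβ]
  exact hP0 P h1 g _ S ((mp_nsmul h2).integrable_comp_of_integrable hβ) hle
    (fun y => by simp only [nsmul_shift h2]) hS

/-- indicator of a ball -/
def bl (c : Ci) (r : ℝ) : Ci → ℝ := (closedBall c r).indicator fun _ => 1

lemma bl_nonneg (c : Ci) (r : ℝ) (x : Ci) : 0 ≤ bl c r x :=
  indicator_nonneg (fun _ _ => zero_le_one) x

lemma bl_of_le {c : Ci} {r : ℝ} {x : Ci} (h : ‖x - c‖ ≤ r) : bl c r x = 1 :=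
  indicator_of_mem (mem_closedBall_iff_norm.2 h) _

lemma integrable_bl (c : Ci) (r : ℝ) : Integrable (bl c r) mu :=
  (integrable_const _).indicator measurableSet_closedBall

lemma int_bl (c : Ci) {r : ℝ} (hr : 0 ≤ r) : ∫ x, bl c r x ∂mu ≤ r / 3 := by
  rw [bl, integral_indicator_const _ measurableSet_closedBall, smul_eq_mul, mul_one]
  exact mu_ball_le c hr

/-- majorant of the indicator of an annulus -/
def nb (ρ δ : ℝ) (x : Ci) : ℝ := bl (ρ : Ci) δ x + bl (-(ρ : Ci)) δ x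

lemma nb_nonneg (ρ δ : ℝ) (x : Ci) : 0 ≤ nb ρ δ x := add_nonneg (bl_nonneg _ _ _) (bl_nonneg _ _ _)

lemma one_le_nb {ρ δ : ℝ} {x : Ci} (h : |‖x‖ - ρ| ≤ δ) : 1 ≤ nb ρ δ x := by
  obtain ⟨y, rfl, hy⟩ := exists_coe_norm x
  rw [hy] at h
  rcases le_total 0 y with h0 | h0
  · rw [abs_of_nonneg h0] at h
    rw [nb, bl_of_le (by rw [← QuotientAddGroup.mk_sub]; exact (norm_coe_le _).trans h)]
    linarith [bl_nonneg (-(ρ : Ci)) δ y]
  · rw [abs_of_nonpos h0, show -y - ρ = -(y + ρ) by ring, abs_neg] at h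
    rw [nb, bl_of_le (c := -(ρ : Ci)) (by
      rw [sub_neg_eq_add, ← QuotientAddGroup.mk_add]; exact (norm_coe_le _).trans h)]
    linarith [bl_nonneg (ρ : Ci) δ y]

lemma integrable_nb (ρ δ : ℝ) : Integrable (nb ρ δ) mu :=
  (integrable_bl _ _).add (integrable_bl _ _)

lemma int_nb (ρ : ℝ) {δ : ℝ} (hδ : 0 ≤ δ) : ∫ x, nb ρ δ x ∂mu ≤ δ := by
  unfold nb
  rw [integral_add (integrable_bl _ _) (integrable_bl _ _)]
  linarith [int_bl (ρ : Ci) hδ, int_bl (-(ρ : Ci)) hδ]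

lemma osc_far {z f w g : ℝ → ℂ} {T C r : ℝ} (hz : Cub z f) (hw : Cub w g) (hC : 1 ≤ C)
    (hT : T ≤ C) (hf : ∀ s, |s| ≤ T → ‖f s‖ ≤ C) (hg : ∀ s, |s| ≤ T → ‖g s‖ ≤ C)
    (hr : 4 * C ≤ r) (ha : ∀ s, |s| ≤ T → |‖z s‖ - r| ≤ C) (hb : ∀ s, |s| ≤ T → ‖w s‖ ≤ C)
    {t : ℝ} (ht : |t| ≤ T) : ‖∫ s in (0 : ℝ)..t, conj (z s) * w s‖ ≤ 26 * C ^ 2 / r := by
  have hr0 : 0 < r := by linarith
  have hT0 : 0 ≤ T := (abs_nonneg t).trans ht
  refine (hz.osc hw hf hg (ρ := 2 * r) (σ := C) (Λ := r ^ 2 / 2) (by positivity)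
    (fun s hs => by linarith [(abs_le.1 (ha s hs)).2]) hb (fun s hs => ?_) ht).trans ?_
  · refine le_trans ?_ (le_abs_self _)
    have h1 : 3 * r / 4 ≤ ‖z s‖ := by linarith [(abs_le.1 (ha s hs)).1]
    have h2 : ‖w s‖ ≤ r / 4 := by linarith [hb s hs]
    have h3 : (3 * r / 4) ^ 2 ≤ ‖z s‖ ^ 2 := by gcongr
    have h4 : ‖w s‖ ^ 2 ≤ (r / 4) ^ 2 := by gcongr
    linarith
  · calc _ ≤ 2 * (2 * r * C ^ 2 / (r ^ 2 / 2)) + (C * (2 * r + r) / (r ^ 2 / 2) +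
          2 * r * (r / 4) * (2 * C * (2 * r + r)) / (r ^ 2 / 2) ^ 2) * C := by
          gcongr
          · nlinarith
          · linarith
          · linarith
          · linarith
      _ = _ := by field_simp; ring

/-- The data of the insertion step. -/
structure Setup (K : X →L[ℂ] X) (U : ℝ → X) (C T θ q ε : ℝ) (P : ℕ) : Prop where
  sol : IsSol K U
  dom : DomAt K C ε P
  hC : 1 ≤ C
  hT : T ≤ C
  hθ : 0 < θ
  hθq : θ * q ^ 4 ≤ C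
  hq : 16008 * C ^ 4 ≤ q
  hε0 : 0 ≤ ε
  hε : ε * (4 * C * q ^ 8) ≤ 1 / q
  hF : ∀ s, |s| ≤ T → ‖K (U s)‖ ≤ C
  amp : ∀ s, |s| ≤ T → ∀ x, |‖U s x‖ - ‖U 0 x‖| ≤ C
  inn : ∀ x, ‖P • x‖ ≤ θ → ‖U 0 x‖ ^ 2 = q ^ 8 * tent θ (P • x)
  out : ∀ x, θ ≤ ‖P • x‖ → ∀ s, |s| ≤ T → ‖U s x‖ ≤ C
  top : ∀ x, ‖U 0 x‖ ≤ q ^ 4

variable {K : X →L[ℂ] X} {U : ℝ → X} {C T θ q ε : ℝ} {P : ℕ}

lemma Setup.q_ge (H : Setup K U C T θ q ε P) : 16008 * C ≤ q := by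
  have := H.hC
  refine le_trans ?_ H.hq
  gcongr
  exact le_self_pow₀ H.hC (by norm_num)

lemma Setup.one_le_q (H : Setup K U C T θ q ε P) : 1 ≤ q := by linarith [H.q_ge, H.hC]

lemma Setup.force (H : Setup K U C T θ q ε P) (x : Ci) (s : ℝ) (hs : |s| ≤ T) :
    ‖K (U s) x‖ ≤ C := ((K (U s)).norm_coe_le_norm x).trans (H.hF s hs)

lemma Setup.all (H : Setup K U C T θ q ε P) (x : Ci) (s : ℝ) (hs : |s| ≤ T) :
    ‖U s x‖ ≤ 2 * q ^ 4 := by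
  have h1 : q ≤ q ^ 4 := le_self_pow₀ H.one_le_q (by norm_num)
  linarith [(abs_le.1 (H.amp s hs x)).2, H.top x, H.q_ge, H.hC]

lemma Setup.crude (H : Setup K U C T θ q ε P) (x : Ci) {s : ℝ} (hs : |s| ≤ T) {ρ : ℝ}
    (hρ : ‖U 0 x‖ ≤ ρ) (hρC : C ≤ ρ) : |‖U s x‖ ^ 2 - ‖U 0 x‖ ^ 2| ≤ 3 * C * ρ := by
  have h1 := H.amp s hs x
  have h2 : ‖U s x‖ + ‖U 0 x‖ ≤ 3 * ρ := by linarith [(abs_le.1 h1).2]
  rw [sq_sub_sq, abs_mul, abs_of_nonneg (by positivity)]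
  calc _ ≤ 3 * ρ * C := by gcongr; linarith [H.hC]
    _ = _ := by ring

lemma int_apply {u : ℝ → X} (hu : Continuous u) (t : ℝ) (x : Ci) :
    (∫ s in (0 : ℝ)..t, u s) x = ∫ s in (0 : ℝ)..t, u s x :=
  ((ContinuousMap.evalCLM ℂ x : X →L[ℂ] ℂ).intervalIntegral_comp_comm
    (hu.intervalIntegrable 0 t)).symm

lemma int_four {a b c d x y z : ℝ} {f g h : Ci → ℝ} (hb : 0 ≤ b) (hc : 0 ≤ c) (hd : 0 ≤ d)
    (hf : Integrable f mu) (hg : Integrable g mu) (hh : Integrable h mu)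
    (h1 : ∫ t, f t ∂mu ≤ x) (h2 : ∫ t, g t ∂mu ≤ y) (h3 : ∫ t, h t ∂mu ≤ z) :
    ∫ t, (a + b * f t + c * g t + d * h t) ∂mu ≤ a + b * x + c * y + d * z := by
  have i1 : Integrable (fun t => a + b * f t) mu := (integrable_const a).add (hf.const_mul b)
  have i2 : Integrable (fun t => a + b * f t + c * g t) mu := i1.add (hg.const_mul c)
  rw [integral_add i2 (hh.const_mul d), integral_add i1 (hg.const_mul c),
    integral_add (integrable_const a) (hf.const_mul b), integral_const_mul, integral_const_mul,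
    integral_const_mul]
  simp only [integral_const, probReal_univ, smul_eq_mul, one_mul]
  gcongr

lemma Setup.pass (H : Setup K U C T θ q ε P) {Λ1 Λ2 : ℝ} (h1 : 0 < Λ1) (h12 : Λ1 ≤ Λ2)
    (hD : ∀ x s, |s| ≤ T → |‖U s x‖ ^ 2 - ‖U 0 x‖ ^ 2| ≤ Λ1 / 4) {x : Ci}
    (hx : q ^ 2 ≤ ‖U 0 x‖) {t : ℝ} (ht : |t| ≤ T) :
    |‖U t x‖ ^ 2 - ‖U 0 x‖ ^ 2| ≤ 2 * (C * (26 * C ^ 2 / q ^ 2 + 4 * C * q ^ 8 * (θ * Λ1 / q ^ 8) +
      128 * C ^ 2 * (q ^ 8 / Λ1 + q ^ 12 / Λ1 ^ 2) * (θ * Λ2 / q ^ 8) +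
      128 * C ^ 2 * (q ^ 8 / Λ2 + q ^ 12 / Λ2 ^ 2) * θ) + 1 / q) := by
  have hq1 := H.one_le_q
  have hC := H.hC
  have hθ := H.hθ
  have hq0 : 0 < q := by linarith
  have hqq : q ≤ q ^ 2 := le_self_pow₀ hq1 (by norm_num)
  have cU := H.sol.cont
  have cx : ∀ y, Continuous fun s => U s y := fun y => (H.sol.cub y).cont
  refine ((H.sol.cub x).drift t).trans (mul_le_mul_of_nonneg_left ?_ zero_le_two)
  obtain ⟨h, hh⟩ : ∃ h : X, h = ∫ s in (0 : ℝ)..t, conj (U s x) • U s := ⟨_, rfl⟩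
  have ch : Continuous fun s => conj (U s x) • U s := by have := cx x; fun_prop
  have e1 : ∫ s in (0 : ℝ)..t, conj (U s x) * K (U s) x = K h x := by
    rw [hh, ← K.intervalIntegral_comp_comm (ch.intervalIntegrable 0 t),
      int_apply (u := fun s => K (conj (U s x) • U s)) (K.continuous.comp ch)]
    simp
  have e2 : ∀ y, h y = ∫ s in (0 : ℝ)..t, conj (U s x) * U s y := fun y => by
    rw [hh, int_apply ch]; rfl
  have triv : ∀ y, ‖h y‖ ≤ 4 * C * q ^ 8 := fun y => by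
    rw [e2]
    refine (norm_int_le (C := 2 * q ^ 4 * (2 * q ^ 4)) ht fun s hs => ?_).trans ?_
    · rw [norm_mul, Complex.norm_conj]; gcongr <;> exact H.all _ s hs
    · calc _ ≤ 2 * q ^ 4 * (2 * q ^ 4) * C := by gcongr; exact H.hT
        _ = _ := by ring
  obtain ⟨G, hG⟩ : ∃ G : ℝ → ℝ, ∀ Λ, G Λ = 128 * C ^ 2 * (q ^ 8 / Λ + q ^ 12 / Λ ^ 2) :=
    ⟨_, fun _ => rfl⟩
  have sep : ∀ Λ y, Λ1 ≤ Λ → Λ ≤ |‖U 0 x‖ ^ 2 - ‖U 0 y‖ ^ 2| → ‖h y‖ ≤ G Λ := by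
    intro Λ y hΛ hy
    have hΛ0 : 0 < Λ := by linarith
    rw [e2]
    refine ((H.sol.cub x).osc (H.sol.cub y) (H.force x) (H.force y) (Λ := Λ / 2) (by positivity)
      (H.all x) (H.all y) (fun s hs => ?_) ht).trans ?_
    · have a1 := abs_le.1 (hD x s hs)
      have a2 := abs_le.1 (hD y s hs)
      rcases le_abs.1 hy with a | a
      · exact le_abs.2 (Or.inl (by linarith))
      · exact le_abs.2 (Or.inr (by linarith))
    · have b1 : q ^ 4 ≤ q ^ 8 := pow_le_pow_right₀ hq1 (by norm_num)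
      have b2 : 1 ≤ C ^ 2 := one_le_pow₀ hC
      calc _ ≤ 2 * (2 * q ^ 4 * (2 * q ^ 4) / (Λ / 2)) + (C * (2 * q ^ 4 + 2 * q ^ 4) / (Λ / 2) +
            2 * q ^ 4 * (2 * q ^ 4) * (2 * C * (2 * q ^ 4 + 2 * q ^ 4)) / (Λ / 2) ^ 2) * C := by
            gcongr; exact H.hT
        _ = (16 * q ^ 8 + 8 * C ^ 2 * q ^ 4) / Λ + 128 * C ^ 2 * (q ^ 12 / Λ ^ 2) := by
            field_simp; ring
        _ ≤ (128 * C ^ 2 * q ^ 8) / Λ + 128 * C ^ 2 * (q ^ 12 / Λ ^ 2) := by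
            gcongr
            have : 0 < q ^ 8 := by positivity
            nlinarith [mul_le_mul_of_nonneg_left b1 (sq_nonneg C)]
        _ = G Λ := by simp only [hG]; ring
  obtain ⟨ρ, hρ⟩ : ∃ ρ : ℝ, ρ = θ * (1 - ‖U 0 x‖ ^ 2 / q ^ 8) := ⟨_, rfl⟩
  have near : ∀ Λ y, ‖P • y‖ ≤ θ → |‖U 0 x‖ ^ 2 - ‖U 0 y‖ ^ 2| ≤ Λ →
      1 ≤ nb ρ (θ * Λ / q ^ 8) (P • y) := by
    intro Λ y hy hΛ
    apply one_le_nb
    rw [H.inn y hy, tent, max_eq_right (by rw [sub_nonneg, div_le_one hθ]; exact hy)] at hΛ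
    have e : ‖P • y‖ - ρ = θ / q ^ 8 * (‖U 0 x‖ ^ 2 - q ^ 8 * (1 - ‖P • y‖ / θ)) := by
      rw [hρ]; field_simp; ring
    rw [e, abs_mul, abs_of_pos (by positivity : 0 < θ / q ^ 8), mul_div_right_comm]
    gcongr
  have G0 : ∀ Λ, 0 < Λ → 0 ≤ G Λ := fun Λ hΛ => by simp only [hG]; positivity
  have h2 : 0 < Λ2 := by linarith
  rw [e1, ← hG, ← hG]
  have hb : ∀ y, ‖h y‖ ≤ 26 * C ^ 2 / q ^ 2 + 4 * C * q ^ 8 * nb ρ (θ * Λ1 / q ^ 8) (P • y) +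
      G Λ1 * nb ρ (θ * Λ2 / q ^ 8) (P • y) + G Λ2 * bl 0 θ (P • y) := by
    intro y
    have n0 : 0 ≤ 26 * C ^ 2 / q ^ 2 := by positivity
    have n1 : 0 ≤ 4 * C * q ^ 8 * nb ρ (θ * Λ1 / q ^ 8) (P • y) :=
      mul_nonneg (by positivity) (nb_nonneg _ _ _)
    have n2 := mul_nonneg (G0 Λ1 h1) (nb_nonneg ρ (θ * Λ2 / q ^ 8) (P • y))
    have n3 := mul_nonneg (G0 Λ2 h2) (bl_nonneg 0 θ (P • y))
    rcases le_total θ ‖P • y‖ with hy | hy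
    · have : ‖h y‖ ≤ 26 * C ^ 2 / q ^ 2 := by
        rw [e2]
        refine (osc_far (H.sol.cub x) (H.sol.cub y) hC H.hT (H.force x) (H.force y)
          (r := ‖U 0 x‖) (by linarith [H.q_ge]) (fun s hs => H.amp s hs x) (H.out y hy) ht).trans ?_
        exact div_le_div_of_nonneg_left (by positivity) (by positivity) hx
      linarith
    rcases le_total |‖U 0 x‖ ^ 2 - ‖U 0 y‖ ^ 2| Λ1 with a | a
    · have := le_mul_of_one_le_right (by positivity : 0 ≤ 4 * C * q ^ 8) (near Λ1 y hy a)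
      linarith [triv y]
    rcases le_total |‖U 0 x‖ ^ 2 - ‖U 0 y‖ ^ 2| Λ2 with b | b
    · have := le_mul_of_one_le_right (G0 Λ1 h1) (near Λ2 y hy b)
      linarith [sep Λ1 y le_rfl a]
    · rw [bl_of_le (c := 0) (r := θ) (x := P • y) (by rw [sub_zero]; exact hy)] at n3 ⊢
      linarith [sep Λ2 y h12 b]
  have hi : Integrable (fun y => 26 * C ^ 2 / q ^ 2 + 4 * C * q ^ 8 * nb ρ (θ * Λ1 / q ^ 8) y +
      G Λ1 * nb ρ (θ * Λ2 / q ^ 8) y + G Λ2 * bl 0 θ y) mu :=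
    (((integrable_const _).add ((integrable_nb _ _).const_mul _)).add
      ((integrable_nb _ _).const_mul _)).add ((integrable_bl _ _).const_mul _)
  have hd := H.dom h _ (4 * C * q ^ 8) hi hb ((ContinuousMap.norm_le _ (by positivity)).2 triv)
  refine ((K h).norm_coe_le_norm x).trans (hd.trans (add_le_add ?_ H.hε))
  refine mul_le_mul_of_nonneg_left ?_ (by linarith)
  exact int_four (by positivity) (G0 Λ1 h1) (G0 Λ2 h2) (integrable_nb _ _) (integrable_nb _ _)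
    (integrable_bl _ _) (int_nb _ (by positivity)) (int_nb _ (by positivity))
    (by linarith [int_bl 0 hθ.le])

lemma Setup.drift (H : Setup K U C T θ q ε P) {x : Ci} (hx : q ^ 2 ≤ ‖U 0 x‖) {t : ℝ}
    (ht : |t| ≤ T) : |‖U t x‖ ^ 2 - ‖U 0 x‖ ^ 2| ≤ 1202 * C ^ 4 / q := by
  have hq1 := H.one_le_q
  have hC := H.hC
  have hθ := H.hθ
  have hq0 : 0 < q := by linarith
  have hC0 : 0 < C := by linarith
  have hqC := H.q_ge
  have hθ' : θ ≤ C / q ^ 4 := by rw [le_div_iff₀ (by positivity)]; exact H.hθq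
  have c23 : C ^ 2 ≤ C ^ 3 := pow_le_pow_right₀ hC (by norm_num)
  have c4 : 1 ≤ C ^ 4 := one_le_pow₀ hC
  have q4 : q ≤ q ^ 4 := le_self_pow₀ hq1 (by norm_num)
  have q2 : q ≤ q ^ 2 := le_self_pow₀ hq1 (by norm_num)
  have p1 : ∀ x, q ^ 2 ≤ ‖U 0 x‖ → ∀ s, |s| ≤ T → |‖U s x‖ ^ 2 - ‖U 0 x‖ ^ 2| ≤ 4002 * C ^ 4 := by
    intro x hx s hs
    refine (H.pass (Λ1 := 12 * C * q ^ 4) (by positivity) le_rfl (fun y s hs =>
      (H.crude y hs (H.top y) (by linarith)).trans (le_of_eq (by ring))) hx hs).trans ?_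
    have a1 : 26 * C ^ 2 / q ^ 2 ≤ 26 * C ^ 3 :=
      (div_le_self (by positivity) (by linarith)).trans (by linarith)
    have a2 : 4 * C * q ^ 8 * (θ * (12 * C * q ^ 4) / q ^ 8) ≤ 48 * C ^ 3 := by
      calc _ ≤ 4 * C * q ^ 8 * (C / q ^ 4 * (12 * C * q ^ 4) / q ^ 8) := by gcongr
        _ = _ := by field_simp; ring
    have a3 : q ^ 8 / (12 * C * q ^ 4) + q ^ 12 / (12 * C * q ^ 4) ^ 2 ≤ q ^ 4 := by
      calc _ ≤ q ^ 8 / (2 * q ^ 4) + q ^ 12 / (2 * q ^ 4) ^ 2 := by gcongr <;> linarith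
        _ = 3 / 4 * q ^ 4 := by field_simp; ring
        _ ≤ _ := by linarith
    have a4 : θ * (12 * C * q ^ 4) / q ^ 8 ≤ θ := by
      rw [mul_div_assoc]
      refine mul_le_of_le_one_right hθ.le ?_
      rw [div_le_one (by positivity), show q ^ 8 = q ^ 4 * q ^ 4 by ring]
      gcongr; linarith
    have a5 : 128 * C ^ 2 * q ^ 4 * θ ≤ 128 * C ^ 3 := by
      calc _ = 128 * C ^ 2 * (θ * q ^ 4) := by ring
        _ ≤ 128 * C ^ 2 * C := by gcongr; exact H.hθq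
        _ = _ := by ring
    have a6 : 1 / q ≤ 1 := (div_le_one hq0).2 hq1
    calc _ ≤ 2 * (C * (26 * C ^ 3 + 48 * C ^ 3 + 128 * C ^ 2 * q ^ 4 * θ +
          128 * C ^ 2 * q ^ 4 * θ) + 1) := by gcongr
      _ ≤ 2 * (C * (26 * C ^ 3 + 48 * C ^ 3 + 128 * C ^ 3 + 128 * C ^ 3) + 1) := by gcongr
      _ ≤ _ := by nlinarith
  have q3 : q ≤ q ^ 3 := le_self_pow₀ hq1 (by norm_num)
  refine (H.pass (Λ1 := q ^ 3) (Λ2 := q ^ 5) (by positivity)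
    (pow_le_pow_right₀ hq1 (by norm_num)) (fun y s hs => ?_) hx ht).trans ?_
  · rcases le_total (q ^ 2) ‖U 0 y‖ with hy | hy
    · linarith [p1 y hy s hs, H.hq]
    · refine (H.crude y hs hy (by linarith)).trans ?_
      nlinarith [sq_nonneg q]
  · have a1 : 26 * C ^ 2 / q ^ 2 ≤ 26 * C ^ 3 / q := by gcongr
    have a2 : 4 * C * q ^ 8 * (θ * q ^ 3 / q ^ 8) ≤ 4 * C ^ 3 / q := by
      calc _ ≤ 4 * C * q ^ 8 * (C / q ^ 4 * q ^ 3 / q ^ 8) := by gcongr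
        _ = 4 * C ^ 2 / q := by field_simp
        _ ≤ _ := by gcongr
    have a3 : 128 * C ^ 2 * (q ^ 8 / q ^ 3 + q ^ 12 / (q ^ 3) ^ 2) * (θ * q ^ 5 / q ^ 8) ≤
        256 * C ^ 3 / q := by
      calc _ ≤ 128 * C ^ 2 * (q ^ 9 / q ^ 3 + q ^ 12 / (q ^ 3) ^ 2) *
            (C / q ^ 4 * q ^ 5 / q ^ 8) := by gcongr; norm_num
        _ = _ := by field_simp; ring
    have a4 : 128 * C ^ 2 * (q ^ 8 / q ^ 5 + q ^ 12 / (q ^ 5) ^ 2) * θ ≤ 256 * C ^ 3 / q := by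
      calc _ ≤ 128 * C ^ 2 * (q ^ 8 / q ^ 5 + q ^ 13 / (q ^ 5) ^ 2) * (C / q ^ 4) := by
            gcongr; norm_num
        _ = _ := by field_simp; ring
    calc _ ≤ 2 * (C * (26 * C ^ 3 / q + 4 * C ^ 3 / q + 256 * C ^ 3 / q + 256 * C ^ 3 / q) +
          C ^ 4 / q) := by gcongr
      _ = 1086 * C ^ 4 / q := by ring
      _ ≤ _ := by gcongr; norm_num

end

end Pool.Agent.Lib.MMT
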