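import Mathlib

/-! ODE tools: integral Gronwall, gluing, smooth dependence of a global flow, scalar estimates. -/

namespace Pool.Agent.Lib.MMT

open Filter Topology MeasureTheory Complex Set Metric
open scoped Real ComplexConjugate NNReal

noncomputable section

lemma hasDerivAt_int {E : Type*} [NormedAddCommGroup E] [NormedSpace ℝ E] [CompleteSpace E]
    {f : ℝ → E} (hf : Continuous f) (b : ℝ) : HasDerivAt (fun u => ∫ x in (0 : ℝ)..u, f x) (f b) b :=
  (hf.integral_hasStrictDerivAt 0 b).hasDerivAt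

lemma gronwall_pos {W : ℝ → ℝ} (hW : Continuous W) (h0 : ∀ t, 0 ≤ W t) {ε L T : ℝ} (hL : 0 ≤ L)
    (h : ∀ t ∈ Icc 0 T, W t ≤ ε + L * |∫ s in (0 : ℝ)..t, W s|) :
    ∀ t ∈ Icc 0 T, W t ≤ ε * Real.exp (L * T) := by
  intro t ht
  have hε : 0 ≤ ε := by simpa using (h0 0).trans (h 0 ⟨le_rfl, ht.1.trans ht.2⟩)
  have hd : ∀ s, HasDerivAt (fun t => ε + L * ∫ s in (0 : ℝ)..t, W s) (L * W s) s := fun s =>
    ((hasDerivAt_int hW s).const_mul L).const_add ε
  have hI : ∀ s, 0 ≤ s → 0 ≤ ∫ s in (0 : ℝ)..s, W s := fun s hs =>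
    intervalIntegral.integral_nonneg hs fun _ _ => h0 _
  have := norm_le_gronwallBound_of_norm_deriv_right_le (a := 0) (b := T) (δ := ε) (K := L) (ε := 0)
    (fun s _ => (hd s).continuousAt.continuousWithinAt) (fun s _ => (hd s).hasDerivWithinAt)
    (by simp [abs_of_nonneg hε]) (fun s hs => by
      have h1 := h s (Ico_subset_Icc_self hs)
      have h2 := hI s hs.1
      rw [abs_of_nonneg h2] at h1
      rw [Real.norm_eq_abs, Real.norm_eq_abs, abs_of_nonneg (mul_nonneg hL (h0 s)),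
        abs_of_nonneg (by positivity), add_zero]
      gcongr) t ht
  rw [gronwallBound_ε0, sub_zero, Real.norm_eq_abs] at this
  have h1 := h t ht
  rw [abs_of_nonneg (hI t ht.1)] at h1
  calc W t ≤ _ := h1
    _ ≤ _ := le_abs_self _
    _ ≤ _ := this
    _ ≤ _ := by gcongr; exact ht.2

lemma gronwall {W : ℝ → ℝ} (hW : Continuous W) (h0 : ∀ t, 0 ≤ W t) {ε L T : ℝ} (hL : 0 ≤ L)
    (h : ∀ t, |t| ≤ T → W t ≤ ε + L * |∫ s in (0 : ℝ)..t, W s|) :
    ∀ t, |t| ≤ T → W t ≤ ε * Real.exp (L * T) := by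
  intro t ht
  rcases le_total 0 t with h1 | h1
  · exact gronwall_pos hW h0 hL (fun s hs => h s (by rw [abs_of_nonneg hs.1]; exact hs.2)) t
      ⟨h1, (le_abs_self t).trans ht⟩
  · have := gronwall_pos (W := fun s => W (-s)) (hW.comp continuous_neg) (fun s => h0 _) hL
      (ε := ε) (T := T) (fun s hs => by
        rw [intervalIntegral.integral_comp_neg, neg_zero, intervalIntegral.integral_symm, abs_neg]
        exact h (-s) (by rw [abs_neg, abs_of_nonneg hs.1]; exact hs.2)) (-t)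
      ⟨by linarith, (neg_le_abs t).trans ht⟩
    simpa using this

section abstract

variable {E : Type*} [NormedAddCommGroup E] [NormedSpace ℝ E]

/-- Lipschitz on every ball. -/
def LipB (F : E → E) : Prop := ∀ R : ℝ, ∃ L : ℝ≥0, LipschitzOnWith L F (closedBall 0 R)

lemma uniq {F : E → E} (hF : LipB F) {a : ℝ} {x y : ℝ → E}
    (hx : ∀ t ∈ Ioo (-a) a, HasDerivAt x (F (x t)) t)
    (hy : ∀ t ∈ Ioo (-a) a, HasDerivAt y (F (y t)) t) (h0 : x 0 = y 0) :
    ∀ t ∈ Ioo (-a) a, x t = y t := by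
  intro t ht
  obtain ⟨r, hr1, hr2⟩ := exists_between (abs_lt.2 ht)
  have hsub : Icc (-r) r ⊆ Ioo (-a) a := fun s hs => ⟨by linarith [hs.1], by linarith [hs.2]⟩
  have cx : ContinuousOn x (Icc (-r) r) := fun s hs =>
    (hx s (hsub hs)).continuousAt.continuousWithinAt
  have cy : ContinuousOn y (Icc (-r) r) := fun s hs =>
    (hy s (hsub hs)).continuousAt.continuousWithinAt
  obtain ⟨B1, hB1⟩ := isCompact_Icc.exists_bound_of_continuousOn cx
  obtain ⟨B2, hB2⟩ := isCompact_Icc.exists_bound_of_continuousOn cy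
  obtain ⟨L, hL⟩ := hF (max B1 B2)
  have hr0 : 0 < r := (abs_nonneg t).trans_lt hr1
  exact ODE_solution_unique_of_mem_Icc (v := fun _ => F) (s := fun _ => closedBall 0 (max B1 B2))
    (t₀ := 0) (fun _ _ => hL) ⟨by linarith, hr0⟩ cx
    (fun s hs => hx s (hsub (Ioo_subset_Icc_self hs)))
    (fun s hs => mem_closedBall_zero_iff.2
      ((hB1 s (Ioo_subset_Icc_self hs)).trans (le_max_left _ _))) cy
    (fun s hs => hy s (hsub (Ioo_subset_Icc_self hs)))
    (fun s hs => mem_closedBall_zero_iff.2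
      ((hB2 s (Ioo_subset_Icc_self hs)).trans (le_max_right _ _))) h0
    ⟨(abs_lt.1 hr1).1.le, (abs_lt.1 hr1).2.le⟩

lemma uniq_global {F : E → E} (hF : LipB F) {x y : ℝ → E}
    (hx : ∀ t, HasDerivAt x (F (x t)) t) (hy : ∀ t, HasDerivAt y (F (y t)) t) (h0 : x 0 = y 0)
    (t : ℝ) : x t = y t :=
  uniq hF (a := |t| + 1) (fun s _ => hx s) (fun s _ => hy s) h0 t (abs_lt.1 (by linarith))

lemma glue {F : E → E} (hF : LipB F) {w : E}
    (h : ∀ n : ℕ, ∃ x : ℝ → E, x 0 = w ∧ ∀ t ∈ Ioo (-(n : ℝ)) n, HasDerivAt x (F (x t)) t) :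
    ∃ x : ℝ → E, x 0 = w ∧ ∀ t, HasDerivAt x (F (x t)) t := by
  choose x hx0 hx using h
  have key : ∀ n m : ℕ, ∀ t : ℝ, |t| < n → |t| < m → x n t = x m t := by
    intro n m t h1 h2
    refine uniq hF (a := min (n : ℝ) m) (fun s hs => hx n s ?_) (fun s hs => hx m s ?_)
      (by rw [hx0, hx0]) t (abs_lt.1 (lt_min h1 h2))
    · exact abs_lt.1 ((abs_lt.2 hs).trans_le (min_le_left _ _))
    · exact abs_lt.1 ((abs_lt.2 hs).trans_le (min_le_right _ _))
  have hc : ∀ t : ℝ, |t| < (⌊|t|⌋₊ + 1 : ℕ) := fun t => by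
    push_cast; exact Nat.lt_floor_add_one _
  refine ⟨fun t => x (⌊|t|⌋₊ + 1) t, hx0 _, fun t => ?_⟩
  refine (hx _ t (abs_lt.1 (hc t))).congr_of_eventuallyEq ?_
  have : ∀ᶠ s : ℝ in 𝓝 t, |s| < ((⌊|t|⌋₊ + 1 : ℕ) : ℝ) :=
    continuous_abs.continuousAt.eventually (Iio_mem_nhds (hc t))
  filter_upwards [this] with s hs using key _ _ s (hc s) hs

lemma exists_global_of_bounded [CompleteSpace E] {F : E → E} (hF : LipB F) {B : ℝ}
    (hB : ∀ u, ‖F u‖ ≤ B) (w : E) : ∃ x : ℝ → E, x 0 = w ∧ ∀ t, HasDerivAt x (F (x t)) t := by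
  refine glue hF fun n => ?_
  have hB0 : 0 ≤ B := (norm_nonneg _).trans (hB 0)
  obtain ⟨L, hL⟩ := hF (‖w‖ + B * n)
  have hn : (0 : ℝ) ≤ n := Nat.cast_nonneg n
  have hpl : IsPicardLindelof (fun _ => F) (tmin := -(n : ℝ)) (tmax := n)
      ⟨0, by simp⟩ w ⟨B * n, by positivity⟩ 0 ⟨B, hB0⟩ L := by
    refine IsPicardLindelof.of_time_independent (fun x _ => hB x) (hL.mono fun x hx => ?_)
      (by simp; rfl)
    rw [mem_closedBall_iff_norm] at hx
    rw [mem_closedBall_zero_iff]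
    exact (norm_le_insert' x w).trans (by gcongr; exact hx)
  obtain ⟨x, hx0, hx⟩ := hpl.exists_eq_forall_mem_Icc_hasDerivWithinAt₀
  exact ⟨x, hx0, fun t ht => (hx t (Ioo_subset_Icc_self ht)).hasDerivAt (Icc_mem_nhds ht.1 ht.2)⟩

variable [CompleteSpace E]

/-- Integration from `0` on `C([0,1], E)`. -/
def intOp (E : Type*) [NormedAddCommGroup E] [NormedSpace ℝ E] [CompleteSpace E] :
    C(Icc (0 : ℝ) 1, E) →L[ℝ] C(Icc (0 : ℝ) 1, E) :=
  LinearMap.mkContinuous
    { toFun := fun v => ⟨fun s => ∫ τ in (0 : ℝ)..s, v (projIcc 0 1 zero_le_one τ),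
        (continuous_iff_continuousAt.2 fun s => (hasDerivAt_int
          (v.continuous.comp continuous_projIcc) s).continuousAt).comp continuous_subtype_val⟩
      map_add' := fun v w => by
        ext s
        exact intervalIntegral.integral_add
          ((v.continuous.comp continuous_projIcc).intervalIntegrable _ _)
          ((w.continuous.comp continuous_projIcc).intervalIntegrable _ _)
      map_smul' := fun c v => by
        ext s
        exact intervalIntegral.integral_smul c _ }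
    1 fun v => by
      rw [one_mul]
      refine (ContinuousMap.norm_le _ (norm_nonneg v)).2 fun s => ?_
      refine (intervalIntegral.norm_integral_le_of_norm_le_const (C := ‖v‖)
        fun τ _ => v.norm_coe_le_norm _).trans ?_
      rw [sub_zero, abs_of_nonneg s.2.1]
      exact mul_le_of_le_one_right (norm_nonneg v) s.2.2

lemma intOp_apply (v : C(Icc (0 : ℝ) 1, E)) (s : Icc (0 : ℝ) 1) :
    intOp E v s = ∫ τ in (0 : ℝ)..s, v (projIcc 0 1 zero_le_one τ) := rfl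

lemma norm_intOp : ‖intOp E‖ ≤ 1 := LinearMap.mkContinuous_norm_le _ zero_le_one _

lemma inv_one_sub {Y : Type*} [NormedAddCommGroup Y] [NormedSpace ℝ Y] [CompleteSpace Y]
    (A B : Y →L[ℝ] Y) {l L : ℝ} (hA : ‖A‖ ≤ 1) (hB : ‖B‖ ≤ L) (hl : |l| * L < 1) :
    (1 - l • (A ∘L B)).IsInvertible := by
  have h3 : ‖l • (A ∘L B)‖ < 1 := by
    refine lt_of_le_of_lt ?_ hl
    rw [norm_smul, Real.norm_eq_abs]
    gcongr
    refine (ContinuousLinearMap.opNorm_comp_le _ _).trans ?_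
    exact (mul_le_of_le_one_left (norm_nonneg _) hA).trans hB
  exact ⟨ContinuousLinearEquiv.ofUnit (Units.oneSub _ h3), rfl⟩

variable {F : E → E} {Φ : ℝ → E → E} {N : C(Icc (0 : ℝ) 1, E) → C(Icc (0 : ℝ) 1, E)}

lemma flow_local (hF : LipB F) (hN : ContDiff ℝ (⊤ : ℕ∞) N) (hNF : ∀ v s, N v s = F (v s))
    (h0 : ∀ w, Φ 0 w = w) (hΦ : ∀ w t, HasDerivAt (fun t => Φ t w) (F (Φ t w)) t)
    {R : ℝ} {L : ℝ≥0} (hL : LipschitzOnWith L F (closedBall 0 (R + 1))) {l0 : ℝ} {w0 : E}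
    (hl : |l0| * L < 1) (hR : ∀ s ∈ Icc (0 : ℝ) 1, ‖Φ (l0 * s) w0‖ ≤ R) :
    ContDiffAt ℝ (⊤ : ℕ∞) (fun p : ℝ × E => Φ p.1 p.2) (l0, w0) := by
  have cΦ : ∀ w, Continuous fun t => Φ t w := fun w =>
    continuous_iff_continuousAt.2 fun t => (hΦ w t).continuousAt
  have cF : Continuous F := by
    have : F = fun u => N (ContinuousLinearMap.const ℝ (Icc (0 : ℝ) 1) u) ⟨0, by simp⟩ := by
      ext u; rw [hNF]; rfl
    rw [this]
    exact (ContinuousMap.evalCLM ℝ (⟨0, by simp⟩ : Icc (0 : ℝ) 1)).continuous.comp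
      (hN.continuous.comp (ContinuousLinearMap.const ℝ (Icc (0 : ℝ) 1)).continuous)
  set G : (ℝ × E) × C(Icc (0 : ℝ) 1, E) → C(Icc (0 : ℝ) 1, E) := fun q =>
    q.2 - ContinuousLinearMap.const ℝ (Icc (0 : ℝ) 1) q.1.2 - q.1.1 • intOp E (N q.2) with hG
  have cG : ContDiff ℝ (⊤ : ℕ∞) G :=
    (contDiff_snd.sub ((ContinuousLinearMap.const ℝ (Icc (0 : ℝ) 1)).contDiff.comp
      (contDiff_snd.comp contDiff_fst))).sub ((contDiff_fst.comp contDiff_fst).smul
        ((intOp E).contDiff.comp (hN.comp contDiff_snd)))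
  have hsc : ∀ (l : ℝ) (w : E) (s : ℝ),
      HasDerivAt (fun s => Φ (l * s) w) (l • F (Φ (l * s) w)) s := fun l w s => by
    have := (hΦ w (l * s)).scomp s ((hasDerivAt_id s).const_mul l)
    rw [mul_one] at this
    exact this
  set v0 : C(Icc (0 : ℝ) 1, E) := ⟨fun s => Φ (l0 * s) w0, (cΦ w0).comp (by fun_prop)⟩ with hv0
  have hG0 : G ((l0, w0), v0) = 0 := by
    ext s
    simp only [hG, ContinuousMap.sub_apply, ContinuousMap.smul_apply, intOp_apply, hNF,
      ContinuousMap.zero_apply]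
    have h1 := intervalIntegral.integral_eq_sub_of_hasDerivAt (a := 0) (b := s)
      (fun τ _ => hsc l0 w0 τ)
      ((continuous_const.smul (cF.comp ((cΦ w0).comp (by fun_prop)))).intervalIntegrable _ _)
    rw [mul_zero, h0] at h1
    rw [← intervalIntegral.integral_smul, sub_eq_zero]
    refine (h1.symm.trans (intervalIntegral.integral_congr fun τ hτ => ?_))
    rw [uIcc_of_le s.2.1] at hτ
    simp only [hv0, ContinuousMap.coe_mk]
    rw [projIcc_of_mem _ ⟨hτ.1, hτ.2.trans s.2.2⟩]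
  have hR0 : 0 ≤ R := (norm_nonneg _).trans (hR 0 (by simp))
  have hDN : ‖fderiv ℝ N v0‖ ≤ L := by
    refine norm_fderiv_le_of_lipschitzOn ℝ (s := closedBall 0 (R + 1)) ?_ ?_
    · refine closedBall_mem_nhds_of_mem (mem_ball_zero_iff.2 ?_)
      exact ((ContinuousMap.norm_le v0 hR0).2 fun s => hR s s.2).trans_lt (lt_add_one R)
    · refine LipschitzOnWith.of_dist_le_mul fun a ha b hb => ?_
      refine (ContinuousMap.dist_le (by positivity)).2 fun s => ?_
      rw [hNF, hNF]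
      rw [mem_closedBall_zero_iff] at ha hb
      refine (hL.dist_le_mul _ (mem_closedBall_zero_iff.2 ((a.norm_coe_le_norm s).trans ha)) _
        (mem_closedBall_zero_iff.2 ((b.norm_coe_le_norm s).trans hb))).trans ?_
      gcongr
      exact ContinuousMap.dist_apply_le_dist s
  have hne : ((⊤ : ℕ∞) : WithTop ℕ∞) ≠ 0 := by simp
  have hinv : (fderiv ℝ G ((l0, w0), v0) ∘L .inr ℝ (ℝ × E) C(Icc (0 : ℝ) 1, E)).IsInvertible := by
    have h1 : HasFDerivAt (fun v => G ((l0, w0), v))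
        (fderiv ℝ G ((l0, w0), v0) ∘L .inr ℝ (ℝ × E) C(Icc (0 : ℝ) 1, E)) v0 :=
      (cG.differentiable hne _).hasFDerivAt.comp v0 (hasFDerivAt_prodMk_right (l0, w0) v0)
    have h2 : HasFDerivAt (fun v => G ((l0, w0), v))
        (1 - l0 • (intOp E ∘L fderiv ℝ N v0)) v0 :=
      ((hasFDerivAt_id v0).sub_const (ContinuousLinearMap.const ℝ (Icc (0 : ℝ) 1) w0)).sub
        (((intOp E).hasFDerivAt.comp v0
        (hN.differentiable hne v0).hasFDerivAt).const_smul l0)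
    rw [h1.unique h2]
    exact inv_one_sub (Y := C(Icc (0 : ℝ) 1, E)) (intOp E) (fderiv ℝ N v0) norm_intOp hDN hl
  have cAt : ContDiffAt ℝ (⊤ : ℕ∞) G ((l0, w0), v0) := cG.contDiffAt
  have hψ := cAt.contDiffAt_implicitFunction hne hinv
  have hev := cAt.eventually_apply_implicitFunction hne hinv
  set ψ := cAt.implicitFunction hne hinv
  refine ((ContinuousMap.evalCLM ℝ (⟨1, by simp⟩ : Icc (0 : ℝ) 1)).contDiff.contDiffAt.comp _
    hψ).congr_of_eventuallyEq ?_
  filter_upwards [hev] with p hp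
  rw [hG0] at hp
  obtain ⟨l, w⟩ := p
  set v := ψ (l, w)
  have cv : Continuous fun τ : ℝ => F (v (projIcc 0 1 zero_le_one τ)) :=
    cF.comp (v.continuous.comp continuous_projIcc)
  set y : ℝ → E := fun s => w + l • ∫ τ in (0 : ℝ)..s, F (v (projIcc 0 1 zero_le_one τ)) with hy
  have hyv : ∀ s : Icc (0 : ℝ) 1, y s = v s := fun s => by
    have := congrArg (fun f : C(Icc (0 : ℝ) 1, E) => f s) hp
    simp only [hG, ContinuousMap.sub_apply, ContinuousMap.smul_apply, intOp_apply, hNF,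
      ContinuousMap.zero_apply] at this
    rw [sub_sub, sub_eq_zero] at this
    exact this.symm
  have hyd : ∀ s, HasDerivAt y (l • F (v (projIcc 0 1 zero_le_one s))) s := fun s =>
    ((hasDerivAt_int cv s).const_smul l).const_add w
  have cy : Continuous y := continuous_iff_continuousAt.2 fun s => (hyd s).continuousAt
  have cz : Continuous fun s => Φ (l * s) w := (cΦ w).comp (by fun_prop)
  obtain ⟨B1, hB1⟩ := (isCompact_Icc (a := (0 : ℝ)) (b := 1)).exists_bound_of_continuousOn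
    cy.continuousOn
  obtain ⟨B2, hB2⟩ := (isCompact_Icc (a := (0 : ℝ)) (b := 1)).exists_bound_of_continuousOn
    cz.continuousOn
  obtain ⟨L', hL'⟩ := hF (max B1 B2)
  have := ODE_solution_unique_of_mem_Icc_right (v := fun _ u => l • F u)
    (s := fun _ => closedBall 0 (max B1 B2)) (K := ‖l‖₊ * L') (a := 0) (b := 1)
    (f := fun s => Φ (l * s) w) (g := y)
    (fun _ _ => (lipschitzWith_smul l).comp_lipschitzOnWith hL') cz.continuousOn
    (fun s _ => (hsc l w s).hasDerivWithinAt)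
    (fun s hs => mem_closedBall_zero_iff.2
      ((hB2 s (Ico_subset_Icc_self hs)).trans (le_max_right _ _))) cy.continuousOn
    (fun s hs => by
      have := hyd s
      rw [projIcc_of_mem _ (Ico_subset_Icc_self hs), ← hyv] at this
      exact this.hasDerivWithinAt)
    (fun s hs => mem_closedBall_zero_iff.2
      ((hB1 s (Ico_subset_Icc_self hs)).trans (le_max_left _ _)))
    (by simp [hy, h0]) (show (1 : ℝ) ∈ Icc (0 : ℝ) 1 by simp)
  simp only [mul_one] at this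
  rw [this]
  exact hyv ⟨1, by simp⟩

omit [CompleteSpace E] in
lemma flow_add (hF : LipB F) (h0 : ∀ w, Φ 0 w = w)
    (hΦ : ∀ w t, HasDerivAt (fun t => Φ t w) (F (Φ t w)) t) (s t : ℝ) (w : E) :
    Φ (t + s) w = Φ t (Φ s w) :=
  uniq_global hF (x := fun t => Φ (t + s) w) (fun t => (hΦ w (t + s)).comp_add_const t s)
    (hΦ _) (by simp [h0]) t

theorem flow_smooth (hF : LipB F) (hN : ContDiff ℝ (⊤ : ℕ∞) N) (hNF : ∀ v s, N v s = F (v s))
    (h0 : ∀ w, Φ 0 w = w) (hΦ : ∀ w t, HasDerivAt (fun t => Φ t w) (F (Φ t w)) t) :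
    ContDiff ℝ (⊤ : ℕ∞) (fun p : ℝ × E => Φ p.1 p.2) := by
  refine contDiff_iff_contDiffAt.2 fun ⟨t0, w0⟩ => ?_
  have cΦ : Continuous fun t => Φ t w0 :=
    continuous_iff_continuousAt.2 fun t => (hΦ w0 t).continuousAt
  obtain ⟨R, hR⟩ := (isCompact_closedBall (0 : ℝ) |t0|).exists_bound_of_continuousOn
    cΦ.continuousOn
  obtain ⟨L, hL⟩ := hF (R + 1)
  obtain ⟨n, hn⟩ := exists_nat_gt (|t0| * L)
  have hn0 : (0 : ℝ) < n := lt_of_le_of_lt (by positivity) hn
  have key : ∀ j : ℕ, j ≤ n →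
      ContDiffAt ℝ (⊤ : ℕ∞) (fun p : ℝ × E => Φ (j * (p.1 / n)) p.2) (t0, w0) := by
    intro j
    induction j with
    | zero => intro _; simpa [h0] using contDiffAt_snd
    | succ j ih =>
      intro hj
      have h1 := flow_local hF hN hNF h0 hΦ hL (l0 := t0 / n) (w0 := Φ (j * (t0 / n)) w0)
        (by rw [abs_div, Nat.abs_cast, div_mul_eq_mul_div, div_lt_one hn0]; exact hn)
        (fun s hs => by
          rw [← flow_add hF h0 hΦ]
          refine hR _ (mem_closedBall_zero_iff.2 ?_)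
          have hj' : (j : ℝ) + 1 ≤ n := by exact_mod_cast hj
          rw [show t0 / n * s + j * (t0 / n) = t0 * ((s + j) / n) by ring, norm_mul,
            Real.norm_eq_abs, Real.norm_eq_abs]
          refine mul_le_of_le_one_right (abs_nonneg _) ?_
          rw [abs_of_nonneg (by have := hs.1; positivity), div_le_one hn0]
          linarith [hs.2])
      have h2 : ContDiffAt ℝ (⊤ : ℕ∞)
          (fun p : ℝ × E => (p.1 / n, Φ (j * (p.1 / n)) p.2)) (t0, w0) :=
        (contDiffAt_fst.div_const _).prodMk (ih (Nat.le_of_succ_le hj))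
      have h3 := ContDiffAt.comp (t0, w0) (g := fun p : ℝ × E => Φ p.1 p.2) h1 h2
      refine h3.congr_of_eventuallyEq (Eventually.of_forall fun p => ?_)
      simp only [Function.comp]
      rw [← flow_add hF h0 hΦ]
      congr 1; push_cast; ring
  have := key n le_rfl
  simpa only [mul_div_cancel₀ _ hn0.ne'] using this

end abstract

/-! ### Scalar estimates -/

lemma abs_le_of_uIoc {s t T : ℝ} (hs : s ∈ uIcc 0 t) (ht : |t| ≤ T) : |s| ≤ T := by
  rcases mem_uIcc.1 hs with h | h <;> rw [abs_le] at ht ⊢ <;> constructor <;>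
    linarith [h.1, h.2, ht.1, ht.2]

lemma norm_int_le {E : Type*} [NormedAddCommGroup E] [NormedSpace ℝ E] {f : ℝ → E} {C t T : ℝ}
    (ht : |t| ≤ T) (h : ∀ s, |s| ≤ T → ‖f s‖ ≤ C) : ‖∫ s in (0 : ℝ)..t, f s‖ ≤ C * T := by
  have hC : 0 ≤ C := (norm_nonneg _).trans (h 0 (by simpa using (abs_nonneg t).trans ht))
  refine (intervalIntegral.norm_integral_le_of_norm_le_const (C := C) fun s hs =>
    h s (abs_le_of_uIoc (uIoc_subset_uIcc hs) ht)).trans ?_
  rw [sub_zero]; gcongr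

lemma cont_of_deriv {E : Type*} [NormedAddCommGroup E] [NormedSpace ℝ E] {z z' : ℝ → E}
    (h : ∀ t, HasDerivAt z (z' t) t) : Continuous z :=
  continuous_iff_continuousAt.2 fun t => (h t).continuousAt

lemma phase {z f : ℝ → ℂ} {a : ℝ → ℝ} (hf : Continuous f) (ha : Continuous a)
    (hz : ∀ t, HasDerivAt z (-I * (f t + a t * z t)) t) (t : ℝ) :
    ‖Complex.exp (I * (∫ s in (0 : ℝ)..t, a s : ℝ)) * z t - z 0‖ ≤ |∫ s in (0 : ℝ)..t, ‖f s‖| := by
  have cθ : Continuous fun t => ∫ s in (0 : ℝ)..t, a s := cont_of_deriv (hasDerivAt_int ha)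
  have hw : ∀ t, HasDerivAt (fun t => Complex.exp (I * (∫ s in (0 : ℝ)..t, a s : ℝ)) * z t)
      (-I * Complex.exp (I * (∫ s in (0 : ℝ)..t, a s : ℝ)) * f t) t := fun t =>
    ((((hasDerivAt_int ha t).ofReal_comp.const_mul I).cexp).mul (hz t)).congr_deriv (by ring)
  have := intervalIntegral.integral_eq_sub_of_hasDerivAt (a := 0) (b := t) (fun s _ => hw s)
    (Continuous.intervalIntegrable (by fun_prop) _ _)
  simp only [intervalIntegral.integral_same, ofReal_zero, mul_zero, Complex.exp_zero,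
    one_mul] at this
  rw [← this]
  refine intervalIntegral.norm_integral_le_abs_integral_norm.trans (le_of_eq ?_)
  simp only [norm_mul, norm_neg, norm_I, Complex.norm_exp_I_mul_ofReal, one_mul]

lemma phase_norm {z f : ℝ → ℂ} {a : ℝ → ℝ} (hf : Continuous f) (ha : Continuous a)
    (hz : ∀ t, HasDerivAt z (-I * (f t + a t * z t)) t) (t : ℝ) :
    |‖z t‖ - ‖z 0‖| ≤ |∫ s in (0 : ℝ)..t, ‖f s‖| := by
  refine le_trans ?_ (phase hf ha hz t)
  refine le_trans (le_of_eq ?_) (abs_norm_sub_norm_le _ _)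
  rw [norm_mul, Complex.norm_exp_I_mul_ofReal, one_mul]

/-- `z` solves the forced cubic ODE `i z' = f + |z|² z`. -/
def Cub (z f : ℝ → ℂ) : Prop :=
  Continuous f ∧ ∀ t, HasDerivAt z (-I * (f t + z t * conj (z t) * z t)) t

variable {z f w g : ℝ → ℂ} {T F : ℝ}

lemma Cub.cont (h : Cub z f) : Continuous z := cont_of_deriv h.2

lemma Cub.deriv' (h : Cub z f) (t : ℝ) :
    HasDerivAt z (-I * (f t + ((‖z t‖ ^ 2 : ℝ) : ℂ) * z t)) t := by
  have := h.2 t
  rwa [Complex.mul_conj', ← ofReal_pow] at this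

lemma Cub.amp' (h : Cub z f) (t : ℝ) : |‖z t‖ - ‖z 0‖| ≤ |∫ s in (0 : ℝ)..t, ‖f s‖| :=
  phase_norm h.1 (h.cont.norm.pow 2) h.deriv' t

lemma Cub.amp (h : Cub z f) (hF : ∀ s, |s| ≤ T → ‖f s‖ ≤ F) {t : ℝ} (ht : |t| ≤ T) :
    |‖z t‖ - ‖z 0‖| ≤ F * T :=
  (h.amp' t).trans (norm_int_le (f := fun s => ‖f s‖) ht fun s hs => by simpa using hF s hs)

lemma Cub.free (h : Cub z f) (hF : ∀ s, |s| ≤ T → ‖f s‖ ≤ F) {D : ℝ}
    (hD : ∀ s, |s| ≤ T → |‖z s‖ ^ 2 - ‖z 0‖ ^ 2| ≤ D) {t : ℝ} (ht : |t| ≤ T) :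
    ‖z t - Complex.exp (I * ((-(t * ‖z 0‖ ^ 2) : ℝ) : ℂ)) * z 0‖ ≤ F * T + ‖z 0‖ * (D * T) := by
  have c : Continuous fun s => ‖z s‖ ^ 2 := h.cont.norm.pow 2
  have h1 := (phase h.1 c h.deriv' t).trans
    (norm_int_le (f := fun s => ‖f s‖) ht fun s hs => by simpa using hF s hs)
  set θ : ℝ := ∫ s in (0 : ℝ)..t, ‖z s‖ ^ 2 with hθ
  have h2 : |θ - t * ‖z 0‖ ^ 2| ≤ D * T := by
    have e : θ - t * ‖z 0‖ ^ 2 = ∫ s in (0 : ℝ)..t, (‖z s‖ ^ 2 - ‖z 0‖ ^ 2) := by
      rw [intervalIntegral.integral_sub (c.intervalIntegrable _ _)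
        (continuous_const.intervalIntegrable _ _)]
      simp [hθ]
    rw [e]
    exact norm_int_le (f := fun s => ‖z s‖ ^ 2 - ‖z 0‖ ^ 2) ht hD
  have e : z t - Complex.exp (I * ((-(t * ‖z 0‖ ^ 2) : ℝ) : ℂ)) * z 0 =
      Complex.exp (I * ((-θ : ℝ) : ℂ)) * ((Complex.exp (I * θ) * z t - z 0) -
        z 0 * (Complex.exp (I * ((θ - t * ‖z 0‖ ^ 2 : ℝ) : ℂ)) - 1)) := by
    have e1 : Complex.exp (I * ((-θ : ℝ) : ℂ)) * Complex.exp (I * θ) = 1 := by
      rw [← Complex.exp_add]; simp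
    have e2 : Complex.exp (I * ((-θ : ℝ) : ℂ)) *
        Complex.exp (I * ((θ - t * ‖z 0‖ ^ 2 : ℝ) : ℂ)) =
        Complex.exp (I * ((-(t * ‖z 0‖ ^ 2) : ℝ) : ℂ)) := by
      rw [← Complex.exp_add]; congr 1; push_cast; ring
    linear_combination (-z t) * e1 + z 0 * e2
  rw [e, norm_mul, Complex.norm_exp_I_mul_ofReal, one_mul]
  refine (norm_sub_le _ _).trans (add_le_add h1 ?_)
  rw [norm_mul]
  gcongr
  exact Real.norm_exp_I_mul_ofReal_sub_one_le.trans h2

lemma Cub.conj (h : Cub z f) (t : ℝ) : HasDerivAt (fun s => conj (z s))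
    (I * (conj (f t) + conj (z t) * z t * conj (z t))) t := by
  have : HasDerivAt (fun s => conj (z s)) (conj (-I * (f t + z t * conj (z t) * z t))) t :=
    (h.2 t).star
  simpa using this

lemma Cub.sq (h : Cub z f) (t : ℝ) :
    HasDerivAt (fun s => z s * conj (z s)) (-I * (conj (z t) * f t) + I * conj (conj (z t) * f t))
      t := ((h.2 t).mul (h.conj t)).congr_deriv (by simp only [map_mul, conj_conj]; ring)

lemma Cub.drift (h : Cub z f) (t : ℝ) :
    |‖z t‖ ^ 2 - ‖z 0‖ ^ 2| ≤ 2 * ‖∫ s in (0 : ℝ)..t, conj (z s) * f s‖ := by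
  have c1 := h.cont
  have c2 := h.1
  have := intervalIntegral.integral_eq_sub_of_hasDerivAt (a := 0) (b := t) (fun s _ => h.sq s)
    (Continuous.intervalIntegrable (by fun_prop) _ _)
  rw [intervalIntegral.integral_add (Continuous.intervalIntegrable (by fun_prop) _ _)
    (Continuous.intervalIntegrable (by fun_prop) _ _), intervalIntegral.integral_const_mul,
    intervalIntegral.integral_const_mul, intervalIntegral.intervalIntegral_conj,
    Complex.mul_conj', Complex.mul_conj'] at this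
  rw [← Real.norm_eq_abs, ← Complex.norm_real]
  push_cast
  rw [← this]
  refine (norm_add_le _ _).trans (le_of_eq ?_)
  simp only [norm_mul, norm_neg, norm_I, Complex.norm_conj]; ring

lemma Cub.osc (hz : Cub z f) (hw : Cub w g) (hF : ∀ s, |s| ≤ T → ‖f s‖ ≤ F)
    (hG : ∀ s, |s| ≤ T → ‖g s‖ ≤ F) {ρ σ Λ : ℝ} (hΛ : 0 < Λ) (hρ : ∀ s, |s| ≤ T → ‖z s‖ ≤ ρ)
    (hσ : ∀ s, |s| ≤ T → ‖w s‖ ≤ σ) (hΔ : ∀ s, |s| ≤ T → Λ ≤ |‖z s‖ ^ 2 - ‖w s‖ ^ 2|)
    {t : ℝ} (ht : |t| ≤ T) :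
    ‖∫ s in (0 : ℝ)..t, conj (z s) * w s‖ ≤
      2 * (ρ * σ / Λ) + (F * (ρ + σ) / Λ + ρ * σ * (2 * F * (ρ + σ)) / Λ ^ 2) * T := by
  have c1 := hz.cont
  have c2 := hw.cont
  have h00 : |(0 : ℝ)| ≤ T := by simpa using (abs_nonneg t).trans ht
  have hρ0 : 0 ≤ ρ := (norm_nonneg _).trans (hρ 0 h00)
  have hσ0 : 0 ≤ σ := (norm_nonneg _).trans (hσ 0 h00)
  have hF0 : 0 ≤ F := (norm_nonneg _).trans (hF 0 h00)
  set Δ : ℝ → ℂ := fun s => z s * conj (z s) - w s * conj (w s) with hΔd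
  have hΔn : ∀ s, |s| ≤ T → Λ ≤ ‖Δ s‖ := fun s hs => by
    simp only [hΔd, Complex.mul_conj']
    refine (hΔ s hs).trans (le_of_eq ?_)
    rw [← Real.norm_eq_abs, ← Complex.norm_real]; push_cast; rfl
  set Δ' : ℝ → ℂ := fun s => (-I * (conj (z s) * f s) + I * conj (conj (z s) * f s)) -
    (-I * (conj (w s) * g s) + I * conj (conj (w s) * g s)) with hΔ'
  set q : ℝ → ℂ := fun s => conj (z s) * w s / Δ s with hq
  set r : ℝ → ℂ := fun s => (I * (conj (f s) * w s) - I * (conj (z s) * g s)) / Δ s -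
    conj (z s) * w s * Δ' s / Δ s ^ 2 with hr
  have hd : ∀ s ∈ Icc (-T) T, HasDerivWithinAt
      (fun s => q s - I * ∫ τ in (0 : ℝ)..s, conj (z τ) * w τ) (r s) (Icc (-T) T) s := by
    intro s hs
    have h0 : Δ s ≠ 0 := norm_pos_iff.1 (hΛ.trans_le (hΔn s (abs_le.2 hs)))
    refine (((((hz.conj s).mul (hw.2 s)).div ((hz.sq s).sub (hw.sq s)) h0).sub
      ((hasDerivAt_int (f := fun τ => conj (z τ) * w τ) (by fun_prop) s).const_mul I)).congr_deriv
        ?_).hasDerivWithinAt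
    have alg : ∀ a p D D' R : ℂ, D ≠ 0 → a = I * D * p + R →
        (a * D - p * D') / D ^ 2 - I * p = R / D - p * D' / D ^ 2 := by
      intro a p D D' R h1 h2
      rw [h2]; field_simp; ring
    exact alg _ _ _ _ _ h0 (by simp only [Pi.mul_apply, Pi.sub_apply]; ring)
  have hb : ∀ s ∈ Icc (-T) T, ‖r s‖ ≤ F * (ρ + σ) / Λ + ρ * σ * (2 * F * (ρ + σ)) / Λ ^ 2 := by
    intro s hs
    have hs' := abs_le.2 hs
    have a1 := hρ s hs'
    have a2 := hσ s hs'
    have a3 := hF s hs'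
    have a4 := hG s hs'
    have a5 := hΔn s hs'
    refine (norm_sub_le _ _).trans (add_le_add ?_ ?_)
    · rw [norm_div]
      gcongr
      refine (norm_sub_le _ _).trans ?_
      simp only [norm_mul, norm_I, Complex.norm_conj, one_mul]
      calc _ ≤ F * σ + ρ * F := by gcongr
        _ = _ := by ring
    · rw [norm_div, norm_mul, norm_mul, norm_pow, Complex.norm_conj]
      gcongr
      refine (norm_sub_le _ _).trans ((add_le_add (norm_add_le _ _) (norm_add_le _ _)).trans ?_)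
      simp only [norm_mul, norm_I, norm_neg, Complex.norm_conj, one_mul]
      calc _ ≤ ρ * F + ρ * F + (σ * F + σ * F) := by gcongr
        _ = _ := by ring
  have hq' : ∀ s, |s| ≤ T → ‖q s‖ ≤ ρ * σ / Λ := fun s hs => by
    simp only [hq]
    rw [norm_div, norm_mul, Complex.norm_conj]
    gcongr
    exacts [hρ s hs, hσ s hs, hΔn s hs]
  have := (convex_Icc (-T) T).norm_image_sub_le_of_norm_hasDerivWithin_le hd hb (abs_le.1 h00)
    (abs_le.1 ht)
  simp only [intervalIntegral.integral_same, mul_zero, sub_zero, Real.norm_eq_abs] at this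
  have e : ∫ s in (0 : ℝ)..t, conj (z s) * w s =
      I * ((q t - I * ∫ τ in (0 : ℝ)..t, conj (z τ) * w τ) - q 0) - I * q t + I * q 0 := by
    linear_combination (∫ s in (0 : ℝ)..t, conj (z s) * w s) * I_mul_I
  rw [e]
  refine (norm_add_le _ _).trans ((add_le_add_left (norm_sub_le _ _) _).trans ?_)
  simp only [norm_mul, norm_I, one_mul]
  have b1 := hq' t ht
  have b2 := hq' 0 h00
  have b3 : (F * (ρ + σ) / Λ + ρ * σ * (2 * F * (ρ + σ)) / Λ ^ 2) * |t| ≤
      (F * (ρ + σ) / Λ + ρ * σ * (2 * F * (ρ + σ)) / Λ ^ 2) * T := by gcongr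
  linarith

lemma cubic_lip {A : Type*} [NormedRing A] [StarRing A] [NormedStarGroup A] {a b : A} {R : ℝ}
    (ha : ‖a‖ ≤ R) (hb : ‖b‖ ≤ R) : ‖a * star a * a - b * star b * b‖ ≤ 3 * R ^ 2 * ‖a - b‖ := by
  have hR : 0 ≤ R := (norm_nonneg _).trans ha
  have e : a * star a * a - b * star b * b =
      (a - b) * star a * a + b * star (a - b) * a + b * star b * (a - b) := by
    rw [star_sub]; noncomm_ring
  have m : ∀ x y z : A, ‖x * star y * z‖ ≤ ‖x‖ * ‖y‖ * ‖z‖ := fun x y z =>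
    (norm_mul_le _ _).trans (by gcongr; exact (norm_mul_le _ _).trans (by rw [norm_star]))
  rw [e]
  refine norm_add₃_le.trans ((add_le_add_three (m _ _ _) (m _ _ _) (m _ _ _)).trans ?_)
  calc _ ≤ ‖a - b‖ * R * R + R * ‖a - b‖ * R + R * R * ‖a - b‖ := by gcongr
    _ = _ := by ring

lemma Cub.stab (hz : Cub z f) (hw : Cub w g) {ρ : ℝ} (hρ : ∀ s, |s| ≤ T → ‖z s‖ ≤ ρ)
    (hσ : ∀ s, |s| ≤ T → ‖w s‖ ≤ ρ) {W : ℝ → ℝ} (hW : Continuous W)
    (hzw : ∀ s, ‖z s - w s‖ ≤ W s) {t : ℝ} (ht : |t| ≤ T) :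
    ‖z t - w t‖ ≤ ‖z 0 - w 0‖ + ‖∫ s in (0 : ℝ)..t, (f s - g s)‖ +
      3 * ρ ^ 2 * |∫ s in (0 : ℝ)..t, W s| := by
  have c1 := hz.cont
  have c2 := hw.cont
  have c3 := hz.1
  have c4 := hw.1
  have := intervalIntegral.integral_eq_sub_of_hasDerivAt (a := 0) (b := t)
    (f := fun s => z s - w s) (f' := fun s => -I * (f s - g s) +
      -I * (z s * conj (z s) * z s - w s * conj (w s) * w s))
    (fun s _ => ((hz.2 s).sub (hw.2 s)).congr_deriv (by ring))
    (Continuous.intervalIntegrable (by fun_prop) _ _)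
  rw [intervalIntegral.integral_add (Continuous.intervalIntegrable (by fun_prop) _ _)
    (Continuous.intervalIntegrable (by fun_prop) _ _), intervalIntegral.integral_const_mul,
    intervalIntegral.integral_const_mul] at this
  rw [← sub_add_cancel (z t - w t) (z 0 - w 0), ← this, add_comm, add_assoc]
  refine (norm_add_le _ _).trans (add_le_add le_rfl ((norm_add_le _ _).trans ?_))
  simp only [norm_mul, norm_neg, norm_I, one_mul]
  gcongr
  rw [← abs_of_nonneg (by positivity : 0 ≤ 3 * ρ ^ 2), ← abs_mul,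
    ← intervalIntegral.integral_const_mul]
  refine intervalIntegral.norm_integral_le_abs_of_norm_le ?_
    (Continuous.intervalIntegrable (by fun_prop) _ _)
  refine (ae_restrict_iff' measurableSet_uIoc).2 (ae_of_all _ fun s hs => ?_)
  have hs' := abs_le_of_uIoc (uIoc_subset_uIcc hs) ht
  exact (cubic_lip (hρ s hs') (hσ s hs')).trans (by gcongr; exact hzw s)

end

end Pool.Agent.Lib.MMT
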