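import Pool.Agent.Lib.MMT.Basic
import Pool.Agent.Lib.MMT.Ode

/-! The global smooth flow of `i u' = K u + |u|² u` on `C(𝕋)` for a bounded operator `K`. -/

namespace Pool.Agent.Lib.MMT

open Filter Topology MeasureTheory AddCircle Complex Set Metric
open scoped Real ComplexConjugate NNReal

noncomputable section

def vf (K : X →L[ℂ] X) (u : X) : X := -I • (K u + u * star u * u)

lemma vf_apply (K : X →L[ℂ] X) (u : X) (x : Ci) :
    vf K u x = -I * (K u x + u x * conj (u x) * u x) := rfl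

def IsSol (K : X →L[ℂ] X) (u : ℝ → X) : Prop := ∀ t, HasDerivAt u (vf K (u t)) t

lemma hasDerivAt_eval {u : ℝ → X} {u' : X} {t : ℝ} (h : HasDerivAt u u' t) (x : Ci) :
    HasDerivAt (fun s => u s x) (u' x) t :=
  (ContinuousMap.evalCLM ℝ x : X →L[ℝ] ℂ).hasFDerivAt.comp_hasDerivAt t h

variable {K : X →L[ℂ] X}

lemma IsSol.cont {u : ℝ → X} (h : IsSol K u) : Continuous u := cont_of_deriv h

lemma IsSol.cub {u : ℝ → X} (h : IsSol K u) (x : Ci) :
    Cub (fun t => u t x) (fun t => K (u t) x) :=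
  ⟨(continuous_eval_const x).comp (K.continuous.comp h.cont), fun t => hasDerivAt_eval (h t) x⟩

lemma vf_lip (K : X →L[ℂ] X) {R : ℝ} {a b : X} (ha : ‖a‖ ≤ R) (hb : ‖b‖ ≤ R) :
    ‖vf K a - vf K b‖ ≤ (‖K‖ + 3 * R ^ 2) * ‖a - b‖ := by
  rw [vf, vf, ← smul_sub, norm_smul, norm_neg, norm_I, one_mul, add_sub_add_comm, ← map_sub,
    add_mul]
  exact (norm_add_le _ _).trans (add_le_add (K.le_opNorm _) (cubic_lip ha hb))

lemma lipB_vf (K : X →L[ℂ] X) : LipB (vf K) := fun R =>
  ⟨⟨‖K‖ + 3 * R ^ 2, by positivity⟩, LipschitzOnWith.of_dist_le_mul fun a ha b hb => by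
    rw [dist_eq_norm, dist_eq_norm]
    exact vf_lip K (mem_closedBall_zero_iff.1 ha) (mem_closedBall_zero_iff.1 hb)⟩

lemma norm_vf (K : X →L[ℂ] X) {R : ℝ} {a : X} (ha : ‖a‖ ≤ R) :
    ‖vf K a‖ ≤ (‖K‖ + 3 * R ^ 2) * R := by
  have := vf_lip K ha (b := 0) (by simpa using (norm_nonneg _).trans ha)
  rw [show vf K 0 = 0 by simp [vf], sub_zero, sub_zero] at this
  exact this.trans (by gcongr)

lemma exists_sol (K : X →L[ℂ] X) (w : X) : ∃ u : ℝ → X, u 0 = w ∧ IsSol K u := by
  refine glue (lipB_vf K) fun n => ?_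
  set M := ‖w‖ * Real.exp (‖K‖ * n) with hM
  have hM0 : 0 ≤ M := by positivity
  set χ : X → ℝ := fun u => max 0 (min 1 (M + 1 - ‖u‖)) with hχ
  have χ0 : ∀ u, 0 ≤ χ u := fun u => le_max_left _ _
  have χ1 : ∀ u, χ u ≤ 1 := fun u => max_le zero_le_one (min_le_left _ _)
  have χl : ∀ u v, |χ u - χ v| ≤ ‖u - v‖ := fun u v => by
    simp only [hχ]
    rw [max_comm 0, max_comm 0]
    refine (abs_max_sub_max_le_abs _ _ _).trans ((abs_min_sub_min_le_max _ _ _ _).trans ?_)
    rw [sub_self, abs_zero, max_eq_right (abs_nonneg _),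
      show M + 1 - ‖u‖ - (M + 1 - ‖v‖) = -(‖u‖ - ‖v‖) by ring, abs_neg]
    exact abs_norm_sub_norm_le _ _
  have hl : LipB fun u => χ u • vf K u := fun R =>
    ⟨⟨(‖K‖ + 3 * R ^ 2) * |R| + (‖K‖ + 3 * R ^ 2), by positivity⟩,
      LipschitzOnWith.of_dist_le_mul fun a ha b hb => by
      rw [dist_eq_norm, dist_eq_norm]
      rw [mem_closedBall_zero_iff] at ha hb
      have e : χ a • vf K a - χ b • vf K b = (χ a - χ b) • vf K a + χ b • (vf K a - vf K b) := by
        rw [sub_smul, smul_sub]; abel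
      rw [e]
      refine (norm_add_le _ _).trans ?_
      rw [norm_smul, norm_smul, Real.norm_eq_abs, Real.norm_eq_abs, abs_of_nonneg (χ0 b)]
      have h1 := norm_vf K ha
      have h2 := vf_lip K ha hb
      calc _ ≤ ‖a - b‖ * ((‖K‖ + 3 * R ^ 2) * |R|) + 1 * ((‖K‖ + 3 * R ^ 2) * ‖a - b‖) := by
            gcongr
            exacts [χl a b, h1.trans (by gcongr; exact le_abs_self R), χ1 b]
        _ = ((‖K‖ + 3 * R ^ 2) * |R| + (‖K‖ + 3 * R ^ 2)) * ‖a - b‖ := by ring⟩
  obtain ⟨x, hx0, hx⟩ := exists_global_of_bounded hl (B := (‖K‖ + 3 * (M + 1) ^ 2) * (M + 1))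
    (fun u => by
      rw [norm_smul, Real.norm_eq_abs, abs_of_nonneg (χ0 u)]
      rcases le_total ‖u‖ (M + 1) with h | h
      · exact (mul_le_of_le_one_left (norm_nonneg _) (χ1 u)).trans (norm_vf K h)
      · have : χ u = 0 := max_eq_left ((min_le_right _ _).trans (by linarith))
        rw [this, zero_mul]; positivity) w
  have cx : Continuous x := cont_of_deriv hx
  have cχ : Continuous fun t => χ (x t) := by simp only [hχ]; fun_prop
  have hb : ∀ t : ℝ, |t| ≤ n → ‖x t‖ ≤ M := by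
    refine gronwall cx.norm (fun _ => norm_nonneg _) (norm_nonneg K) fun t _ => ?_
    refine (ContinuousMap.norm_le _ (by positivity)).2 fun y => ?_
    have c1 : Continuous fun t => x t y := (continuous_eval_const y).comp cx
    have c2 : Continuous fun t => K (x t) y := (continuous_eval_const y).comp (K.continuous.comp cx)
    have h1 := phase_norm (z := fun t => x t y) (f := fun t => (χ (x t) : ℂ) * K (x t) y)
      (a := fun t => χ (x t) * ‖x t y‖ ^ 2) (by fun_prop) (by fun_prop) (fun t =>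
        (hasDerivAt_eval (hx t) y).congr_deriv (by
          rw [ContinuousMap.smul_apply, vf_apply, Complex.mul_conj', real_smul]
          push_cast; ring)) t
    have h2 : |∫ s in (0 : ℝ)..t, ‖(χ (x s) : ℂ) * K (x s) y‖| ≤
        ‖K‖ * |∫ s in (0 : ℝ)..t, ‖x s‖| := by
      rw [← abs_of_nonneg (norm_nonneg K), ← abs_mul, ← intervalIntegral.integral_const_mul,
        ← Real.norm_eq_abs]
      refine intervalIntegral.norm_integral_le_abs_of_norm_le (ae_of_all _ fun s => ?_)
        (Continuous.intervalIntegrable (by fun_prop) _ _)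
      rw [norm_norm, norm_mul, Complex.norm_real, Real.norm_eq_abs, abs_of_nonneg (χ0 _)]
      exact (mul_le_of_le_one_left (norm_nonneg _) (χ1 _)).trans
        (((K (x s)).norm_coe_le_norm y).trans (K.le_opNorm _))
    have h3 := (x 0).norm_coe_le_norm y
    rw [hx0] at h1 h3
    linarith [(abs_le.1 h1).2]
  refine ⟨x, hx0, fun t ht => ?_⟩
  have h1 := hb t (abs_lt.2 ht).le
  have : χ (x t) = 1 := by
    simp only [hχ]; rw [min_eq_left (by linarith), max_eq_right zero_le_one]
  simpa [this] using hx t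

/-- the global flow -/
def flow (K : X →L[ℂ] X) (t : ℝ) (w : X) : X := (exists_sol K w).choose t

lemma flow_zero (K : X →L[ℂ] X) (w : X) : flow K 0 w = w := (exists_sol K w).choose_spec.1

lemma flow_sol (K : X →L[ℂ] X) (w : X) : IsSol K fun t => flow K t w :=
  (exists_sol K w).choose_spec.2

lemma contDiff_flow (K : X →L[ℂ] X) : ContDiff ℝ (⊤ : ℕ∞) fun p : ℝ × X => flow K p.1 p.2 := by
  refine flow_smooth (F := vf K) (lipB_vf K) (N := fun v => -I • ((K.restrictScalars ℝ).compLeftContinuous ℝ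
    (Icc (0 : ℝ) 1) v + v * star v * v)) ?_ (fun _ _ => rfl) (flow_zero K) (flow_sol K)
  have h1 : ContDiff ℝ (⊤ : ℕ∞) fun v : C(Icc (0 : ℝ) 1, X) => star v :=
    (starL' ℝ (A := C(Icc (0 : ℝ) 1, X))).contDiff
  exact (((K.restrictScalars ℝ).compLeftContinuous ℝ (Icc (0 : ℝ) 1)).contDiff.add
    ((contDiff_id.mul h1).mul contDiff_id)).const_smul (-I)

lemma flow_tr (hK : ∀ h u, K (tr h u) = tr h (K u)) (h : Ci) (t : ℝ) (w : X) :
    flow K t (tr h w) = tr h (flow K t w) := by
  refine uniq_global (lipB_vf K) (x := fun t => flow K t (tr h w))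
    (y := fun t => tr h (flow K t w)) (flow_sol K _) (fun t => ?_) (by simp [flow_zero]) t
  refine (((tr h).restrictScalars ℝ).hasFDerivAt.comp_hasDerivAt t (flow_sol K w t)).congr_deriv ?_
  ext x
  simp only [ContinuousLinearMap.coe_restrictScalars', tr_apply, vf_apply, hK]

lemma contDiff_tr {p : X} (hp : p ∈ Submodule.span ℂ (range (fourier (T := 2 * π)))) :
    ContDiff ℝ (⊤ : ℕ∞) fun y : ℝ => tr (y : Ci) p := by
  induction hp using Submodule.span_induction with
  | mem f hf =>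
    obtain ⟨k, rfl⟩ := hf
    have : (fun y : ℝ => tr (y : Ci) (fourier k)) =
        fun y : ℝ => Complex.exp (I * (k * y)) • (fourier k : X) := by
      ext y x
      rw [tr_apply, fourier_add_right, fourier_coe, ContinuousMap.smul_apply, smul_eq_mul, mul_comm]
    rw [this]
    have h1 : ContDiff ℝ (⊤ : ℕ∞) fun y : ℝ => Complex.exp (I * (k * y)) :=
      (contDiff_const.mul (contDiff_const.mul ofRealCLM.contDiff)).cexp
    exact h1.smul contDiff_const
  | zero => simpa using contDiff_const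
  | add f g _ _ hf hg => simpa only [map_add] using hf.add hg
  | smul c f _ hf => simpa only [map_smul] using hf.const_smul c

lemma contDiff_sol (hK : ∀ h u, K (tr h u) = tr h (K u)) {p : X}
    (hp : p ∈ Submodule.span ℂ (range (fourier (T := 2 * π)))) :
    ContDiff ℝ (⊤ : ℕ∞) fun q : ℝ × ℝ => flow K q.1 p (q.2 : Ci) := by
  have h1 := (ContinuousMap.evalCLM ℝ (0 : Ci) : X →L[ℝ] ℂ).contDiff.comp ((contDiff_flow K).comp
    (contDiff_fst.prodMk ((contDiff_tr hp).comp (contDiff_snd (E := ℝ) (F := ℝ)))))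
  have e : (fun q : ℝ × ℝ => flow K q.1 p (q.2 : Ci)) =
      fun q : ℝ × ℝ => flow K q.1 (tr (q.2 : Ci) p) 0 := by
    ext q; rw [flow_tr hK, tr_apply, zero_add]
  rw [e]
  exact h1

lemma approx_trig (K : X →L[ℂ] X) (g : X) (T : ℝ) {η : ℝ} (hη : 0 < η) :
    ∃ p ∈ Submodule.span ℂ (range (fourier (T := 2 * π))),
      ∀ t, |t| ≤ T → ‖flow K t p - flow K t g‖ ≤ η := by
  have hc := (contDiff_flow K).continuous
  have h1 : ∀ᶠ p in 𝓝 g, ∀ t ∈ closedBall (0 : ℝ) T, ‖flow K t p - flow K t g‖ ≤ η := by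
    refine (isCompact_closedBall (0 : ℝ) T).eventually_forall_of_forall_eventually fun t _ => ?_
    have c : Continuous fun z : X × ℝ => ‖flow K z.2 z.1 - flow K z.2 g‖ :=
      ((hc.comp (continuous_snd.prodMk continuous_fst)).sub
        (hc.comp (continuous_snd.prodMk continuous_const))).norm
    exact c.continuousAt.eventually (Iic_mem_nhds (by simpa using hη))
  have h2 : g ∈ closure (Submodule.span ℂ (range (fourier (T := 2 * π))) : Set X) := by
    rw [← Submodule.topologicalClosure_coe, span_fourier_closure_eq_top]; trivial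
  obtain ⟨p, hp1, hp2⟩ := mem_closure_iff_nhds.1 h2 _ h1
  exact ⟨p, hp2, fun t ht => hp1 t (mem_closedBall_zero_iff.2 ht)⟩

end

end Pool.Agent.Lib.MMT
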