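import Pool.Agent.Lib.MMT.Bubble

/-! For `0 < α < 1/2` some datum has no solution. -/

namespace Pool.Agent.Lib.MMT

open Filter Topology MeasureTheory AddCircle Complex Set
open scoped Real ComplexConjugate

noncomputable section

lemma exists_scale {α c B : ℝ} (hα1 : α < 1 / 2) (hc : 0 < c) :
    ∃ (m : ℕ) (l A : ℝ), 0 < l ∧ l ≤ 1 ∧ 0 < A ∧ m * l = 2 * π ∧ A ^ 2 * l = c ^ 2 * l ^ α ∧
      B ≤ A ^ 4 * l := by
  have h1 : Tendsto (fun m : ℕ => (m : ℝ) / (2 * π)) atTop atTop :=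
    tendsto_natCast_atTop_atTop.atTop_div_const Real.two_pi_pos
  have h2 : Tendsto (fun m : ℕ => c ^ 4 * ((m : ℝ) / (2 * π)) ^ (1 - 2 * α)) atTop atTop :=
    ((tendsto_rpow_atTop (by linarith)).comp h1).const_mul_atTop (by positivity)
  obtain ⟨m, hm1, hm2⟩ := ((h1.eventually_ge_atTop 1).and (h2.eventually_ge_atTop B)).exists
  set y : ℝ := m / (2 * π) with hy
  have hy0 : 0 < y := by linarith
  have hA : (c * √(y⁻¹ ^ α * y)) ^ 2 = c ^ 2 * (y⁻¹ ^ α * y) := by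
    rw [mul_pow, Real.sq_sqrt (by positivity)]
  refine ⟨m, y⁻¹, c * √(y⁻¹ ^ α * y), by positivity, inv_le_one_of_one_le₀ hm1, by positivity,
    ?_, ?_, ?_⟩
  · have : (m : ℝ) = y * (2 * π) := by rw [hy]; field_simp
    rw [this]; field_simp
  · rw [hA]; field_simp
  · rw [show (4 : ℕ) = 2 * 2 from rfl, pow_mul, hA]
    refine hm2.trans (le_of_eq ?_)
    rw [Real.rpow_sub hy0, Real.rpow_one, mul_comm 2 α, Real.rpow_mul hy0.le, Real.rpow_two,
      Real.inv_rpow hy0.le]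
    field_simp

lemma no_key {α : ℝ} (hα : 0 < α) (hα1 : α < 1 / 2) {M r : ℝ} (hM : 0 ≤ M) (hr : 0 < r) (p : X) :
    ∃ φ : X, hsNormSq α (fourierCoeff φ) ≤ ENNReal.ofReal (r ^ 2) ∧ ∃ η > 0,
      ∀ v, IsSmoothSol α 1 v → (∀ t ∈ Icc (-1 : ℝ) 1, SB α (fourierCoeff (v t)) M) →
        ¬ ∫ x, ‖v 0 x - (p x + φ x)‖ ^ 2 ∂mu ≤ η := by
  obtain ⟨C, hC0, hC⟩ := dyadic_sum hα hα1.le
  set c := r / (1 + 6 * C) with hc
  have hc0 : 0 < c := by positivity
  obtain ⟨n, hn1, hn2⟩ : ∃ n : ℕ, (2000 : ℝ) ≤ n ∧ 16000000 * M / c ^ 2 ≤ (n : ℝ) ^ α :=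
    ((tendsto_natCast_atTop_atTop.eventually_ge_atTop (2000 : ℝ)).and
      (((tendsto_rpow_atTop hα).comp tendsto_natCast_atTop_atTop).eventually_ge_atTop _)).exists
  have hn0 : (0 : ℝ) < n := by linarith
  set τ : ℝ := 2 * π * n with hτ
  have hτ0 : 0 < τ := by positivity
  set L : ℝ := 6 * (1 + τ) ^ 2 with hL
  set K : ℝ := M + 3 * (2 * L ^ 2 * ((4 + (τ + 4) ^ 2) * C * c ^ 2) + 2 * L ^ 2 * (4 * C * M))
    with hK
  set A0 : ℝ := 2000 * (4 + 2 * τ) * (‖p‖ + 1) with hA0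
  obtain ⟨m, l, A, hl, hl1, hA, hm, hAl, hB⟩ := exists_scale
    (B := max (2000 * K * τ) (max ((2 * τ) ^ 2) (A0 ^ 4))) hα1 hc0
  have hA4 : A ^ 4 * l ≤ A ^ 4 := mul_le_of_le_one_right (by positivity) hl1
  have hB1 : 2000 * K * τ ≤ A ^ 4 * l := (le_max_left _ _).trans hB
  have hB2 : 2 * τ ≤ A ^ 2 := by
    have : (2 * τ) ^ 2 ≤ (A ^ 2) ^ 2 := by
      have := ((le_max_left _ _).trans (le_max_right _ _)).trans hB
      linarith
    exact (pow_le_pow_iff_left₀ (by positivity) (by positivity) two_ne_zero).1 this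
  have hB3 : A0 ≤ A := by
    have : A0 ^ 4 ≤ A ^ 4 := (((le_max_right _ _).trans (le_max_right _ _)).trans hB).trans hA4
    exact (pow_le_pow_iff_left₀ (by positivity) (by positivity) (by norm_num)).1 this
  refine ⟨bub A l, (hs_bub hα.le (by linarith) hC hl hl1 hAl).trans
    (ENNReal.ofReal_le_ofReal ?_), l ^ 2, by positivity, fun v hv hvM hw => ?_⟩
  · rw [hc, div_pow, ← mul_div_assoc, div_le_iff₀ (by positivity)]
    have : 0 ≤ r ^ 2 * ((1 + 6 * C) * (6 * C)) := by positivity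
    nlinarith
  set κ : ℤ := n * m with hκ
  have hκl : κ * l = 2 * π * n := by rw [hκ, ← hm]; push_cast; ring
  have hψ : QB α (psi l κ) ((4 + (τ + 4) ^ 2) * l * (C * l⁻¹ ^ α)) :=
    QB_of_min hC (by positivity) (one_le_inv₀ hl |>.2 hl1) fun h hh => DD_psi hl (by
      rw [hτ, ← hκl, abs_of_nonneg (by rw [hκ]; positivity)]; field_simp; rfl) hh
  have hts : τ / A ^ 2 * A ^ 2 = τ := by field_simp
  have hts1 : τ / A ^ 2 ≤ 1 / 2 := by rw [div_le_iff₀ (by positivity)]; linarith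
  have hts0 : 0 ≤ τ / A ^ 2 := by positivity
  have d1 := J_drift hα.le hα1.le hC0 hC hv hvM hA hts0 hts1 hts.le (psi l κ)
    (fun x => by rw [norm_psi]; exact eta_le_one hl x) hψ
  rw [hts] at d1
  have ht : τ / A ^ 2 ∈ Icc (-1 : ℝ) 1 := ⟨by linarith, by linarith⟩
  have h0 : (0 : ℝ) ∈ Icc (-1 : ℝ) 1 := ⟨by norm_num, by norm_num⟩
  have d2 := J0_lower hl hl1 n hκl
  have d3 := J0_pert hA hl hτ0.le κ p ⟨v 0, hv.cont h0⟩ hw
  have hδ : 0 < l / (2 * n) := by positivity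
  have d4 := J1_upper hA hl (ε := 1 / 2000) (by norm_num) hδ (κ := κ) (by
    rw [← mul_div_assoc, hκl]; field_simp) ⟨v (τ / A ^ 2), hv.cont ht⟩
  have d5 := DD_le_of_SB hα.le (by linarith) (g := ⟨v (τ / A ^ 2), hv.cont ht⟩) (hvM _ ht) hδ
  simp only [ContinuousMap.coe_mk] at d3 d4
  rw [← hτ] at d2
  have hlα : 0 < l ^ α := by positivity
  have e1 : l * l⁻¹ ^ α = c ^ 2 / A ^ 2 := by
    rw [Real.inv_rpow hl.le]; field_simp; linarith
  have b1 : (M / A ^ 2 + 3 * (2 * L ^ 2 * ((4 + (τ + 4) ^ 2) * l * (C * l⁻¹ ^ α)) +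
      2 * (L / A) ^ 2 * (4 * C * M))) * (τ / A ^ 2) ≤ l / 2000 := by
    have : (4 + (τ + 4) ^ 2) * l * (C * l⁻¹ ^ α) = (4 + (τ + 4) ^ 2) * C * (l * l⁻¹ ^ α) := by ring
    rw [this, e1]
    calc _ = K * τ / A ^ 4 := by rw [hK]; field_simp
      _ ≤ l / 2000 := by rw [div_le_div_iff₀ (by positivity) (by norm_num)]; linarith
  have b3 : (4 + 2 * τ) / A * (‖p‖ + 1) * l ≤ l / 2000 := by
    have : (4 + 2 * τ) / A * (‖p‖ + 1) ≤ 1 / 2000 := by
      rw [div_mul_eq_mul_div, div_le_div_iff₀ hA (by norm_num)]; linarith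
    calc _ ≤ 1 / 2000 * l := by gcongr
      _ = _ := by ring
  have b4 : DD (l / (2 * n)) ⟨v (τ / A ^ 2), hv.cont ht⟩ / (1 / 2000 * A ^ 2) ≤ l / 2000 := by
    have h1 : (l / (2 * n)) ^ α ≤ l ^ α / (n : ℝ) ^ α := by
      rw [← Real.div_rpow hl.le hn0.le]; gcongr; linarith
    have hnα : 0 < (n : ℝ) ^ α := by positivity
    rw [div_le_iff₀ (by positivity)] at hn2
    rw [div_le_iff₀ (by positivity)]
    calc _ ≤ 4 * (l ^ α / (n : ℝ) ^ α) * M := d5.trans (by gcongr)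
      _ = l ^ α / (n : ℝ) ^ α * (16000000 * M) / 4000000 := by ring
      _ ≤ l ^ α / (n : ℝ) ^ α * ((n : ℝ) ^ α * c ^ 2) / 4000000 := by gcongr
      _ = c ^ 2 * l ^ α / 4000000 := by field_simp
      _ = _ := by rw [← hAl]; ring
  have b5 : 2 * (l / (2 * n)) ≤ l / 2000 := by
    rw [show 2 * (l / (2 * n)) = l / n by field_simp]; gcongr
  have t1 := norm_sub_norm_le (∫ x, GH τ (√(tent l x) : ℝ) * psi l κ x ∂mu)
    (∫ x, GH τ (v 0 x / A) * psi l κ x ∂mu)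
  have t2 := norm_sub_norm_le (∫ x, GH τ (v 0 x / A) * psi l κ x ∂mu)
    (∫ x, GH 0 (v (τ / A ^ 2) x / A) * psi l κ x ∂mu)
  rw [norm_sub_rev] at t1 t2
  linarith

lemma int_sq_le_of_hs {α : ℝ} (hα : 0 ≤ α) (g : X) {η : ℝ} (hη : 0 ≤ η)
    (h : hsNormSq α (fourierCoeff g) ≤ ENNReal.ofReal η) : ∫ x, ‖g x‖ ^ 2 ∂mu ≤ η := by
  have hs := summable_of_hs (h.trans_lt ENNReal.ofReal_lt_top)
  refine le_trans (hasSum_le (fun k => ?_) (parseval g) hs.hasSum) (tsum_le_of_hs hη h)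
  exact le_mul_of_one_le_left (sq_nonneg _)
    (Real.one_le_rpow (by linarith [abs_nonneg (k : ℝ)]) hα)

lemma exists_trig (a : L2) {ε : ℝ} (hε : 0 < ε) :
    ∃ (s : Finset ℤ) (b : L2), ‖b - a‖ < ε ∧ b = ∑ k ∈ s, lp.single 2 k (a k) := by
  have h := lp.hasSum_single (p := 2) (by norm_num) a
  obtain ⟨s, hs⟩ := (Metric.tendsto_nhds.1 h ε hε).exists
  exact ⟨s, _, by rwa [dist_eq_norm] at hs, rfl⟩

lemma ofL2_trig (α : ℝ) (a : L2) (s : Finset ℤ) :
    ofL2 α (∑ k ∈ s, lp.single 2 k (a k)) =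
      fourierCoeff (∑ k ∈ s, (a k / wt α k) • fourier k : X) := by
  ext j
  rw [← cf_apply, map_sum]
  simp only [map_smul, cf_fourier, ofL2, lp.coeFn_sum, Finset.sum_apply, lp.single_apply,
    Finset.sum_div, Pi.single_apply, smul_eq_mul]
  refine Finset.sum_congr rfl fun k _ => ?_
  split_ifs with h
  · simp [h]
  · simp

theorem not_all {α : ℝ} (hα : 0 < α) (hα1 : α < 1 / 2) :
    ¬ ∀ c : ℤ → ℂ, hsNormSq α c < ⊤ → HasGlobalSol α c := by
  intro H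
  set S : ℕ → Set L2 := fun M => {a | ∀ η > 0, ∃ v, IsSmoothSol α 1 v ∧
    (∀ t ∈ Icc (-1 : ℝ) 1, hsNormSq α (fourierCoeff (v t)) ≤ ENNReal.ofReal M) ∧
    hsNormSq α (fourierCoeff (v 0) - ofL2 α a) ≤ ENNReal.ofReal η} with hS
  have two : ∀ x y : ℝ, 0 ≤ x → 0 ≤ y →
      2 * ENNReal.ofReal x + 2 * ENNReal.ofReal y = ENNReal.ofReal (2 * x + 2 * y) := by
    intro x y hx hy
    rw [ENNReal.ofReal_add (by positivity) (by positivity), ENNReal.ofReal_mul (by norm_num),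
      ENNReal.ofReal_mul (by norm_num)]
    simp
  have hcl : ∀ M, IsClosed (S M) := by
    intro M
    refine isClosed_of_closure_subset fun a ha η hη => ?_
    obtain ⟨b, hb, hab⟩ := Metric.mem_closure_iff.1 ha (√(η / 4)) (by positivity)
    obtain ⟨v, h1, h2, h3⟩ := hb (η / 4) (by positivity)
    refine ⟨v, h1, h2, ?_⟩
    have e : fourierCoeff (v 0) - ofL2 α a =
        (fourierCoeff (v 0) - ofL2 α b) + ofL2 α (b - a) := by rw [ofL2_sub]; abel
    rw [e]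
    refine (hs_add_le _ _ _).trans ?_
    rw [hs_ofL2]
    rw [dist_comm, dist_eq_norm] at hab
    have h4 : ‖b - a‖ ^ 2 ≤ η / 4 := by
      rw [← Real.sq_sqrt (by positivity : 0 ≤ η / 4)]; gcongr
    calc _ ≤ 2 * ENNReal.ofReal (η / 4) + 2 * ENNReal.ofReal (η / 4) := by gcongr
      _ = _ := by rw [two _ _ (by positivity) (by positivity)]; congr 1; ring
  have hun : ⋃ M, S M = univ := by
    refine eq_univ_of_forall fun a => ?_
    obtain ⟨u, h0, hfin, hcont, happ⟩ := H (ofL2 α a) (by rw [hs_ofL2]; exact ENNReal.ofReal_lt_top)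
    choose U hU using fun t => exists_ofL2 (hfin t)
    have hUc : Continuous U := by
      refine continuous_iff_continuousAt.2 fun t => tendsto_iff_norm_sub_tendsto_zero.2 ?_
      have h1 := hcont t
      simp only [← hU, ← ofL2_sub, hs_ofL2] at h1
      have h2 := (ENNReal.tendsto_toReal ENNReal.zero_ne_top).comp h1
      have h3 := (Real.continuous_sqrt.tendsto _).comp h2
      simp only [ENNReal.toReal_zero, Real.sqrt_zero] at h3
      refine h3.congr fun s => ?_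
      simp
    obtain ⟨B, hB⟩ := (isCompact_Icc (a := (-1 : ℝ)) (b := 1)).exists_bound_of_continuousOn
      hUc.continuousOn
    obtain ⟨M, hM⟩ := exists_nat_ge (2 * 1 + 2 * B ^ 2)
    refine mem_iUnion.2 ⟨M, fun η hη => ?_⟩
    obtain ⟨v, hv1, hv2⟩ := happ 1 one_pos
    have hv3 := hv2.eventually (Iic_mem_nhds (ENNReal.ofReal_pos.2 (lt_min hη one_pos)))
    obtain ⟨n, hn1, hn2⟩ := (hv1.and hv3).exists
    have hn3 : ∀ t ∈ Icc (-1 : ℝ) 1, hsNormSq α (fourierCoeff (v n t) - u t) ≤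
        ENNReal.ofReal (min η 1) := fun t ht =>
      (le_iSup₂ (f := fun t (_ : t ∈ Icc (-1 : ℝ) 1) =>
        hsNormSq α (fourierCoeff (v n t) - u t)) t ht).trans hn2
    refine ⟨v n, hn1, fun t ht => ?_, ?_⟩
    · rw [← sub_add_cancel (fourierCoeff (v n t)) (u t)]
      refine (hs_add_le _ _ _).trans ?_
      rw [← hU t, hs_ofL2, hU t]
      calc _ ≤ 2 * ENNReal.ofReal 1 + 2 * ENNReal.ofReal (B ^ 2) := by
            gcongr
            · exact (hn3 t ht).trans (ENNReal.ofReal_le_ofReal (min_le_right _ _))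
            · exact hB t ht
        _ ≤ _ := by
            rw [two _ _ zero_le_one (sq_nonneg _)]; exact ENNReal.ofReal_le_ofReal hM
    · rw [← h0]
      exact (hn3 0 ⟨by norm_num, by norm_num⟩).trans (ENNReal.ofReal_le_ofReal (min_le_left _ _))
  obtain ⟨M, a0, ha0⟩ := nonempty_interior_of_iUnion_of_closed hcl hun
  obtain ⟨r, hr, hball⟩ := Metric.mem_nhds_iff.1 (mem_interior_iff_mem_nhds.1 ha0)
  obtain ⟨s, b, hb1, hb2⟩ := exists_trig a0 (half_pos hr)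
  set p : X := ∑ k ∈ s, (a0 k / wt α k) • fourier k with hp
  obtain ⟨φ, hφ, η, hη, hno⟩ := no_key hα hα1 (Nat.cast_nonneg M) (half_pos hr) p
  obtain ⟨aφ, haφ⟩ := exists_ofL2 (hφ.trans_lt ENNReal.ofReal_lt_top)
  have h1 : ‖aφ‖ ≤ r / 2 := by
    rw [← haφ, hs_ofL2, ENNReal.ofReal_le_ofReal_iff (sq_nonneg _)] at hφ
    exact (pow_le_pow_iff_left₀ (norm_nonneg _) (by positivity) two_ne_zero).1 hφ
  have h2 : b + aφ ∈ S M := by
    apply hball
    rw [mem_ball_iff_norm, add_sub_right_comm]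
    linarith [norm_add_le (b - a0) aφ]
  obtain ⟨v, hv1, hv2, hv3⟩ := h2 η hη
  refine hno v hv1 (fun t ht => SB_of_hs hα.le (Nat.cast_nonneg M) (hv2 t ht)) ?_
  have h0 : (0 : ℝ) ∈ Icc (-1 : ℝ) 1 := ⟨by norm_num, by norm_num⟩
  refine int_sq_le_of_hs hα.le (⟨v 0, hv1.cont h0⟩ - (p + φ)) hη.le ?_
  have e : fourierCoeff ((⟨v 0, hv1.cont h0⟩ - (p + φ) : X)) =
      fourierCoeff (v 0) - ofL2 α (b + aφ) := by
    rw [ofL2_add, haφ, hb2, ofL2_trig]
    ext k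
    rw [← cf_apply, map_sub, map_add]; rfl
  rwa [e]

end

end Pool.Agent.Lib.MMT
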