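import Pool.Agent.Lib.MMT.Fast

/-! Inserting one Fourier mode, carried by fast particles. -/

namespace Pool.Agent.Lib.MMT

open Filter Topology MeasureTheory AddCircle Complex Set Metric
open scoped Real ComplexConjugate

noncomputable section

variable {K : X →L[ℂ] X} {U u : ℝ → X} {C T θ q ε : ℝ} {P : ℕ}

lemma int_two {a b x : ℝ} {f : Ci → ℝ} (hb : 0 ≤ b) (hf : Integrable f mu)
    (h1 : ∫ t, f t ∂mu ≤ x) : ∫ t, (a + b * f t) ∂mu ≤ a + b * x := by
  rw [integral_add (integrable_const a) (hf.const_mul b), integral_const_mul]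
  simp only [integral_const, probReal_univ, smul_eq_mul, one_mul]
  gcongr

lemma Setup.avg (H : Setup K U C T θ q ε P) (y : Ci) {t : ℝ} (ht : |t| ≤ T) :
    ‖∫ s in (0 : ℝ)..t, U s y‖ ≤ 26 * C ^ 2 := by
  have hC := H.hC
  rcases le_total ‖U 0 y‖ (4 * C) with h | h
  · refine (norm_int_le (C := 5 * C) ht fun s hs => ?_).trans ?_
    · linarith [(abs_le.1 (H.amp s hs y)).2]
    · nlinarith [H.hT]
  · have c1 : Cub (fun _ => 1) (fun _ => -1) :=
      ⟨continuous_const, fun t => by simpa using hasDerivAt_const t (1 : ℂ)⟩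
    have := osc_far (H.sol.cub y) c1 hC H.hT (H.force y) (fun _ _ => by simpa using hC) h
      (fun s hs => H.amp s hs y) (fun _ _ => by simpa using hC) ht
    simp only [mul_one] at this
    rw [intervalIntegral.intervalIntegral_conj, Complex.norm_conj] at this
    exact this.trans (div_le_self (by positivity) (by linarith))

lemma Setup.slow (H : Setup K U C T θ q ε P) (hu : IsSol K u) (hb : ∀ s, |s| ≤ T → ‖u s‖ ≤ C)
    (h0 : ∀ x, 2 * θ ≤ ‖P • x‖ → U 0 x = u 0 x) {t : ℝ} (ht : |t| ≤ T) {x : Ci}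
    (hx : 2 * θ ≤ ‖P • x‖) : ‖U t x - u t x‖ ≤ 19 * C ^ 4 * Real.exp (4 * C ^ 3) / q := by
  have hq1 := H.one_le_q
  have hC := H.hC
  have hθ := H.hθ
  have hq0 : 0 < q := by linarith
  have hqC := H.q_ge
  set S : Set Ci := {x | 2 * θ ≤ ‖P • x‖} with hS
  have hSc : IsClosed S := isClosed_le continuous_const (by fun_prop)
  have : CompactSpace S := isCompact_iff_compactSpace.1 hSc.isCompact
  have cd : Continuous fun s => U s - u s := H.sol.cont.sub hu.cont
  obtain ⟨W, hW⟩ : ∃ W : ℝ → ℝ, ∀ s, W s = ‖(U s - u s).restrict S‖ := ⟨_, fun _ => rfl⟩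
  have cW : Continuous W := by
    rw [show W = _ from funext hW]
    exact ((ContinuousMap.continuous_restrict S).comp cd).norm
  have W0 : ∀ s, 0 ≤ W s := fun s => by rw [hW]; exact norm_nonneg _
  have Wle : ∀ s, ∀ y ∈ S, ‖U s y - u s y‖ ≤ W s := fun s y hy => by
    rw [hW]; exact ((U s - u s).restrict S).norm_coe_le_norm ⟨y, hy⟩
  have hb' : ∀ y s, |s| ≤ T → ‖u s y‖ ≤ C := fun y s hs =>
    ((u s).norm_coe_le_norm y).trans (hb s hs)
  have key := gronwall cW W0 (ε := 19 * C ^ 4 / q) (L := 4 * C ^ 2) (T := T) (by positivity)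
    (fun t ht => by
      rw [hW]
      refine (ContinuousMap.norm_le _ (by positivity)).2 fun y => ?_
      have h1 := (H.sol.cub y).stab (hu.cub y) (H.out y (by linarith [show 2 * θ ≤ _ from y.2]))
        (hb' y) cW (fun s => Wle s y y.2) ht
      obtain ⟨h, hh⟩ : ∃ h : X, h = ∫ s in (0 : ℝ)..t, (U s - u s) := ⟨_, rfl⟩
      have e1 : ∫ s in (0 : ℝ)..t, (K (U s) y - K (u s) y) = K h y := by
        rw [hh, ← K.intervalIntegral_comp_comm (cd.intervalIntegrable 0 t),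
          int_apply (u := fun s => K (U s - u s)) (K.continuous.comp cd)]
        simp
      have e2 : ∀ z, h z = ∫ s in (0 : ℝ)..t, (U s z - u s z) := fun z => by
        rw [hh, int_apply cd]; rfl
      have hb1 : ∀ z, ‖h z‖ ≤ |∫ s in (0 : ℝ)..t, W s| + 27 * C ^ 2 * bl 0 (2 * θ) (P • z) := by
        intro z
        rcases le_total (2 * θ) ‖P • z‖ with hz | hz
        · have : ‖h z‖ ≤ |∫ s in (0 : ℝ)..t, W s| := by
            rw [e2]
            exact intervalIntegral.norm_integral_le_abs_of_norm_le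
              (ae_of_all _ fun s => Wle s z hz) (cW.intervalIntegrable _ _)
          linarith [mul_nonneg (by positivity : 0 ≤ 27 * C ^ 2) (bl_nonneg 0 (2 * θ) (P • z))]
        · rw [bl_of_le (by rw [sub_zero]; exact hz), e2, intervalIntegral.integral_sub
            ((H.sol.cub z).cont.intervalIntegrable _ _) ((hu.cub z).cont.intervalIntegrable _ _)]
          have a1 := H.avg z ht
          have a2 := norm_int_le ht (hb' z)
          have a3 : C * T ≤ C ^ 2 := by nlinarith [H.hT]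
          linarith [norm_sub_le (∫ s in (0 : ℝ)..t, U s z) (∫ s in (0 : ℝ)..t, u s z),
            abs_nonneg (∫ s in (0 : ℝ)..t, W s)]
      have hb2 : ‖h‖ ≤ 4 * C * q ^ 8 := by
        refine (ContinuousMap.norm_le _ (by positivity)).2 fun z => ?_
        rw [e2]
        have q4 : q ≤ q ^ 4 := le_self_pow₀ hq1 (by norm_num)
        have q8 : q ^ 4 ≤ q ^ 8 := pow_le_pow_right₀ hq1 (by norm_num)
        refine (norm_int_le (C := 4 * q ^ 8) ht fun s hs => ?_).trans ?_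
        · linarith [norm_sub_le (U s z) (u s z), H.all z s hs, hb' z s hs]
        · calc _ ≤ 4 * q ^ 8 * C := by gcongr; exact H.hT
            _ = _ := by ring
      have hi : Integrable (fun z => |∫ s in (0 : ℝ)..t, W s| + 27 * C ^ 2 * bl 0 (2 * θ) z) mu :=
        (integrable_const _).add ((integrable_bl _ _).const_mul _)
      have h2 := H.dom h _ _ hi hb1 hb2
      have h3 := int_two (a := |∫ s in (0 : ℝ)..t, W s|) (by positivity : 0 ≤ 27 * C ^ 2)
        (integrable_bl 0 (2 * θ)) (int_bl 0 (by positivity))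
      have h4 : 27 * C ^ 2 * (2 * θ / 3) ≤ 18 * C ^ 3 / q := by
        have q4 : q ≤ q ^ 4 := le_self_pow₀ hq1 (by norm_num)
        have : θ * q ≤ C := le_trans (by gcongr) H.hθq
        rw [le_div_iff₀ hq0]
        calc _ = 18 * C ^ 2 * (θ * q) := by ring
          _ ≤ 18 * C ^ 2 * C := by gcongr
          _ = _ := by ring
      have h5 := mul_le_mul_of_nonneg_left (h3.trans (add_le_add le_rfl h4)) (by linarith : 0 ≤ C)
      have h6 := (K h).norm_coe_le_norm y
      have h7 : 1 / q ≤ C ^ 4 / q := by gcongr; exact one_le_pow₀ hC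
      have h8 : C * |∫ s in (0 : ℝ)..t, W s| ≤ C ^ 2 * |∫ s in (0 : ℝ)..t, W s| := by
        gcongr; nlinarith
      simp only [h0 y y.2, sub_self, norm_zero, zero_add, e1] at h1
      have e3 : C * (|∫ s in (0 : ℝ)..t, W s| + 18 * C ^ 3 / q) =
        C * |∫ s in (0 : ℝ)..t, W s| + 18 * (C ^ 4 / q) := by ring
      have e4 : 19 * C ^ 4 / q = 19 * (C ^ 4 / q) := by ring
      change ‖U t y - u t y‖ ≤ _
      linarith [H.hε]) t ht
  refine (Wle t x hx).trans (key.trans ?_)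
  have : 4 * C ^ 2 * T ≤ 4 * C ^ 3 := by nlinarith [H.hT, sq_nonneg C]
  rw [div_mul_eq_mul_div]
  gcongr

lemma Setup.final (H : Setup K U C T θ q ε P) (hu : IsSol K u) (hb : ∀ s, |s| ≤ T → ‖u s‖ ≤ C)
    (h0 : ∀ x, 2 * θ ≤ ‖P • x‖ → U 0 x = u 0 x) {A : X →L[ℂ] L2} (hA : DomAt A 1 ε P)
    {t : ℝ} (ht : |t| ≤ T) {G : X}
    (hG1 : ∀ x, ‖P • x‖ ≤ θ → G x = Complex.exp (I * ((-(t * ‖U 0 x‖ ^ 2) : ℝ) : ℂ)) * U 0 x)
    (hG2 : ∀ x, θ ≤ ‖P • x‖ → G x = 0) :
    ‖A (U t - u t - G)‖ ≤ (19 * C ^ 4 * Real.exp (4 * C ^ 3) + 1206 * C ^ 6 + 1) / q := by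
  have hq1 := H.one_le_q
  have hC := H.hC
  have hθ := H.hθ
  have hq0 : 0 < q := by linarith
  have hqC := H.q_ge
  have hT0 : 0 ≤ T := (abs_nonneg t).trans ht
  have q2 : q ≤ q ^ 2 := le_self_pow₀ hq1 (by norm_num)
  have q3 : q ^ 2 ≤ q ^ 3 := pow_le_pow_right₀ hq1 (by norm_num)
  have q4 : q ^ 3 ≤ q ^ 4 := pow_le_pow_right₀ hq1 (by norm_num)
  have q8 : q ^ 4 ≤ q ^ 8 := pow_le_pow_right₀ hq1 (by norm_num)
  have c5 : 1 ≤ C ^ 5 := one_le_pow₀ hC
  have hb' : ∀ y, ‖u t y‖ ≤ C := fun y => ((u t).norm_coe_le_norm y).trans (hb t ht)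
  have nG : ∀ x, ‖G x‖ ≤ ‖U 0 x‖ := fun x => by
    rcases le_total θ ‖P • x‖ with h | h
    · simp [hG2 x h]
    · rw [hG1 x h, norm_mul, Complex.norm_exp_I_mul_ofReal, one_mul]
  have tri : ∀ x, ‖(U t - u t - G) x‖ ≤ ‖U t x - G x‖ + ‖u t x‖ := fun x => by
    rw [show (U t - u t - G) x = (U t x - G x) - u t x by simp; ring]
    exact norm_sub_le _ _
  have n3 : q ^ 3 ≤ C ^ 5 * q ^ 3 := le_mul_of_one_le_left (by positivity) c5
  have hb1 : ∀ x, ‖(U t - u t - G) x‖ ≤ 19 * C ^ 4 * Real.exp (4 * C ^ 3) / q +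
      1206 * C ^ 5 * q ^ 3 * bl 0 (2 * θ) (P • x) := by
    intro x
    have n1 : 0 ≤ 19 * C ^ 4 * Real.exp (4 * C ^ 3) / q := by positivity
    rcases le_total (2 * θ) ‖P • x‖ with hx | hx
    · have := H.slow hu hb h0 ht hx
      have e : (U t - u t - G) x = U t x - u t x := by simp [hG2 x (by linarith)]
      rw [e]
      linarith [mul_nonneg (by positivity : 0 ≤ 1206 * C ^ 5 * q ^ 3)
        (bl_nonneg 0 (2 * θ) (P • x))]
    rw [bl_of_le (by rw [sub_zero]; exact hx), mul_one]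
    refine (tri x).trans ?_
    have a0 := hb' x
    rcases le_total (q ^ 2) ‖U 0 x‖ with hr | hr
    · have hx1 : ‖P • x‖ ≤ θ := by
        by_contra hc
        have := H.out x (not_le.1 hc).le 0 (by simpa using hT0)
        linarith
      have a1 := (H.sol.cub x).free (H.force x) (fun s hs => H.drift hr hs) ht
      rw [← hG1 x hx1] at a1
      have a2 : C * T ≤ C ^ 5 * q ^ 3 := by
        calc C * T ≤ C * C := by gcongr; exact H.hT
          _ = C ^ 2 * 1 := by ring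
          _ ≤ C ^ 5 * q ^ 3 := by gcongr; norm_num; linarith
      have a3 : ‖U 0 x‖ * (1202 * C ^ 4 / q * T) ≤ 1202 * C ^ 5 * q ^ 3 := by
        calc _ ≤ q ^ 4 * (1202 * C ^ 4 / q * C) := by gcongr; exacts [H.top x, H.hT]
          _ = _ := by field_simp
      linarith
    · have a1 := (abs_le.1 (H.amp t ht x)).2
      linarith [norm_sub_le (U t x) (G x), nG x]
  have hb2 : ‖U t - u t - G‖ ≤ 4 * C * q ^ 8 := by
    refine (ContinuousMap.norm_le _ (by positivity)).2 fun x => (tri x).trans ?_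
    have : q ^ 8 ≤ C * q ^ 8 := le_mul_of_one_le_left (by positivity) hC
    linarith [norm_sub_le (U t x) (G x), nG x, H.all x t ht, H.top x, hb' x]
  have hi : Integrable (fun z => 19 * C ^ 4 * Real.exp (4 * C ^ 3) / q +
      1206 * C ^ 5 * q ^ 3 * bl 0 (2 * θ) z) mu :=
    (integrable_const _).add ((integrable_bl _ _).const_mul _)
  have h2 := hA _ _ _ hi hb1 hb2
  have h3 := int_two (a := 19 * C ^ 4 * Real.exp (4 * C ^ 3) / q)
    (by positivity : 0 ≤ 1206 * C ^ 5 * q ^ 3) (integrable_bl 0 (2 * θ)) (int_bl 0 (by positivity))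
  have h4 : 1206 * C ^ 5 * q ^ 3 * (2 * θ / 3) ≤ 1206 * C ^ 6 / q := by
    rw [le_div_iff₀ hq0]
    calc _ = 804 * C ^ 5 * (θ * q ^ 4) := by ring
      _ ≤ 1206 * C ^ 5 * C := by gcongr; norm_num; exact H.hθq
      _ = _ := by ring
  rw [add_div, add_div]
  linarith [H.hε]

/-- cut-off vanishing on the bubble -/
def zeta (θ : ℝ) (y : Ci) : ℝ := 1 - min 1 (2 * tent (2 * θ) y)

lemma zeta_mem (θ : ℝ) (y : Ci) : |zeta θ y| ≤ 1 := by
  have h1 := min_le_left 1 (2 * tent (2 * θ) y)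
  have h2 : 0 ≤ min 1 (2 * tent (2 * θ) y) := le_min zero_le_one (by linarith [tent_nonneg (2 * θ) y])
  rw [zeta, abs_le]; constructor <;> linarith

lemma zeta_in {θ : ℝ} (hθ : 0 < θ) {y : Ci} (h : ‖y‖ ≤ θ) : zeta θ y = 0 := by
  have h1 : 1 - ‖y‖ / (2 * θ) ≤ tent (2 * θ) y := le_max_right _ _
  have h2 : ‖y‖ / (2 * θ) ≤ 1 / 2 := by rw [div_le_iff₀ (by positivity)]; linarith
  rw [zeta, min_eq_left (by linarith), sub_self]

lemma zeta_out {θ : ℝ} (hθ : 0 < θ) {y : Ci} (h : 2 * θ ≤ ‖y‖) : zeta θ y = 1 := by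
  rw [zeta, tent_eq_zero (by positivity) h]; simp

lemma mean_bounds {θ : ℝ} (hθ : 0 < θ) (hθ1 : θ ≤ 1) :
    θ / 16 ≤ ∫ y, √(tent θ y) ∂mu ∧ ∫ y, √(tent θ y) ∂mu ≤ θ := by
  have c := continuous_tent θ
  constructor
  · calc θ / 16 = (θ / 2 / 4) * (1 / 2) := by ring
      _ ≤ mu.real (closedBall (0 : Ci) (θ / 2)) * (1 / 2) := by
          gcongr; exact mu_ball_ge _ (by positivity) (by linarith)
      _ = ∫ x, (closedBall (0 : Ci) (θ / 2)).indicator (fun _ => (1 / 2 : ℝ)) x ∂mu := by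
          rw [integral_indicator_const _ measurableSet_closedBall, smul_eq_mul]
      _ ≤ _ := by
          refine integral_mono ((integrable_const _).indicator measurableSet_closedBall)
            (integ (by fun_prop)) fun x => ?_
          by_cases hx : x ∈ closedBall (0 : Ci) (θ / 2)
          · rw [indicator_of_mem hx]
            rw [mem_closedBall_zero_iff] at hx
            have h1 : 1 - ‖x‖ / θ ≤ tent θ x := le_max_right _ _
            have h2 : ‖x‖ / θ ≤ 1 / 2 := by rw [div_le_iff₀ hθ]; linarith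
            exact Real.le_sqrt_of_sq_le (by linarith)
          · rw [indicator_of_notMem hx]; exact Real.sqrt_nonneg _
  · simpa using int_le_two_balls (F := fun y => √(tent θ y)) (by fun_prop) zero_le_one hθ.le 0 0
      (fun x => Real.sqrt_le_one.2 (tent_le_one hθ x)) fun x h _ => by
        rw [sub_zero] at h; simp [tent_eq_zero hθ h.le]

lemma force_bound (hU : IsSol K U) {B M μ R : ℝ} (hB : 0 ≤ B) (hM : 0 ≤ M) (hε1 : ε ≤ 1)
    (hεR : ε * R ≤ 1) (hd : DomAt K B ε P) {β : Ci → ℝ} (hβ : Integrable β mu)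
    (hμ : ∫ y, β y ∂mu ≤ μ) (hβR : ∀ y, β y ≤ R) (h0 : ∀ x, ‖U 0 x‖ ≤ M + β (P • x)) :
    ∀ s, |s| ≤ T → ‖K (U s)‖ ≤ (B * (M + μ) + M + 1) * Real.exp ((B + 1) * T) := by
  have cF : Continuous fun s => ‖K (U s)‖ := (K.continuous.comp hU.cont).norm
  refine gronwall cF (fun _ => norm_nonneg _) (by linarith) fun t _ => ?_
  obtain ⟨J, hJ⟩ : ∃ J, J = |∫ s in (0 : ℝ)..t, ‖K (U s)‖| := ⟨_, rfl⟩
  rw [← hJ]
  have J0 : 0 ≤ J := by rw [hJ]; exact abs_nonneg _
  have h1 : ∀ x, ‖U t x‖ ≤ (M + J) + 1 * β (P • x) := fun x => by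
    have a1 := (abs_le.1 ((hU.cub x).amp' t)).2
    have a2 : |∫ s in (0 : ℝ)..t, ‖K (U s) x‖| ≤ J := by
      rw [hJ, ← Real.norm_eq_abs]
      exact intervalIntegral.norm_integral_le_abs_of_norm_le (ae_of_all _ fun s => by
        rw [norm_norm]; exact (K (U s)).norm_coe_le_norm x) (cF.intervalIntegrable _ _)
    linarith [h0 x]
  have h2 : ‖U t‖ ≤ M + J + R := by
    refine (ContinuousMap.norm_le _ ?_).2 fun x => by linarith [h1 x, hβR (P • x)]
    linarith [h1 0, hβR (P • 0), norm_nonneg (U t 0)]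
  have hi : Integrable (fun y => (M + J) + 1 * β y) mu :=
    (integrable_const _).add (hβ.const_mul _)
  have h3 := hd _ _ _ hi h1 h2
  have h4 := mul_le_mul_of_nonneg_left (int_two (a := M + J) zero_le_one hβ hμ) hB
  nlinarith [mul_le_of_le_one_left (add_nonneg hM J0) hε1]

theorem step {α : ℝ} (hα : α < 0) (g : X) (T : ℝ) {η : ℝ} (hη : 0 < η) (k : ℤ) (c : ℂ) :
    ∃ (g' : X) (χ : ℝ → ℂ), χ 0 = 1 ∧ (∀ t, ‖χ t‖ ≤ 1) ∧ ∀ t, |t| ≤ T →
      ‖WW hα.le (flow (KK α) t g') - WW hα.le (flow (KK α) t g) -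
        (χ t * c) • WW hα.le (fourier k)‖ ≤ η := by
  rcases eq_or_ne c 0 with rfl | hc
  · exact ⟨g, fun _ => 1, rfl, fun _ => by simp, fun t _ => by simpa using hη.le⟩
  rcases lt_or_ge T 0 with hT | hT
  · exact ⟨g, fun _ => 1, rfl, fun _ => by simp, fun t ht => by linarith [abs_nonneg t]⟩
  have hμ : 0 < ‖c‖ := norm_pos_iff.2 hc
  obtain ⟨M, hM⟩ := (isCompact_closedBall (0 : ℝ) T).exists_bound_of_continuousOn
    (flow_sol (KK α) g).cont.continuousOn
  have hM' : ∀ s, |s| ≤ T → ‖flow (KK α) s g‖ ≤ M := fun s hs =>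
    hM s (mem_closedBall_zero_iff.2 hs)
  have hg : ‖g‖ ≤ M := by simpa [flow_zero] using hM' 0 (by simpa using hT)
  have hM0 : 0 ≤ M := (norm_nonneg _).trans hg
  obtain ⟨F, hF⟩ : ∃ F, F = (4 * (M + ‖c‖) + M + 1) * Real.exp ((4 + 1) * T) := ⟨_, rfl⟩
  have hF0 : 0 ≤ F := by rw [hF]; positivity
  obtain ⟨C, hC⟩ : ∃ C, C = F * T + M + F + T + 16 * ‖c‖ + 4 := ⟨_, rfl⟩
  have hFT : 0 ≤ F * T := by positivity
  have hC1 : 1 ≤ C := by linarith
  obtain ⟨q0, hq0⟩ : ∃ q0, q0 = max (16008 * C ^ 4)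
    ((19 * C ^ 4 * Real.exp (4 * C ^ 3) + 1206 * C ^ 6 + 2) / η) := ⟨_, rfl⟩
  have hq01 : 16008 * C ^ 4 ≤ q0 := by rw [hq0]; exact le_max_left _ _
  have hq0p : 0 < q0 := lt_of_lt_of_le (by positivity) hq01
  obtain ⟨θ, hθ⟩ : ∃ θ, θ = min 1 (‖c‖ / q0 ^ 4) := ⟨_, rfl⟩
  have hθ0 : 0 < θ := by rw [hθ]; positivity
  obtain ⟨m1, m2⟩ := mean_bounds hθ0 (by rw [hθ]; exact min_le_left _ _)
  obtain ⟨m, hm⟩ : ∃ m, m = ∫ y, √(tent θ y) ∂mu := ⟨_, rfl⟩
  rw [← hm] at m1 m2
  have hm0 : 0 < m := lt_of_lt_of_le (by positivity) m1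
  obtain ⟨q, hq⟩ : ∃ q, q = √(√(‖c‖ / m)) := ⟨_, rfl⟩
  have hq4 : q ^ 4 = ‖c‖ / m := by
    rw [hq, show (4 : ℕ) = 2 * 2 from rfl, pow_mul, Real.sq_sqrt (Real.sqrt_nonneg _),
      Real.sq_sqrt (by positivity)]
  have hqq : q0 ≤ q := by
    refine (pow_le_pow_iff_left₀ hq0p.le (by rw [hq]; positivity) (by norm_num : 4 ≠ 0)).1 ?_
    rw [hq4, le_div_iff₀ hm0]
    have : θ ≤ ‖c‖ / q0 ^ 4 := by rw [hθ]; exact min_le_right _ _
    rw [le_div_iff₀ (by positivity)] at this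
    nlinarith [pow_pos hq0p 4]
  have hqp : 0 < q := hq0p.trans_le hqq
  have c4 : C ≤ C ^ 4 := le_self_pow₀ hC1 (by norm_num)
  have hq1 : 1 ≤ q := by linarith
  have q4 : q ≤ q ^ 4 := le_self_pow₀ hq1 (by norm_num)
  have q9 : q ^ 4 ≤ q ^ 9 := pow_le_pow_right₀ hq1 (by norm_num)
  obtain ⟨ε, hε⟩ : ∃ ε, ε = 1 / (4 * C * q ^ 9) := ⟨_, rfl⟩
  have hε0 : 0 < ε := by rw [hε]; positivity
  have hεq : ε * (4 * C * q ^ 8) = 1 / q := by rw [hε]; field_simp
  have hεR : ε * q ^ 4 ≤ 1 := by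
    rw [hε, one_div, inv_mul_le_iff₀ (by positivity), mul_one]
    nlinarith [pow_pos hqp 9]
  obtain ⟨P0, hP0⟩ := WW_osc hα k hε0
  obtain ⟨P, ⟨hP1, hP2⟩, hP3, hP4⟩ := ((((dom_KK hα).at hε0).and ((dom_WW hα).at hε0)).and
    ((eventually_ge_atTop P0).and (eventually_gt_atTop 0))).exists
  have ct := continuous_tent θ
  have cz : Continuous (zeta θ) := by have := continuous_tent (2 * θ); unfold zeta; fun_prop
  set ω : ℂ := c / ‖c‖ with hω
  have nω : ‖ω‖ = 1 := by
    rw [hω, norm_div, Complex.norm_real, norm_norm, div_self hμ.ne']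
  set b : ℝ → X := fun t => ⟨fun y => Complex.exp (I * ((-(t * (q ^ 8 * tent θ y)) : ℝ) : ℂ)) *
    (ω * ((q ^ 4 * √(tent θ y) : ℝ) : ℂ)), by fun_prop⟩ with hb
  have nb : ∀ t y, ‖b t y‖ = q ^ 4 * √(tent θ y) := fun t y => by
    simp only [hb, ContinuousMap.coe_mk]
    rw [norm_mul, norm_mul, Complex.norm_exp_I_mul_ofReal, nω, Complex.norm_real,
      Real.norm_eq_abs, abs_of_nonneg (by positivity), one_mul, one_mul]
  set β : ℝ → X := fun t => (b t).comp ⟨fun x => P • x, by fun_prop⟩ with hβ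
  have β_apply : ∀ t x, β t x = b t (P • x) := fun _ _ => rfl
  have int_s : ∫ y, q ^ 4 * √(tent θ y) ∂mu = ‖c‖ := by
    rw [integral_const_mul, ← hm, hq4]; field_simp
  have s_le : ∀ y, q ^ 4 * √(tent θ y) ≤ q ^ 4 := fun y =>
    mul_le_of_le_one_right (by positivity) (Real.sqrt_le_one.2 (tent_le_one hθ0 y))
  have cfβ : ∀ t, cf 0 (β t) = ∫ y, b t y ∂mu := fun t => by
    rw [← int_nsmul hP4 (integ (b t).continuous)]
    simp [cf_apply, fourierCoeff, β_apply]
  set g' : X := ⟨fun x => (zeta θ (P • x) : ℂ) * g x, by fun_prop⟩ + fourier k * β 0 with hg'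
  have g'_apply : ∀ x, g' x = (zeta θ (P • x) : ℂ) * g x + fourier k x * b 0 (P • x) :=
    fun _ => rfl
  have b_out : ∀ t y, θ ≤ ‖y‖ → b t y = 0 := fun t y hy => by
    rw [← norm_eq_zero, nb, tent_eq_zero hθ0 hy]; simp
  have nz : ∀ x, ‖(zeta θ (P • x) : ℂ) * g x‖ ≤ M := fun x => by
    rw [norm_mul, Complex.norm_real, Real.norm_eq_abs]
    exact (mul_le_of_le_one_left (norm_nonneg _) (zeta_mem _ _)).trans
      ((g.norm_coe_le_norm x).trans hg)
  have g_in : ∀ x, ‖P • x‖ ≤ θ → g' x = fourier k x * b 0 (P • x) := fun x hx => by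
    rw [g'_apply, zeta_in hθ0 hx]; simp
  have g_in' : ∀ x, ‖P • x‖ ≤ θ → ‖g' x‖ = q ^ 4 * √(tent θ (P • x)) := fun x hx => by
    rw [g_in x hx, norm_mul, norm_fourier, one_mul, nb]
  have g_out : ∀ x, θ ≤ ‖P • x‖ → ‖g' x‖ ≤ M := fun x hx => by
    rw [g'_apply, b_out 0 _ hx, mul_zero, add_zero]; exact nz x
  have hsol := flow_sol (KK α) g'
  have hFb := force_bound (T := T) hsol (B := 4) (by norm_num) hM0
    (le_trans (le_mul_of_one_le_right hε0.le (by linarith)) hεR) hεR hP1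
    (β := fun y => q ^ 4 * √(tent θ y)) (integ (by fun_prop)) int_s.le s_le fun x => by
      rw [flow_zero, g'_apply]
      refine (norm_add_le _ _).trans (add_le_add (nz x) ?_)
      rw [norm_mul, norm_fourier, one_mul, nb]
  rw [← hF] at hFb
  have hamp : ∀ s, |s| ≤ T → ∀ x, |‖flow (KK α) s g' x‖ - ‖flow (KK α) 0 g' x‖| ≤ F * T :=
    fun s hs x => (hsol.cub x).amp
      (fun s hs => ((KK α _).norm_coe_le_norm x).trans (hFb s hs)) hs
  have inn : ∀ x, ‖P • x‖ ≤ θ → ‖g' x‖ ^ 2 = q ^ 8 * tent θ (P • x) := fun x hx => by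
    rw [g_in' x hx, mul_pow, Real.sq_sqrt (tent_nonneg _ _)]; ring
  have H : Setup (KK α) (fun t => flow (KK α) t g') C T θ q ε P :=
    { sol := hsol
      dom := fun h γ S h1 h2 h3 => (hP1 h γ S h1 h2 h3).trans (by
        have : 0 ≤ ∫ y, γ y ∂mu := by
          rw [← int_nsmul hP4 h1]
          exact integral_nonneg fun x => (norm_nonneg _).trans (h2 x)
        gcongr; linarith)
      hC := hC1
      hT := by linarith
      hθ := hθ0
      hθq := by
        rw [hq4, ← mul_div_assoc, div_le_iff₀ hm0]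
        nlinarith
      hq := hq01.trans hqq
      hε0 := hε0.le
      hε := hεq.le
      hF := fun s hs => (hFb s hs).trans (by linarith)
      amp := fun s hs x => (hamp s hs x).trans (by linarith)
      inn := fun x hx => by rw [flow_zero]; exact inn x hx
      out := fun x hx s hs => by
        have := (abs_le.1 (hamp s hs x)).2
        rw [flow_zero] at this
        linarith [g_out x hx]
      top := fun x => by
        rw [flow_zero]
        rcases le_total θ ‖P • x‖ with hx | hx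
        · linarith [g_out x hx]
        · rw [g_in' x hx]; exact s_le _ }
  have ncf : ∀ t, ‖cf 0 (β t)‖ ≤ ‖c‖ := fun t => by
    rw [cfβ, ← int_s]
    exact (norm_integral_le_integral_norm _).trans (le_of_eq (by simp only [nb]))
  refine ⟨g', fun t => cf 0 (β t) / c, ?_, fun t => ?_, fun t ht => ?_⟩
  · rw [div_eq_one_iff_eq hc, cfβ]
    simp only [hb, ContinuousMap.coe_mk, zero_mul, neg_zero, ofReal_zero, mul_zero,
      Complex.exp_zero, one_mul]
    rw [integral_const_mul, integral_complex_ofReal, int_s, hω]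
    have : ((‖c‖ : ℝ) : ℂ) ≠ 0 := by exact_mod_cast hμ.ne'
    field_simp
  · rw [norm_div, div_le_one hμ]; exact ncf t
  have f1 := H.final (flow_sol (KK α) g) (fun s hs => (hM' s hs).trans (by linarith))
    (fun x hx => by
      rw [flow_zero, flow_zero, g'_apply, zeta_out hθ0 hx, b_out 0 _ (by linarith)]; simp)
    hP2 ht (G := fourier k * β t) (fun x hx => by
      rw [flow_zero, inn x hx, g_in x hx, ContinuousMap.mul_apply, β_apply]
      simp only [hb, ContinuousMap.coe_mk, zero_mul, neg_zero, ofReal_zero, mul_zero,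
        Complex.exp_zero, one_mul]
      ring) (fun x hx => by rw [ContinuousMap.mul_apply, β_apply, b_out t _ hx, mul_zero])
  have f2 := hP0 P hP3 (β t - cf 0 (β t) • fourier 0) (fun y => by
      simp only [ContinuousMap.sub_apply, ContinuousMap.smul_apply, β_apply, nsmul_shift hP4,
        fourier_zero]) (by rw [map_sub, map_smul, cf_fourier]; simp)
  have f3 : ‖β t - cf 0 (β t) • (fourier 0 : X)‖ ≤ 4 * C * q ^ 8 := by
    refine (norm_sub_le _ _).trans ?_
    rw [norm_smul, fourier_norm, mul_one]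
    have a1 : ‖β t‖ ≤ q ^ 4 := (ContinuousMap.norm_le _ (by positivity)).2 fun x => by
      rw [β_apply, nb]; exact s_le _
    have a2 : q ^ 4 ≤ q ^ 8 := pow_le_pow_right₀ hq1 (by norm_num)
    have a3 : q ^ 8 ≤ C * q ^ 8 := le_mul_of_one_le_left (by positivity) hC1
    linarith [ncf t]
  have f4 : ε * ‖β t - cf 0 (β t) • (fourier 0 : X)‖ ≤ 1 / q := by
    rw [← hεq]; gcongr
  have e : WW hα.le (flow (KK α) t g') - WW hα.le (flow (KK α) t g) -
      (cf 0 (β t) / c * c) • WW hα.le (fourier k) =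
      WW hα.le (flow (KK α) t g' - flow (KK α) t g - fourier k * β t) +
      WW hα.le (fourier k * (β t - cf 0 (β t) • fourier 0)) := by
    have : (fourier k * (β t - cf 0 (β t) • fourier 0) : X) =
        fourier k * β t - cf 0 (β t) • fourier k := by
      ext x; simp; ring
    rw [this, div_mul_cancel₀ _ hc]
    simp only [map_sub, map_smul]; abel
  rw [e]
  refine (norm_add_le _ _).trans ((add_le_add f1 (f2.trans f4)).trans ?_)
  rw [← add_div, div_le_iff₀ hqp]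
  have : (19 * C ^ 4 * Real.exp (4 * C ^ 3) + 1206 * C ^ 6 + 2) / η ≤ q :=
    le_trans (by rw [hq0]; exact le_max_right _ _) hqq
  rw [div_le_iff₀ hη] at this
  linarith

end

end Pool.Agent.Lib.MMT
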