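import Pool.Agent.Lib.MMT.Step
import Pool.Agent.Lib.MMT.No

/-! For `α < 0` every datum has a global solution. -/

namespace Pool.Agent.Lib.MMT

open Filter Topology MeasureTheory AddCircle Complex Set Metric
open scoped Real ComplexConjugate

noncomputable section

lemma l2_mono {a b : L2} (h : ∀ k, ‖a k‖ ≤ ‖b k‖) : ‖a‖ ≤ ‖b‖ :=
  (pow_le_pow_iff_left₀ (norm_nonneg _) (norm_nonneg _) two_ne_zero).1
    (hasSum_le (fun k => by gcongr; exact h k) (l2_hasSum a) (l2_hasSum b))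

lemma WW_fourier {α : ℝ} (hα : α ≤ 0) (k : ℤ) (z : ℂ) :
    (z / wt α k) • WW hα (fourier k) = lp.single 2 k z := by
  ext j
  have : (wt α k : ℂ) ≠ 0 := by exact_mod_cast (wt_pos α k).ne'
  simp only [lp.coeFn_smul, Pi.smul_apply, WW_apply, cf_fourier, lp.single_apply, Pi.single_apply,
    smul_eq_mul]
  split_ifs with h
  · rw [h]; field_simp
  · simp

lemma dense_WW {α : ℝ} (hα : α ≤ 0) (a : L2) {ε : ℝ} (hε : 0 < ε) :
    ∃ p : X, ‖WW hα p - a‖ ≤ ε := by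
  obtain ⟨s, b, h1, h2⟩ := exists_trig a hε
  refine ⟨∑ k ∈ s, (a k / wt α k) • fourier k, ?_⟩
  simp only [map_sum, map_smul, WW_fourier, ← h2]
  exact h1.le

lemma multi_step {α : ℝ} (hα : α < 0) (g : X) (T : ℝ) (d : L2) (s : Finset ℤ) :
    ∀ η > 0, ∃ (g' : X) (χ : ℤ → ℝ → ℂ), (∀ k, χ k 0 = 1) ∧ (∀ k t, ‖χ k t‖ ≤ 1) ∧ ∀ t, |t| ≤ T →
      ‖WW hα.le (flow (KK α) t g') - WW hα.le (flow (KK α) t g) -
        ∑ k ∈ s, χ k t • (lp.single 2 k (d k) : L2)‖ ≤ η := by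
  classical
  induction s using Finset.induction_on with
  | empty =>
    exact fun η hη => ⟨g, fun _ _ => 1, fun _ => rfl, fun _ _ => by simp,
      fun t _ => by simpa using hη.le⟩
  | insert j s hj ih =>
    intro η hη
    obtain ⟨g1, χ, h1, h2, h3⟩ := ih (η / 2) (half_pos hη)
    obtain ⟨g2, χ', h4, h5, h6⟩ := step hα g1 T (half_pos hη) j (d j / wt α j)
    refine ⟨g2, fun k => if k = j then χ' else χ k, fun k => ?_, fun k t => ?_, fun t ht => ?_⟩
    · beta_reduce; split_ifs; exacts [h4, h1 k]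
    · beta_reduce; split_ifs; exacts [h5 t, h2 k t]
    · beta_reduce
      have e0 : ∑ k ∈ s, (if k = j then χ' else χ k) t • (lp.single 2 k (d k) : L2) =
          ∑ k ∈ s, χ k t • (lp.single 2 k (d k) : L2) := Finset.sum_congr rfl fun k hk => by
        rw [if_neg (by rintro rfl; exact hj hk)]
      rw [Finset.sum_insert hj, e0, if_pos rfl]
      have h7 := h6 t ht
      rw [mul_smul, WW_fourier] at h7
      have e : ∀ a b c x y : L2, a - c - (x + y) = (a - b - x) + (b - c - y) := by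
        intros; abel
      rw [e _ (WW hα.le (flow (KK α) t g1))]
      linarith [norm_add_le (WW hα.le (flow (KK α) t g2) - WW hα.le (flow (KK α) t g1) -
        χ' t • (lp.single 2 j (d j) : L2)) (WW hα.le (flow (KK α) t g1) -
          WW hα.le (flow (KK α) t g) - ∑ k ∈ s, χ k t • (lp.single 2 k (d k) : L2)), h3 t ht]

lemma move {α : ℝ} (hα : α < 0) (g : X) {T : ℝ} (hT : 0 ≤ T) (d : L2) {η : ℝ} (hη : 0 < η) :
    ∃ g' : X, ‖WW hα.le g' - WW hα.le g - d‖ ≤ η ∧ ∀ t, |t| ≤ T →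
      ‖WW hα.le (flow (KK α) t g') - WW hα.le (flow (KK α) t g)‖ ≤ ‖d‖ + η := by
  obtain ⟨s, b, h1, h2⟩ := exists_trig d (half_pos hη)
  obtain ⟨g', χ, h3, h4, h5⟩ := multi_step hα g T d s (η / 2) (half_pos hη)
  refine ⟨g', ?_, fun t ht => ?_⟩
  · have := h5 0 (by simpa using hT)
    simp only [flow_zero, h3, one_smul, ← h2] at this
    rw [show WW hα.le g' - WW hα.le g - d = (WW hα.le g' - WW hα.le g - b) + (b - d) by abel]
    linarith [norm_add_le (WW hα.le g' - WW hα.le g - b) (b - d)]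
  · have h6 : ‖∑ k ∈ s, χ k t • (lp.single 2 k (d k) : L2)‖ ≤ ‖d‖ := by
      refine l2_mono fun j => ?_
      simp only [lp.coeFn_sum, Finset.sum_apply, lp.coeFn_smul, Pi.smul_apply, lp.single_apply,
        Pi.single_apply, smul_eq_mul, mul_ite, mul_zero, Finset.sum_ite_eq]
      split_ifs
      · rw [norm_mul]; exact mul_le_of_le_one_left (norm_nonneg _) (h4 _ _)
      · simp
    linarith [norm_le_insert' (WW hα.le (flow (KK α) t g') - WW hα.le (flow (KK α) t g))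
      (∑ k ∈ s, χ k t • (lp.single 2 k (d k) : L2)), h5 t ht]

lemma limit {l : Filter ℕ} [l.NeBot] {G : ℕ → ℝ → L2} (hG : ∀ n, Continuous (G n))
    (hC : ∀ T, ∀ η > 0, ∃ s ∈ l, ∀ n ∈ s, ∀ m ∈ s, ∀ t, |t| ≤ T → ‖G n t - G m t‖ ≤ η) :
    ∃ U : ℝ → L2, Continuous U ∧
      ∀ T, ∀ η > 0, ∀ᶠ n in l, ∀ t, |t| ≤ T → ‖G n t - U t‖ ≤ η := by
  have h1 : ∀ t, ∃ x, Tendsto (fun n => G n t) l (𝓝 x) := fun t => by
    refine cauchy_map_iff_exists_tendsto.1 (Metric.cauchy_iff.2 ⟨inferInstance, fun ε hε => ?_⟩)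
    obtain ⟨s, hs, h⟩ := hC |t| (ε / 2) (half_pos hε)
    refine ⟨_, image_mem_map hs, ?_⟩
    rintro _ ⟨n, hn, rfl⟩ _ ⟨m, hm, rfl⟩
    rw [dist_eq_norm]
    linarith [h n hn m hm t le_rfl]
  choose U hU using h1
  have h2 : ∀ T, ∀ η > 0, ∀ᶠ n in l, ∀ t, |t| ≤ T → ‖G n t - U t‖ ≤ η := by
    intro T η hη
    obtain ⟨s, hs, h⟩ := hC T η hη
    filter_upwards [hs] with n hn t ht
    refine le_of_tendsto (tendsto_const_nhds.sub (hU t)).norm ?_
    filter_upwards [hs] with m hm using h n hn m hm t ht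
  refine ⟨U, continuous_iff_continuousAt.2 fun t => ?_, h2⟩
  have h3 : TendstoUniformlyOn G U l (closedBall 0 (|t| + 1)) := by
    refine Metric.tendstoUniformlyOn_iff.2 fun ε hε => ?_
    filter_upwards [h2 (|t| + 1) (ε / 2) (half_pos hε)] with n hn s hs
    rw [dist_comm, dist_eq_norm]
    linarith [hn s (mem_closedBall_zero_iff.1 hs)]
  exact (h3.continuousOn (Frequently.of_forall fun n => (hG n).continuousOn)).continuousAt
    (closedBall_mem_nhds_of_mem (mem_ball_zero_iff.2 (lt_add_one _)))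

/-- `U` is a locally uniform limit of orbits of the flow of `K`. -/
def Approx {α : ℝ} (hα : α ≤ 0) (K : X →L[ℂ] X) (U : ℝ → L2) : Prop :=
  ∀ T, ∀ η > 0, ∃ g : X, ∀ t, |t| ≤ T → ‖WW hα (flow K t g) - U t‖ ≤ η

lemma exists_approx {α : ℝ} (hα : α ≤ 0) (K : X →L[ℂ] X) {l : Filter ℕ} [l.NeBot] {g : ℕ → X}
    {a : L2} (ha : Tendsto (fun n => WW hα (g n)) l (𝓝 a))
    (hC : ∀ T, ∀ η > 0, ∃ s ∈ l, ∀ n ∈ s, ∀ m ∈ s, ∀ t, |t| ≤ T →
      ‖WW hα (flow K t (g n)) - WW hα (flow K t (g m))‖ ≤ η) :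
    ∃ U : ℝ → L2, Continuous U ∧ U 0 = a ∧ Approx hα K U := by
  obtain ⟨U, h1, h2⟩ := limit (G := fun n t => WW hα (flow K t (g n)))
    (fun n => (WW hα).continuous.comp (flow_sol K _).cont) hC
  refine ⟨U, h1, tendsto_nhds_unique (f := fun n => WW hα (g n)) (l := l) ?_ ha, fun T η hη => ?_⟩
  · refine Metric.tendsto_nhds.2 fun ε hε => ?_
    filter_upwards [h2 0 (ε / 2) (half_pos hε)] with n hn
    have := hn 0 (by simp)
    rw [flow_zero] at this
    rw [dist_eq_norm]; linarith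
  · obtain ⟨n, hn⟩ := (h2 T η hη).exists
    exact ⟨g n, hn⟩

theorem approx_neg {α : ℝ} (hα : α < 0) (a : L2) :
    ∃ U : ℝ → L2, Continuous U ∧ U 0 = a ∧ Approx hα.le (KK α) U := by
  choose nx h1 h2 using fun (n : ℕ) (g : X) => move hα g (Nat.cast_nonneg n) (a - WW hα.le g)
    (η := (1 / 2) ^ (n + 1)) (by positivity)
  obtain ⟨g0, hg0⟩ := dense_WW hα.le a one_pos
  set g : ℕ → X := fun n => Nat.rec g0 nx n with hg
  have gs : ∀ n, g (n + 1) = nx n (g n) := fun _ => rfl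
  have h3 : ∀ n, ‖WW hα.le (g n) - a‖ ≤ (1 / 2) ^ n := by
    intro n
    cases n with
    | zero => rw [pow_zero]; exact hg0
    | succ n => simpa [gs] using h1 n (g n)
  have t0 : Tendsto (fun n : ℕ => (1 / 2 : ℝ) ^ n) atTop (𝓝 0) :=
    tendsto_pow_atTop_nhds_zero_of_lt_one (by norm_num) (by norm_num)
  refine exists_approx hα.le (KK α) (l := atTop) (g := g) (tendsto_iff_norm_sub_tendsto_zero.2
    (squeeze_zero (fun _ => norm_nonneg _) h3 t0)) fun T η hη => ?_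
  obtain ⟨N, hN1, hN2⟩ := ((tendsto_natCast_atTop_atTop.eventually_ge_atTop T).and
    (t0.eventually (Iic_mem_nhds (by positivity : 0 < η / 8)))).exists
  have key : ∀ t, |t| ≤ T → ∀ j, ‖WW hα.le (flow (KK α) t (g (N + j))) -
      WW hα.le (flow (KK α) t (g N))‖ ≤ 4 * (1 / 2) ^ N - 4 * (1 / 2) ^ (N + j) := by
    intro t ht j
    induction j with
    | zero => simp
    | succ j ih =>
      have a1 := h2 (N + j) (g (N + j)) t (by
        push_cast; linarith [(Nat.cast_nonneg j : (0 : ℝ) ≤ j)])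
      rw [← gs, norm_sub_rev a] at a1
      have a2 := h3 (N + j)
      have a3 := norm_sub_le_norm_sub_add_norm_sub (WW hα.le (flow (KK α) t (g (N + j + 1))))
        (WW hα.le (flow (KK α) t (g (N + j)))) (WW hα.le (flow (KK α) t (g N)))
      rw [← add_assoc]
      rw [pow_succ] at a1 ⊢
      have : (0 : ℝ) ≤ (1 / 2) ^ (N + j) := by positivity
      linarith
  refine ⟨Ici N, Ici_mem_atTop N, fun n hn m hm t ht => ?_⟩
  obtain ⟨i, rfl⟩ := Nat.exists_eq_add_of_le (show N ≤ n from hn)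
  obtain ⟨j, rfl⟩ := Nat.exists_eq_add_of_le (show N ≤ m from hm)
  have a1 := key t ht i
  have a2 := key t ht j
  have a3 := norm_sub_le_norm_sub_add_norm_sub (WW hα.le (flow (KK α) t (g (N + i))))
    (WW hα.le (flow (KK α) t (g N))) (WW hα.le (flow (KK α) t (g (N + j))))
  rw [norm_sub_rev] at a2
  have : (0 : ℝ) ≤ (1 / 2) ^ (N + i) := by positivity
  have : (0 : ℝ) ≤ (1 / 2) ^ (N + j) := by positivity
  have : (1 / 2 : ℝ) ^ N ≤ η / 8 := hN2
  linarith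

lemma comm_tr {K : X →L[ℂ] X} {σ : ℤ → ℂ} (hK : ∀ k h, cf k (K h) = σ k * cf k h) (h : Ci)
    (u : X) : K (tr h u) = tr h (K u) :=
  ext_cf fun k => by rw [hK, cf_tr, cf_tr, hK]; ring

lemma smooth_of {α : ℝ} (hα : α ≤ 0) {K : X →L[ℂ] X}
    (hK : ∀ k h, cf k (K h) = sym α k * cf k h) {V : ℝ → X} (hV : IsSol K V)
    (hs : ContDiff ℝ (⊤ : ℕ∞) fun q : ℝ × ℝ => V q.1 (q.2 : Ci)) {T : ℝ} (hT : 0 < T) :
    IsSmoothSol α T fun t x => V t x := by
  refine ⟨hs.contDiffOn, fun t ht x => ?_⟩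
  have h2 : (2 : WithTop ℕ∞) ≤ ((⊤ : ℕ∞) : WithTop ℕ∞) := WithTop.coe_le_coe.2 le_top
  have h3 : ContDiff ℝ 2 fun y : ℝ => V t (y : Ci) :=
    (hs.of_le h2).comp (contDiff_const.prodMk contDiff_id)
  have h4 : Summable (fourierCoeff (K (V t))) := by
    refine Summable.of_norm ((summable_sym (α := α) (by linarith) h3).congr fun k => ?_)
    rw [← cf_apply k (K (V t)), hK, norm_mul, Complex.norm_real, Real.norm_eq_abs,
      abs_of_nonneg (sym_nonneg α k), cf_apply]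
  have h5 : fracD α (V t) x = K (V t) x := by
    rw [fracD_eq, ← (has_pointwise_sum_fourier_series_of_summable h4 x).tsum_eq]
    refine tsum_congr fun k => ?_
    rw [← cf_apply k (K (V t)), hK, cf_apply, smul_eq_mul]
  rw [(hasDerivAt_eval (hV t) x).hasDerivWithinAt.derivWithin
    (uniqueDiffOn_Icc (by linarith) t ht), vf_apply, Complex.mul_conj', ← h5, ← mul_assoc]
  simp

lemma global_of {α : ℝ} (hα : α ≤ 0) {U : ℝ → L2} (hU : Continuous U)
    (h : ∀ T > 0, ∀ η > 0, ∃ V : ℝ → X, (IsSmoothSol α T fun t x => V t x) ∧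
      ∀ t, |t| ≤ T → ‖WW hα (V t) - U t‖ ≤ η) : HasGlobalSol α (ofL2 α (U 0)) := by
  refine ⟨fun t => ofL2 α (U t), rfl, fun t => by rw [hs_ofL2]; exact ENNReal.ofReal_lt_top,
    fun t => ?_, fun T hT => ?_⟩
  · simp only [← ofL2_sub, hs_ofL2]
    have : Tendsto (fun s => ‖U s - U t‖ ^ 2) (𝓝 t) (𝓝 (‖U t - U t‖ ^ 2)) :=
      ((hU.sub continuous_const).norm.pow 2).tendsto t
    simpa using ENNReal.tendsto_ofReal this
  · choose V h1 h2 using fun n : ℕ => h T hT (1 / ((n : ℝ) + 1)) (by positivity)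
    refine ⟨fun n t x => V n t x, Eventually.of_forall h1, ?_⟩
    have t1 : Tendsto (fun n : ℕ => ENNReal.ofReal ((1 / ((n : ℝ) + 1)) ^ 2)) atTop (𝓝 0) := by
      simpa using ENNReal.tendsto_ofReal (tendsto_one_div_add_atTop_nhds_zero_nat.pow 2)
    refine tendsto_of_tendsto_of_tendsto_of_le_of_le tendsto_const_nhds t1 (fun _ => zero_le)
      fun n => iSup₂_le fun t ht => ?_
    have e : fourierCoeff (fun x => V n t x) = ofL2 α (WW hα (V n t)) := (ofL2_WW hα _).symm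
    rw [e, ← ofL2_sub, hs_ofL2]
    gcongr
    exact h2 n t (abs_le.2 ht)

lemma Approx.trig {α : ℝ} {hα : α ≤ 0} {K : X →L[ℂ] X} {U : ℝ → L2} (h : Approx hα K U)
    (T : ℝ) {η : ℝ} (hη : 0 < η) : ∃ p ∈ Submodule.span ℂ (range (fourier (T := 2 * π))),
      ∀ t, |t| ≤ T → ‖WW hα (flow K t p) - U t‖ ≤ η := by
  obtain ⟨g, hg⟩ := h T (η / 2) (half_pos hη)
  obtain ⟨p, hp, hp2⟩ := approx_trig K g T (half_pos hη)
  refine ⟨p, hp, fun t ht => ?_⟩
  have h1 := norm_WW_le hα (flow K t p - flow K t g)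
  rw [map_sub] at h1
  linarith [norm_sub_le_norm_sub_add_norm_sub (WW hα (flow K t p)) (WW hα (flow K t g)) (U t),
    hg t ht, hp2 t ht]

theorem all_neg {α : ℝ} (hα : α < 0) (c : ℤ → ℂ) (hc : hsNormSq α c < ⊤) : HasGlobalSol α c := by
  obtain ⟨a, rfl⟩ := exists_ofL2 hc
  obtain ⟨U, h1, rfl, h2⟩ := approx_neg hα a
  refine global_of hα.le h1 fun T hT η hη => ?_
  obtain ⟨p, hp, hp2⟩ := h2.trig T hη
  exact ⟨_, smooth_of hα.le (cf_KK hα) (flow_sol _ p)
    (contDiff_sol (comm_tr (cf_KK hα)) hp) hT, hp2⟩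

end

end Pool.Agent.Lib.MMT
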