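import Pool.Agent.Lib.MMT.Yes

/-! The case `α = 0`: an ODE coupled through the mean; compactness along an ultrafilter. -/

namespace Pool.Agent.Lib.MMT

open Filter Topology MeasureTheory AddCircle Complex Set Metric
open scoped Real ComplexConjugate

noncomputable section

abbrev W0 : X →L[ℂ] L2 := WW (le_refl (0 : ℝ))

lemma norm_W0_sq (h : X) : ‖W0 h‖ ^ 2 = ∫ x, ‖h x‖ ^ 2 ∂mu := by
  refine (l2_hasSum (W0 h)).unique ?_
  have e : ∀ k, ‖W0 h k‖ = ‖fourierCoeff h k‖ := fun k => by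
    rw [WW_apply, norm_wt_mul, cf_apply]; simp [wt]
  simp only [e]
  exact parseval h

lemma int_le_W0 (h : X) : ∫ x, ‖h x‖ ∂mu ≤ ‖W0 h‖ := by
  set c := ∫ x, ‖h x‖ ∂mu with hc
  have h1 : 0 ≤ ∫ x, (‖h x‖ ^ 2 - 2 * c * ‖h x‖ + c ^ 2) ∂mu :=
    integral_nonneg fun x => by have := sq_nonneg (‖h x‖ - c); simp only [Pi.zero_apply]; linarith
  rw [integral_add (integ (by fun_prop)) (integrable_const _), integral_sub (integ (by fun_prop))
    (integ (by fun_prop)), integral_const_mul, ← hc, ← norm_W0_sq] at h1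
  simp only [integral_const, probReal_univ, smul_eq_mul, one_mul] at h1
  exact abs_le_of_sq_le_sq' (by linarith) (norm_nonneg _) |>.2

lemma norm_cf0_le (h : X) : ‖cf 0 h‖ ≤ ∫ x, ‖h x‖ ∂mu := by
  simpa [cf_apply, fourierCoeff] using norm_integral_le_integral_norm (μ := mu) fun x => h x

/-- the mean coupling -/
def K1 : X →L[ℂ] X := -Fej 0

lemma K1_apply (h : X) (x : Ci) : K1 h x = -cf 0 h := by
  simp [K1, Fej]

lemma cf_K1 (k : ℤ) (h : X) : cf k (K1 h) = (-(fw 0 k : ℂ)) * cf k h := by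
  rw [K1, neg_apply, map_neg, cf_Fej]; ring

lemma mean_bound (g : X) {A T : ℝ} (hA : ‖W0 g‖ ≤ A) :
    ∀ t, |t| ≤ T → ‖cf 0 (flow K1 t g)‖ ≤ A * Real.exp (1 * T) := by
  have hs := flow_sol K1 g
  have c : Continuous fun t => ‖cf 0 (flow K1 t g)‖ := ((cf 0).continuous.comp hs.cont).norm
  refine gronwall c (fun _ => norm_nonneg _) zero_le_one fun t _ => ?_
  refine (norm_cf0_le _).trans ?_
  calc _ ≤ ∫ x, (|∫ s in (0 : ℝ)..t, ‖cf 0 (flow K1 s g)‖| + 1 * ‖g x‖) ∂mu := by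
        refine integral_mono (integ (by fun_prop)) (integ (by fun_prop)) fun x => ?_
        have := (abs_le.1 ((hs.cub x).amp' t)).2
        simp only [K1_apply, norm_neg, flow_zero] at this
        simp only; linarith
    _ ≤ _ := (int_two zero_le_one (integ (by fun_prop)) ((int_le_W0 g).trans hA)).trans
        (by linarith)

section

variable {g g' g0 : X} {T F : ℝ}

lemma amp1 (hF : ∀ t, |t| ≤ T → ‖cf 0 (flow K1 t g)‖ ≤ F) (x : Ci) {t : ℝ} (ht : |t| ≤ T) :
    ‖flow K1 t g x‖ ≤ ‖g x‖ + F * T := by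
  have := (abs_le.1 (((flow_sol K1 g).cub x).amp (fun s hs => by
    rw [K1_apply, norm_neg]; exact hF s hs) ht)).2
  simp only [flow_zero] at this
  linarith

lemma equi (hF : ∀ t, |t| ≤ T → ‖cf 0 (flow K1 t g)‖ ≤ F) {s t : ℝ} (hs : |s| ≤ T)
    (ht : |t| ≤ T) : ‖cf 0 (flow K1 t g) - cf 0 (flow K1 s g)‖ ≤
      (F + (2 * ‖g0‖ + 3 * (F * T)) ^ 3) * |t - s| + 6 * ‖W0 (g - g0)‖ := by
  have hT : 0 ≤ T := (abs_nonneg t).trans ht
  have hF0 : 0 ≤ F := (norm_nonneg _).trans (hF t ht)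
  have hFT : 0 ≤ F * T := by positivity
  rw [← map_sub]
  refine (norm_cf0_le _).trans (le_trans ?_ (int_two (by norm_num) (integ (by fun_prop))
    (int_le_W0 (g - g0))))
  refine integral_mono (integ (by fun_prop)) (integ (by fun_prop)) fun x => ?_
  simp only [ContinuousMap.sub_apply]
  rcases le_total ‖g x‖ (2 * ‖g0‖ + 2 * (F * T)) with h | h
  · have := (convex_Icc (-T) T).norm_image_sub_le_of_norm_hasDerivWithin_le
      (C := F + (2 * ‖g0‖ + 3 * (F * T)) ^ 3)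
      (fun r _ => (((flow_sol K1 g).cub x).2 r).hasDerivWithinAt) (fun r hr => by
        have a1 : ‖flow K1 r g x‖ ≤ 2 * ‖g0‖ + 3 * (F * T) := by
          linarith [amp1 hF x (abs_le.2 hr)]
        rw [norm_mul, norm_neg, norm_I, one_mul]
        refine (norm_add_le _ _).trans (add_le_add ?_ ?_)
        · beta_reduce; rw [K1_apply, norm_neg]; exact hF r (abs_le.2 hr)
        · rw [norm_mul, norm_mul, Complex.norm_conj, ← sq, ← pow_succ]; gcongr)
      (abs_le.1 hs) (abs_le.1 ht)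
    rw [Real.norm_eq_abs] at this
    linarith [norm_nonneg (g x - g0 x)]
  · have : 0 ≤ (F + (2 * ‖g0‖ + 3 * (F * T)) ^ 3) * |t - s| := by positivity
    linarith [norm_sub_le (flow K1 t g x) (flow K1 s g x), amp1 hF x hs, amp1 hF x ht,
      norm_sub_norm_le (g x) (g0 x), g0.norm_coe_le_norm x, norm_nonneg g0]

lemma close (hF : ∀ t, |t| ≤ T → ‖cf 0 (flow K1 t g)‖ ≤ F)
    (hF' : ∀ t, |t| ≤ T → ‖cf 0 (flow K1 t g')‖ ≤ F) {δ : ℝ}
    (hδ : ∀ t, |t| ≤ T → ‖cf 0 (flow K1 t g) - cf 0 (flow K1 t g')‖ ≤ δ) {t : ℝ} (ht : |t| ≤ T) :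
    ‖W0 (flow K1 t g) - W0 (flow K1 t g')‖ ^ 2 ≤
      4 * ((Real.exp (3 * (2 * ‖g0‖ + 3 * (F * T)) ^ 2 * T) * ‖W0 (g - g')‖) ^ 2 +
        (Real.exp (3 * (2 * ‖g0‖ + 3 * (F * T)) ^ 2 * T) * (δ * T)) ^ 2 +
        25 * ‖W0 (g - g0)‖ ^ 2 + 25 * ‖W0 (g' - g0)‖ ^ 2) := by
  have hT : 0 ≤ T := (abs_nonneg t).trans ht
  have hF0 : 0 ≤ F := (norm_nonneg _).trans (hF t ht)
  have hδ0 : 0 ≤ δ := (norm_nonneg _).trans (hδ t ht)
  have hFT : 0 ≤ F * T := by positivity
  set E := Real.exp (3 * (2 * ‖g0‖ + 3 * (F * T)) ^ 2 * T) with hE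
  have pt : ∀ x, ‖flow K1 t g x - flow K1 t g' x‖ ≤
      E * ‖g x - g' x‖ + E * (δ * T) + 5 * ‖g x - g0 x‖ + 5 * ‖g' x - g0 x‖ := by
    intro x
    have n1 : 0 ≤ E * ‖g x - g' x‖ := by positivity
    have n2 : 0 ≤ E * (δ * T) := by positivity
    have n3 := norm_nonneg (g x - g0 x)
    have n4 := norm_nonneg (g' x - g0 x)
    have b0 := norm_sub_le (flow K1 t g x) (flow K1 t g' x)
    have b1 := amp1 hF x ht
    have b2 := amp1 hF' x ht
    have b3 := norm_sub_norm_le (g x) (g0 x)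
    have b4 := norm_sub_norm_le (g' x) (g0 x)
    have b5 := g0.norm_coe_le_norm x
    have b6 := norm_nonneg g0
    rcases le_total (2 * ‖g0‖ + 2 * (F * T)) ‖g x‖ with h | h
    · linarith
    rcases le_total (2 * ‖g0‖ + 2 * (F * T)) ‖g' x‖ with h' | h'
    · linarith
    have z1 := (flow_sol K1 g).cub x
    have z2 := (flow_sol K1 g').cub x
    have c : Continuous fun s => ‖flow K1 s g x - flow K1 s g' x‖ := (z1.cont.sub z2.cont).norm
    have := gronwall c (fun _ => norm_nonneg _) (ε := ‖g x - g' x‖ + δ * T)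
      (L := 3 * (2 * ‖g0‖ + 3 * (F * T)) ^ 2) (T := T) (by positivity) (fun s hs => by
        have a1 := z1.stab z2 (ρ := 2 * ‖g0‖ + 3 * (F * T))
          (fun r hr => by linarith [amp1 hF x hr]) (fun r hr => by linarith [amp1 hF' x hr]) c
          (fun _ => le_rfl) hs
        have a2 := norm_int_le (f := fun r => K1 (flow K1 r g) x - K1 (flow K1 r g') x) (C := δ) hs
          fun r hr => by
            rw [K1_apply, K1_apply, neg_sub_neg, norm_sub_rev]; exact hδ r hr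
        simp only [flow_zero] at a1
        linarith) t ht
    rw [← hE] at this
    linarith
  rw [← map_sub, mul_pow, norm_W0_sq, norm_W0_sq, norm_W0_sq, norm_W0_sq]
  calc _ ≤ ∫ x, 4 * (E ^ 2 * ‖(g - g') x‖ ^ 2 + (E * (δ * T)) ^ 2 + 25 * ‖(g - g0) x‖ ^ 2 +
        25 * ‖(g' - g0) x‖ ^ 2) ∂mu := by
        refine integral_mono (integ (by fun_prop)) (integ (by fun_prop)) fun x => ?_
        simp only [ContinuousMap.sub_apply]
        refine (pow_le_pow_left₀ (norm_nonneg _) (pt x) 2).trans ?_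
        generalize ‖g x - g' x‖ = a
        generalize ‖g x - g0 x‖ = b
        generalize ‖g' x - g0 x‖ = c
        generalize E * (δ * T) = d
        nlinarith [sq_nonneg (E * a - d), sq_nonneg (E * a - 5 * b), sq_nonneg (E * a - 5 * c),
          sq_nonneg (d - 5 * b), sq_nonneg (d - 5 * c), sq_nonneg (5 * b - 5 * c)]
    _ = _ := by
        rw [integral_const_mul, integral_add (integ (by fun_prop)) (integ (by fun_prop)),
          integral_add (integ (by fun_prop)) (integ (by fun_prop)),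
          integral_add (integ (by fun_prop)) (integ (by fun_prop)), integral_const_mul,
          integral_const_mul, integral_const_mul]
        simp

end

theorem approx_zero (a : L2) :
    ∃ U : ℝ → L2, Continuous U ∧ U 0 = a ∧ Approx (le_refl (0 : ℝ)) K1 U := by
  choose g hg using fun n : ℕ => dense_WW (le_refl (0 : ℝ)) a (ε := 1 / ((n : ℝ) + 1))
    (by positivity)
  set l : Ultrafilter ℕ := hyperfilter ℕ
  have hl : (l : Filter ℕ) ≤ atTop := by rw [← Nat.cofinite_eq_atTop]; exact hyperfilter_le_cofinite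
  have hA : ∀ n, ‖W0 (g n)‖ ≤ ‖a‖ + 1 := fun n => by
    have : 1 / ((n : ℝ) + 1) ≤ 1 := by
      rw [div_le_one (by positivity)]; linarith [(Nat.cast_nonneg n : (0 : ℝ) ≤ n)]
    linarith [norm_le_insert' (W0 (g n)) a, hg n]
  have hF : ∀ T n t, |t| ≤ T → ‖cf 0 (flow K1 t (g n))‖ ≤ (‖a‖ + 1) * Real.exp (1 * T) :=
    fun T n => mean_bound (g n) (hA n)
  have cau : ∀ ε > 0, ∃ N : ℕ, ∀ n ≥ N, ∀ m ≥ N, ‖W0 (g n - g m)‖ ≤ ε := by
    intro ε hε
    obtain ⟨N, hN⟩ := eventually_atTop.1 (tendsto_one_div_add_atTop_nhds_zero_nat.eventually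
      (Iic_mem_nhds (half_pos hε)))
    refine ⟨N, fun n hn m hm => ?_⟩
    have h1 : 1 / ((n : ℝ) + 1) ≤ ε / 2 := hN n hn
    have h2 : 1 / ((m : ℝ) + 1) ≤ ε / 2 := hN m hm
    rw [map_sub]
    have h3 := hg m
    rw [norm_sub_rev] at h3
    linarith [norm_sub_le_norm_sub_add_norm_sub (W0 (g n)) a (W0 (g m)), hg n]
  have hlim : ∀ t, ∃ z, Tendsto (fun n => cf 0 (flow K1 t (g n))) l (𝓝 z) := fun t => by
    obtain ⟨z, -, hz⟩ := (isCompact_closedBall (0 : ℂ) ((‖a‖ + 1) * Real.exp (1 * |t|))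
      ).ultrafilter_le_nhds (l.map fun n => cf 0 (flow K1 t (g n)))
      (le_principal_iff.2 (mem_map.2 (univ_mem' fun n =>
        mem_closedBall_zero_iff.2 (hF |t| n t le_rfl))))
    exact ⟨z, hz⟩
  choose m hm using hlim
  have unif : ∀ T, ∀ δ > 0, ∀ᶠ n in (l : Filter ℕ), ∀ t, |t| ≤ T →
      ‖cf 0 (flow K1 t (g n)) - m t‖ ≤ δ := by
    intro T δ hδ
    obtain ⟨N, hN⟩ := cau (δ / 24) (by positivity)
    set F := (‖a‖ + 1) * Real.exp (1 * T)
    set L := |F + (2 * ‖g N‖ + 3 * (F * T)) ^ 3| + 1 with hL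
    have hL0 : 0 < L := by positivity
    have e1 : ∀ n ≥ N, ∀ s t, |s| ≤ T → |t| ≤ T → |t - s| ≤ δ / 8 / L →
        ‖cf 0 (flow K1 t (g n)) - cf 0 (flow K1 s (g n))‖ ≤ 3 * δ / 8 := by
      intro n hn s t hs ht hst
      have a1 := equi (g0 := g N) (hF T n) hs ht
      have a2 := hN n hn N le_rfl
      have a3 : (F + (2 * ‖g N‖ + 3 * (F * T)) ^ 3) * |t - s| ≤ L * (δ / 8 / L) := by
        gcongr
        linarith [le_abs_self (F + (2 * ‖g N‖ + 3 * (F * T)) ^ 3)]
      rw [mul_div_cancel₀ _ hL0.ne'] at a3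
      linarith
    have e2 : ∀ s t, |s| ≤ T → |t| ≤ T → |t - s| ≤ δ / 8 / L → ‖m t - m s‖ ≤ 3 * δ / 8 := by
      intro s t hs ht hst
      refine le_of_tendsto ((hm t).sub (hm s)).norm ?_
      filter_upwards [hl (eventually_ge_atTop N)] with n hn using e1 n hn s t hs ht hst
    obtain ⟨S, hS1, hS2, hS3⟩ := finite_cover_balls_of_compact (isCompact_closedBall (0 : ℝ) T)
      (e := δ / 8 / L) (by positivity)
    have e3 : ∀ᶠ n in (l : Filter ℕ), ∀ s ∈ S, ‖cf 0 (flow K1 s (g n)) - m s‖ ≤ δ / 4 :=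
      (eventually_all_finite hS2).2 fun s _ =>
        (tendsto_iff_norm_sub_tendsto_zero.1 (hm s)).eventually (Iic_mem_nhds (by positivity))
    filter_upwards [e3, hl (eventually_ge_atTop N)] with n h1 hn t ht
    obtain ⟨s, hs, hst⟩ := mem_iUnion₂.1 (hS3 (mem_closedBall_zero_iff.2 ht))
    have hs' : |s| ≤ T := mem_closedBall_zero_iff.1 (hS1 hs)
    have hst' : |t - s| ≤ δ / 8 / L := (mem_ball_iff_norm.1 hst).le
    have a1 := e1 n hn s t hs' ht hst'
    have a2 := e2 s t hs' ht hst'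
    rw [norm_sub_rev] at a2
    linarith [h1 s hs, norm_sub_le_norm_sub_add_norm_sub (cf 0 (flow K1 t (g n)))
      (cf 0 (flow K1 s (g n))) (m t), norm_sub_le_norm_sub_add_norm_sub
      (cf 0 (flow K1 s (g n))) (m s) (m t)]
  refine exists_approx _ K1 (l := l) (g := g) (tendsto_iff_norm_sub_tendsto_zero.2
    ((squeeze_zero (fun _ => norm_nonneg _) hg tendsto_one_div_add_atTop_nhds_zero_nat).mono_left
      hl)) fun T η hη => ?_
  obtain ⟨N, hN⟩ := cau (η / 20) (by positivity)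
  set F := (‖a‖ + 1) * Real.exp (1 * T)
  set E := Real.exp (3 * (2 * ‖g N‖ + 3 * (F * T)) ^ 2 * T) with hE
  have hE0 : 0 < E := Real.exp_pos _
  obtain ⟨N', hN'⟩ := cau (η / 4 / E) (by positivity)
  set δ := η / 4 / E / (|T| + 1) with hδ
  refine ⟨_, (unif T (δ / 2) (by positivity)).and (((eventually_ge_atTop N).and
    (eventually_ge_atTop N')).filter_mono hl), fun n hn n' hn' t ht => ?_⟩
  obtain ⟨a1, a2, a3⟩ := hn
  obtain ⟨b1, b2, b3⟩ := hn'
  have hT : 0 ≤ T := (abs_nonneg t).trans ht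
  have c1 := close (g0 := g N) (hF T n) (hF T n') (δ := δ) (fun s hs => by
    have := b1 s hs
    rw [norm_sub_rev] at this
    linarith [a1 s hs, norm_sub_le_norm_sub_add_norm_sub (cf 0 (flow K1 s (g n))) (m s)
      (cf 0 (flow K1 s (g n')))]) ht
  rw [← hE] at c1
  have d1 : E * ‖W0 (g n - g n')‖ ≤ η / 4 := by
    calc _ ≤ E * (η / 4 / E) := by gcongr; exact hN' n a3 n' b3
      _ = _ := by field_simp
  have d2 : E * (δ * T) ≤ η / 4 := by
    calc _ ≤ E * (δ * (|T| + 1)) := by gcongr; linarith [le_abs_self T]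
      _ = _ := by rw [hδ]; field_simp
  refine (pow_le_pow_iff_left₀ (norm_nonneg _) hη.le two_ne_zero).1 (c1.trans ?_)
  calc _ ≤ 4 * ((η / 4) ^ 2 + (η / 4) ^ 2 + 25 * (η / 20) ^ 2 + 25 * (η / 20) ^ 2) := by
        gcongr
        exacts [hN n a2 N le_rfl, hN n' b2 N le_rfl]
    _ = _ := by ring

theorem all_zero (c : ℤ → ℂ) (hc : hsNormSq 0 c < ⊤) : HasGlobalSol 0 c := by
  obtain ⟨a, rfl⟩ := exists_ofL2 hc
  obtain ⟨U, h1, rfl, h2⟩ := approx_zero a
  set e : ℝ → ℂ := fun t => Complex.exp (I * ((-t : ℝ) : ℂ)) with he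
  have ne : ∀ t, ‖e t‖ = 1 := fun t => Complex.norm_exp_I_mul_ofReal _
  have de : ∀ t, HasDerivAt e (-I * e t) t := fun t =>
    ((((hasDerivAt_neg t).ofReal_comp).const_mul I).cexp).congr_deriv (by simp [he]; ring)
  have ce : ContDiff ℝ (⊤ : ℕ∞) e :=
    (contDiff_const.mul (ofRealCLM.contDiff.comp contDiff_neg)).cexp
  have e0 : U 0 = (fun t => e t • U t) 0 := by simp [he]
  rw [e0]
  refine global_of le_rfl (U := fun t => e t • U t) (ce.continuous.smul h1) fun T hT η hη => ?_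
  obtain ⟨p, hp, hp2⟩ := h2.trig T hη
  refine ⟨fun t => e t • flow K1 t p, smooth_of le_rfl (K := 1 + K1) (fun k h => ?_) (fun t => ?_)
    ((ce.comp contDiff_fst).mul (contDiff_sol (comm_tr cf_K1) hp)) hT, fun t ht => ?_⟩
  · rw [add_apply, map_add, cf_K1, fw_zero, one_apply_eq_self, sym]
    split_ifs <;> simp
  · refine ((de t).smul (flow_sol K1 p t)).congr_deriv ?_
    ext x
    have : e t * conj (e t) = 1 := by rw [Complex.mul_conj', ne]; simp
    simp only [ContinuousMap.add_apply, ContinuousMap.smul_apply, vf_apply, add_apply, map_smul,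
      one_apply_eq_self, smul_eq_mul, map_mul]
    linear_combination (I * e t * (flow K1 t p x * conj (flow K1 t p x) * flow K1 t p x)) * this
  · rw [map_smul, ← smul_sub, norm_smul, ne, one_mul]
    exact hp2 t ht

theorem main {α : ℝ} (hα : α < 1 / 2) :
    (∀ c : ℤ → ℂ, hsNormSq α c < ⊤ → HasGlobalSol α c) ↔ α ≤ 0 := by
  refine ⟨fun h => not_lt.1 fun h0 => not_all h0 hα h, fun h => ?_⟩
  rcases h.lt_or_eq with h | rfl
  exacts [all_neg h, all_zero]

end

end Pool.Agent.Lib.MMT
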